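import Pool.Agent.EEF.Flat

/-!
# EEF / Main: short covering runs of flat systems and along path schemes
-/

set_option autoImplicit false

namespace Pool.Agent.EEF

open Finset

variable {Q : Type} {d : ℕ} {T : VASS Q d}

theorem isz_le {M : ℕ} {I : List (Itm d)} (h : ∀ i ∈ I, (∀ v ∈ i.1, ∀ k, |v k| ≤ M) ∧
    ∀ v ∈ i.2.1, ∀ k, |v k| ≤ M) : isz I ≤ flen I * (d * M) := by
  induction I with
  | nil => simp [isz]
  | cons i I ih =>
    have h1 := wsz_le (h i List.mem_cons_self).1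
    have h2 := wsz_le (h i List.mem_cons_self).2
    have h3 := ih fun j hj => h j (List.mem_cons_of_mem _ hj)
    have e1 : isz (i :: I) = wsz i.1 + 2 * wsz i.2.1 + isz I := by simp [isz]
    have e2 : flen (i :: I) = i.1.length + 2 * i.2.1.length + flen I := by simp [flen]
    rw [e1, e2]
    push_cast
    linarith

theorem core {s t : Q} {I : List (Itm d)} (hI : IsScheme T s (I.map isk) t)
    {x y y' : Fin d → ℕ} (hrun : Run T s x (unroll I) t y') (hy : ∀ k, y k ≤ y' k)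
    {T₀ N K β : ℚ} {n₀ : ℕ} (hn : ∀ i ∈ I, i.2.1.length ≤ n₀)
    (hT : (flen I : ℚ) + I.length + 2 ≤ T₀) (hN : 1 ≤ N) (hN2 : (n₀ : ℚ) * maxNorm T ≤ N)
    (hβ : (flen I : ℚ) * (d * maxNorm T) + d * supN y ≤ β)
    {W : Submodule ℚ (Fin d → ℚ)} (hW : ∀ i ∈ I, qv i.2.1.sum ∈ W) {g : ℕ}
    (hg : Module.finrank ℚ W ≤ g) (hK1 : 1 ≤ K) (hK : (d : ℚ) ^ 2 * N * (T₀ + 2) ≤ K) :
    ∃ I' : List (Itm d), I'.map isk = I.map isk ∧ (∃ y'' : Fin d → ℕ,
      Run T s x (unroll I') t y'' ∧ ∀ k, y k ≤ y'' k) ∧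
      ((unroll I').length : ℚ) ≤ flen I + n₀ * bnd T₀ d N K β g := by
  obtain ⟨h1, h2, h3⟩ := run_iff.1 hrun
  have hlet : ∀ i ∈ I, (∀ v ∈ i.1, ∀ k, |v k| ≤ maxNorm T) ∧
      ∀ v ∈ i.2.1, ∀ k, |v k| ≤ maxNorm T := by
    intro i hi
    obtain ⟨⟨p, q, h4⟩, r, h5⟩ := scheme_loops I hI i hi
    refine ⟨fun v hv k => ?_, fun v hv k => ?_⟩
    · obtain ⟨a, b, hab⟩ := h4.letters v hv
      exact abs_le_maxNorm hab k
    · obtain ⟨a, b, hab⟩ := h5.letters v hv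
      exact abs_le_maxNorm hab k
  have hcov : zv y ≤ zv x + (unroll I).sum := by
    rw [← h3]
    intro k
    have := hy k
    simp only [zv]
    exact_mod_cast this
  have hn1 : n1 (zv y) ≤ d * supN y := by
    refine n1_le fun k => ?_
    have h4 : y k ≤ supN y := Finset.le_sup (f := y) (mem_univ k)
    simp only [zv, Nat.abs_cast]
    exact_mod_cast h4
  obtain ⟨I', e1, e2, e3, e4⟩ := scheme_core (zv_nonneg x) h2 hcov (N := N) (K := K) (β := β)
    (T := T₀) (n₀ := n₀) hN (fun i hi k => by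
      have h4 := sum_le (hlet i hi).2 k
      have h5 : (|i.2.1.sum k| : ℤ) ≤ n₀ * maxNorm T := by
        refine h4.trans ?_
        have := hn i hi
        exact_mod_cast Nat.mul_le_mul_right _ this
      have h6 : ((|i.2.1.sum k| : ℤ) : ℚ) ≤ n₀ * maxNorm T := by exact_mod_cast h5
      rw [Int.cast_abs] at h6
      exact h6.trans hN2) hn hT (by
      have h4 := isz_le hlet
      have h5 : (isz I : ℚ) ≤ flen I * (d * maxNorm T) := by exact_mod_cast h4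
      have h6 : (n1 (zv y) : ℚ) ≤ d * supN y := by exact_mod_cast hn1
      linarith) hW hg hK1 hK
  refine ⟨I', e1, ?_, e4⟩
  have hwalk : Walk T s (unroll I') t := by
    refine scheme_walk I' ?_
    rw [e1]
    exact hI
  have hend : 0 ≤ zv x + (unroll I').sum := Ok_end (zv_nonneg x) e2
  have ez : zv (fun k => ((zv x + (unroll I').sum) k).toNat) = zv x + (unroll I').sum := by
    funext k
    simp only [zv]
    exact Int.toNat_of_nonneg (hend k)
  refine ⟨fun k => ((zv x + (unroll I').sum) k).toNat, run_iff.2 ⟨hwalk, e2, ez⟩, fun k => ?_⟩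
  have h7 := e3 k
  rw [← ez] at h7
  simp only [zv] at h7
  exact_mod_cast h7

theorem num {L₀ n₀ T₀ dd N K β A₁ A₃ X P Y : ℚ} {g : ℕ} (hn₀ : 0 ≤ n₀) (hT : 0 ≤ T₀)
    (hd : 0 ≤ dd) (hN : 0 ≤ N) (hK : 0 ≤ K) (hβ : 0 ≤ β) (h1 : T₀ + dd + 1 ≤ A₁)
    (h2 : K * (1 + T₀ * (1 + dd * N)) ≤ X) (h3 : β + T₀ * N + 1 ≤ A₃) (hX : 1 ≤ X)
    (hL : L₀ ≤ 3 * A₁ * A₃) (hXP : X ≤ P) (hP : (n₀ + 1) * (3 * A₁ * A₃) ≤ Y * P) :
    L₀ + n₀ * bnd T₀ dd N K β g ≤ Y * P ^ (g + 1) := by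
  have hA1 : 0 ≤ A₁ := by linarith
  have hTN : 0 ≤ T₀ * N := mul_nonneg hT hN
  have hA3 : 0 ≤ A₃ := by linarith
  have hK2 : 0 ≤ K * (1 + T₀ * (1 + dd * N)) := by positivity
  have hXg : 1 ≤ X ^ g := one_le_pow₀ hX
  have hb : bnd T₀ dd N K β g ≤ 3 * A₁ * A₃ * X ^ g := by
    unfold bnd
    calc 3 * (T₀ + dd + 1) * (K * (1 + T₀ * (1 + dd * N))) ^ g * (β + T₀ * N + 1)
        ≤ 3 * A₁ * X ^ g * A₃ := by gcongr
      _ = _ := by ring
  have h4 : L₀ ≤ 3 * A₁ * A₃ * X ^ g := by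
    have h5 : 0 ≤ 3 * A₁ * A₃ := by positivity
    nlinarith
  have h6 := mul_le_mul_of_nonneg_left hb hn₀
  have h7 : 0 ≤ X ^ g := by positivity
  have h8 := mul_le_mul_of_nonneg_right hP h7
  have hYP : 0 ≤ Y * P := le_trans (by positivity) hP
  have h9 : X ^ g ≤ P ^ g := pow_le_pow_left₀ (by linarith) hXP g
  have h10 := mul_le_mul_of_nonneg_left h9 hYP
  rw [pow_succ]
  linarith

/-! ### Flat systems -/

private theorem flatA {a b : ℚ} (ha : 2 ≤ a) (hb : 1 ≤ b) :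
    2 * a ^ 2 + (b - 1) + 1 ≤ 3 * a ^ 2 * b := by
  have h1 : 1 ≤ a ^ 2 := by nlinarith
  have h2 : 0 ≤ (a ^ 2) * (b - 1) := mul_nonneg (by positivity) (by linarith)
  have h3 : 0 ≤ (a ^ 2 - 1) * b := mul_nonneg (by linarith) (by linarith)
  nlinarith

private theorem flatX0 {a b m : ℚ} (ha : 2 ≤ a) (hb : 1 ≤ b) (hm : 1 ≤ m) :
    1 + 2 * a ^ 2 * (1 + (b - 1) * (a * m)) ≤ 3 * a ^ 3 * b * m := by
  have h1 : 1 ≤ a * m := by nlinarith
  have h2 : 1 + (b - 1) * (a * m) ≤ b * (a * m) := by nlinarith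
  have h3 : 0 ≤ 2 * a ^ 2 := by positivity
  have h4 := mul_le_mul_of_nonneg_left h2 h3
  have h5 : 1 ≤ a ^ 3 * b * m := by
    have h6 : 1 ≤ a ^ 3 := one_le_pow₀ (by linarith)
    have h7 : 1 ≤ b * m := by nlinarith
    have h8 := mul_le_mul h6 h7 (by norm_num) (by positivity)
    linarith
  nlinarith

private theorem flatA3 {a b m Y : ℚ} (ha : 2 ≤ a) (hb : 1 ≤ b) (hm : 1 ≤ m) (hY : 1 ≤ Y) :
    2 * a ^ 2 * b * m * Y + 2 * a ^ 2 * (a * m) + 1 ≤ 4 * a ^ 3 * b * m * Y := by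
  have h0 : 1 ≤ b * m := by nlinarith
  have h1 : 1 ≤ b * m * Y := by nlinarith
  have h2 : m ≤ b * m * Y := by
    have : 1 ≤ b * Y := by nlinarith
    nlinarith
  have h3 : 2 * a ^ 2 ≤ a ^ 3 := by nlinarith [sq_nonneg a]
  have h4 : 1 ≤ a ^ 3 := one_le_pow₀ (by linarith)
  have h5 := mul_le_mul_of_nonneg_right h3 (le_trans zero_le_one h1)
  have h6 := mul_le_mul_of_nonneg_left h2 (show (0 : ℚ) ≤ 2 * a ^ 3 by positivity)
  have h7 := mul_le_mul h4 h1 (by norm_num) (by positivity)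
  linarith

theorem num_flat {n d M Y g : ℕ} (hn : 1 ≤ n) (hY : 1 ≤ Y) :
    ((n : ℚ) * (1 + 2 * n)) + n * bnd (2 * (n + 1) ^ 2) d ((n + 1) * (M + 1))
      (3 * (d + 1) ^ 2 * (n + 1) ^ 3 * (M + 1)) (2 * (n + 1) ^ 2 * (d + 1) * (M + 1) * Y) g ≤
    Y * (36 * (n + 1) ^ 6 * (d + 1) ^ 3 * (M + 1) ^ 2) ^ (g + 1) := by
  have hn' : (1 : ℚ) ≤ n := by exact_mod_cast hn
  have hY' : (1 : ℚ) ≤ Y := by exact_mod_cast hY
  have hd : (0 : ℚ) ≤ d := Nat.cast_nonneg d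
  have hM : (0 : ℚ) ≤ M := Nat.cast_nonneg M
  obtain ⟨a, ha⟩ : ∃ a : ℚ, a = n + 1 := ⟨_, rfl⟩
  obtain ⟨b, hb⟩ : ∃ b : ℚ, b = d + 1 := ⟨_, rfl⟩
  obtain ⟨m, hm⟩ : ∃ m : ℚ, m = M + 1 := ⟨_, rfl⟩
  have ha2 : 2 ≤ a := by linarith
  have hb1 : 1 ≤ b := by linarith
  have hm1 : 1 ≤ m := by linarith
  have hd' : (d : ℚ) = b - 1 := by linarith
  have hna : (n : ℚ) = a - 1 := by linarith
  rw [← ha, ← hb, ← hm, hd', hna]
  have ha0 : 0 < a := by linarith
  have hb0 : 0 < b := by linarith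
  have hm0 : 0 < m := by linarith
  have hY0 : (0 : ℚ) < Y := by linarith
  have hX0 := flatX0 ha2 hb1 hm1
  have hone : 1 ≤ a ^ 6 * b ^ 3 * m ^ 2 := by
    have h1 : 1 ≤ a ^ 6 := one_le_pow₀ (by linarith)
    have h2 : 1 ≤ b ^ 3 := one_le_pow₀ hb1
    have h3 : 1 ≤ m ^ 2 := one_le_pow₀ hm1
    have h4 := mul_le_mul h1 h2 (by norm_num) (by positivity)
    have h5 := mul_le_mul h4 h3 (by norm_num) (by positivity)
    linarith
  refine num (A₁ := 3 * a ^ 2 * b) (A₃ := 4 * a ^ 3 * b * m * Y)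
    (X := 9 * a ^ 6 * b ^ 3 * m ^ 2) (by linarith) (by positivity) (by linarith) (by positivity)
    (by positivity) (by positivity) (flatA ha2 hb1) ?_ (flatA3 ha2 hb1 hm1 hY') ?_ ?_ ?_ ?_
  · have h := mul_le_mul_of_nonneg_left hX0 (show (0 : ℚ) ≤ 3 * b ^ 2 * a ^ 3 * m by positivity)
    refine h.trans (le_of_eq (by ring))
  · linarith
  · have h1 : (a - 1) * (1 + 2 * (a - 1)) ≤ 2 * a ^ 2 := by nlinarith
    have h2 : 1 ≤ b ^ 2 * m * Y := by
      have h3 : 1 ≤ b ^ 2 := one_le_pow₀ hb1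
      have h4 : 1 ≤ m * Y := by nlinarith
      have h5 := mul_le_mul h3 h4 (by norm_num) (by positivity)
      linarith
    have h6 : 2 * a ^ 2 ≤ 36 * a ^ 5 := by
      have h7 : 1 ≤ a ^ 3 := one_le_pow₀ (by linarith)
      have h8 := mul_le_mul_of_nonneg_left h7 (show (0 : ℚ) ≤ a ^ 2 by positivity)
      have h9 : a ^ 2 * a ^ 3 = a ^ 5 := by ring
      have h10 : 0 ≤ a ^ 5 := by positivity
      linarith
    have h11 := mul_le_mul_of_nonneg_left h2 (show (0 : ℚ) ≤ 36 * a ^ 5 by positivity)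
    have h12 : 3 * (3 * a ^ 2 * b) * (4 * a ^ 3 * b * m * Y) = 36 * a ^ 5 * (b ^ 2 * m * Y) := by
      ring
    rw [h12]
    linarith
  · linarith
  · have h1 : 1 ≤ b * m := by nlinarith
    have h2 := mul_le_mul_of_nonneg_left h1
      (show (0 : ℚ) ≤ 36 * a ^ 6 * b ^ 2 * m * Y by positivity)
    calc (a - 1 + 1) * (3 * (3 * a ^ 2 * b) * (4 * a ^ 3 * b * m * Y))
        = 36 * a ^ 6 * b ^ 2 * m * Y * 1 := by ring
      _ ≤ _ := h2
      _ = _ := by ring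

theorem flat_main [Fintype Q] (hT : Flat T) {s t : Q} {x y y' : Fin d → ℕ}
    {w : List (Fin d → ℤ)} (hrun : Run T s x w t y') (hy : ∀ k, y k ≤ y' k) :
    ∃ (w' : List (Fin d → ℤ)) (y'' : Fin d → ℕ), Run T s x w' t y'' ∧ (∀ k, y k ≤ y'' k) ∧
      w'.length ≤ max 1 (supN y) *
        (36 * (Fintype.card Q + 1) ^ 6 * (d + 1) ^ 3 * (maxNorm T + 1) ^ 2) ^ (geomDim T + 1) := by
  classical
  obtain ⟨I, e1, e2, e3, e4⟩ := flat_decomp hT (Fintype.card Q) (S := Finset.univ) le_rfl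
    (run_iff.1 hrun).1.walkIn (s := s) (ρ := []) (.nil s) (Nat.zero_le _)
  rw [List.nil_append] at e1
  rw [← e1] at hrun
  set n := Fintype.card Q with hn
  have hn1 : 1 ≤ n := Fintype.card_pos_iff.2 ⟨s⟩
  have hfl : flen I ≤ n * (1 + 2 * n) := by
    have h1 : ∀ J : List (Itm d), (∀ i ∈ J, i.1.length ≤ 1 ∧ i.2.1.length ≤ n) →
        flen J ≤ J.length * (1 + 2 * n) := by
      intro J hJ
      induction J with
      | nil => simp [flen]
      | cons i J ih =>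
        obtain ⟨h2, h2'⟩ := hJ i List.mem_cons_self
        have h3 := ih fun j hj => hJ j (List.mem_cons_of_mem _ hj)
        have e : flen (i :: J) = i.1.length + 2 * i.2.1.length + flen J := by simp [flen]
        have e' : (J.length + 1) * (1 + 2 * n) = J.length * (1 + 2 * n) + (1 + 2 * n) := by ring
        rw [e, List.length_cons, e']
        linarith
    exact (h1 I e4).trans (Nat.mul_le_mul_right _ e3)
  obtain ⟨Y, hY⟩ : ∃ Y, Y = max 1 (supN y) := ⟨_, rfl⟩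
  have hY1 : 1 ≤ Y := hY ▸ le_max_left _ _
  have hY2 : supN y ≤ Y := hY ▸ le_max_right _ _
  have qn : (1 : ℚ) ≤ n := by exact_mod_cast hn1
  have qY1 : (1 : ℚ) ≤ Y := by exact_mod_cast hY1
  have qY2 : (supN y : ℚ) ≤ Y := by exact_mod_cast hY2
  have qd : (0 : ℚ) ≤ d := Nat.cast_nonneg d
  have qM : (0 : ℚ) ≤ maxNorm T := Nat.cast_nonneg _
  have qfl : (flen I : ℚ) ≤ n * (1 + 2 * n) := by exact_mod_cast hfl
  have qI : (I.length : ℚ) ≤ n := by exact_mod_cast e3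
  obtain ⟨I', -, ⟨y'', h1, h2⟩, h3⟩ := core e2 hrun hy (T₀ := 2 * ((n : ℚ) + 1) ^ 2)
    (N := ((n : ℚ) + 1) * (maxNorm T + 1))
    (K := 3 * ((d : ℚ) + 1) ^ 2 * (n + 1) ^ 3 * (maxNorm T + 1))
    (β := 2 * ((n : ℚ) + 1) ^ 2 * (d + 1) * (maxNorm T + 1) * Y) (n₀ := n)
    (fun i hi => (e4 i hi).2) (by nlinarith) (by nlinarith) (by nlinarith) (by
      have a1 : (flen I : ℚ) * (d * maxNorm T) ≤ n * (1 + 2 * n) * (d * maxNorm T) :=
        mul_le_mul_of_nonneg_right qfl (by positivity)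
      have a2 : (d : ℚ) * supN y ≤ d * Y := mul_le_mul_of_nonneg_left qY2 qd
      have a3 : (n : ℚ) * (1 + 2 * n) * (d * maxNorm T) ≤
          n * (1 + 2 * n) * (d * maxNorm T) * Y :=
        le_mul_of_one_le_right (by positivity) qY1
      have a4 : (n : ℚ) * (1 + 2 * n) * (d * maxNorm T) + d ≤
          2 * ((n : ℚ) + 1) ^ 2 * (d + 1) * (maxNorm T + 1) := by
        have b1 : (n : ℚ) * (1 + 2 * n) ≤ 2 * ((n : ℚ) + 1) ^ 2 := by nlinarith
        have b2 : (d : ℚ) * maxNorm T ≤ (d + 1) * maxNorm T := by nlinarith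
        have b3 : (n : ℚ) * (1 + 2 * n) * (d * maxNorm T) ≤
            2 * ((n : ℚ) + 1) ^ 2 * ((d + 1) * maxNorm T) :=
          mul_le_mul b1 b2 (by positivity) (by positivity)
        have b4 : (1 : ℚ) ≤ 2 * ((n : ℚ) + 1) ^ 2 := by nlinarith
        have b5 : (d : ℚ) + 1 ≤ 2 * ((n : ℚ) + 1) ^ 2 * (d + 1) :=
          le_mul_of_one_le_left (by positivity) b4
        linarith
      have a5 := mul_le_mul_of_nonneg_right a4 (le_trans zero_le_one qY1)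
      linarith)
    (W := Submodule.span ℚ {c : Fin d → ℚ | ∃ q w, Walk T q w q ∧ c = qv w.sum})
    (fun i hi => by
      obtain ⟨-, p, hp⟩ := scheme_loops I e2 i hi
      exact Submodule.subset_span ⟨p, _, hp, rfl⟩) (g := geomDim T) le_rfl (by
      have b1 : (1 : ℚ) ≤ ((d : ℚ) + 1) ^ 2 := one_le_pow₀ (by linarith)
      have b2 : (1 : ℚ) ≤ ((n : ℚ) + 1) ^ 3 := one_le_pow₀ (by linarith)
      have b3 := mul_le_mul b1 b2 (by norm_num) (by positivity)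
      have b4 := mul_le_mul b3 (show (1 : ℚ) ≤ maxNorm T + 1 by linarith) (by norm_num)
        (by positivity)
      linarith) (by
      have b1 : (d : ℚ) ^ 2 ≤ ((d : ℚ) + 1) ^ 2 := pow_le_pow_left₀ qd (by linarith) 2
      have b2 : 2 * ((n : ℚ) + 1) ^ 2 + 2 ≤ 3 * ((n : ℚ) + 1) ^ 2 := by nlinarith
      have b3 : (d : ℚ) ^ 2 * (((n : ℚ) + 1) * (maxNorm T + 1)) ≤
          ((d : ℚ) + 1) ^ 2 * (((n : ℚ) + 1) * (maxNorm T + 1)) :=
        mul_le_mul_of_nonneg_right b1 (by positivity)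
      have b4 := mul_le_mul b3 b2 (by positivity) (by positivity)
      refine b4.trans (le_of_eq (by ring)))
  refine ⟨unroll I', y'', h1, h2, ?_⟩
  rw [← hY]
  have h4 := num_flat (d := d) (M := maxNorm T) (g := geomDim T) hn1 hY1
  have h5 : ((unroll I').length : ℚ) ≤ Y *
      (36 * (n + 1) ^ 6 * (d + 1) ^ 3 * (maxNorm T + 1) ^ 2) ^ (geomDim T + 1) := by
    linarith
  exact_mod_cast h5

/-! ### Path schemes -/

private theorem schX0 {a b m : ℚ} (ha : 1 ≤ a) (hb : 1 ≤ b) (hm : 1 ≤ m) :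
    1 + 2 * a * (1 + (b - 1) * (a * m)) ≤ 3 * a ^ 2 * b * m := by
  have h1 : 1 ≤ a * m := by nlinarith
  have h2 : 1 + (b - 1) * (a * m) ≤ b * (a * m) := by nlinarith
  have h3 : 0 ≤ 2 * a := by positivity
  have h4 := mul_le_mul_of_nonneg_left h2 h3
  have h5 : 1 ≤ a ^ 2 * b * m := by
    have h6 : 1 ≤ a ^ 2 := one_le_pow₀ ha
    have h7 : 1 ≤ b * m := by nlinarith
    have h8 := mul_le_mul h6 h7 (by norm_num) (by positivity)
    linarith
  nlinarith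

private theorem schA3 {a b m Y : ℚ} (ha : 1 ≤ a) (hb : 1 ≤ b) (hm : 1 ≤ m) (hY : 1 ≤ Y) :
    2 * a * b * m * Y + 2 * a * (a * m) + 1 ≤ 5 * a ^ 2 * b * m * Y := by
  have h0 : 1 ≤ b * m := by nlinarith
  have h1 : 1 ≤ b * m * Y := by nlinarith
  have h2 : m ≤ b * m * Y := by
    have : 1 ≤ b * Y := by nlinarith
    nlinarith
  have h3 : a ≤ a ^ 2 := by nlinarith
  have h4 : 1 ≤ a ^ 2 := one_le_pow₀ ha
  have h5 := mul_le_mul_of_nonneg_right h3 (le_trans zero_le_one h1)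
  have h6 := mul_le_mul_of_nonneg_left h2 (show (0 : ℚ) ≤ 2 * a ^ 2 by positivity)
  have h7 := mul_le_mul h4 h1 (by norm_num) (by positivity)
  linarith

theorem num_scheme {s d M Y g : ℕ} (hY : 1 ≤ Y) :
    (2 * (s : ℚ)) + s * bnd (2 * (s + 1)) d ((s + 1) * (M + 1))
      (4 * (d + 1) ^ 2 * (s + 1) ^ 2 * (M + 1)) (2 * (s + 1) * (d + 1) * (M + 1) * Y) g ≤
    Y * (45 * (s + 1) ^ 4 * (d + 1) ^ 3 * (M + 1) ^ 2) ^ (g + 1) := by
  have hs : (0 : ℚ) ≤ s := Nat.cast_nonneg s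
  have hY' : (1 : ℚ) ≤ Y := by exact_mod_cast hY
  have hd : (0 : ℚ) ≤ d := Nat.cast_nonneg d
  have hM : (0 : ℚ) ≤ M := Nat.cast_nonneg M
  obtain ⟨a, ha⟩ : ∃ a : ℚ, a = s + 1 := ⟨_, rfl⟩
  obtain ⟨b, hb⟩ : ∃ b : ℚ, b = d + 1 := ⟨_, rfl⟩
  obtain ⟨m, hm⟩ : ∃ m : ℚ, m = M + 1 := ⟨_, rfl⟩
  have ha1 : 1 ≤ a := by linarith
  have hb1 : 1 ≤ b := by linarith
  have hm1 : 1 ≤ m := by linarith
  have hd' : (d : ℚ) = b - 1 := by linarith
  have hsa : (s : ℚ) = a - 1 := by linarith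
  rw [← ha, ← hb, ← hm, hd', hsa]
  have ha0 : 0 < a := by linarith
  have hb0 : 0 < b := by linarith
  have hm0 : 0 < m := by linarith
  have hY0 : (0 : ℚ) < Y := by linarith
  have hX0 := schX0 ha1 hb1 hm1
  have hone : 1 ≤ a ^ 4 * b ^ 3 * m ^ 2 := by
    have h1 : 1 ≤ a ^ 4 := one_le_pow₀ ha1
    have h2 : 1 ≤ b ^ 3 := one_le_pow₀ hb1
    have h3 : 1 ≤ m ^ 2 := one_le_pow₀ hm1
    have h4 := mul_le_mul h1 h2 (by norm_num) (by positivity)
    have h5 := mul_le_mul h4 h3 (by norm_num) (by positivity)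
    linarith
  refine num (A₁ := 3 * a * b) (A₃ := 5 * a ^ 2 * b * m * Y)
    (X := 12 * a ^ 4 * b ^ 3 * m ^ 2) (by linarith) (by positivity) (by linarith) (by positivity)
    (by positivity) (by positivity) ?_ ?_ (schA3 ha1 hb1 hm1 hY') ?_ ?_ ?_ ?_
  · have h2 : 0 ≤ a * (b - 1) := mul_nonneg (by positivity) (by linarith)
    have h3 : 0 ≤ (a - 1) * b := mul_nonneg (by linarith) (by linarith)
    nlinarith
  · have h := mul_le_mul_of_nonneg_left hX0 (show (0 : ℚ) ≤ 4 * b ^ 2 * a ^ 2 * m by positivity)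
    refine h.trans (le_of_eq (by ring))
  · linarith
  · have h2 : 1 ≤ b ^ 2 * m * Y := by
      have h3 : 1 ≤ b ^ 2 := one_le_pow₀ hb1
      have h4 : 1 ≤ m * Y := by nlinarith
      have h5 := mul_le_mul h3 h4 (by norm_num) (by positivity)
      linarith
    have h6 : a ≤ a ^ 3 := by
      have h7 : 1 ≤ a ^ 2 := one_le_pow₀ ha1
      nlinarith
    have h11 := mul_le_mul_of_nonneg_left h2 (show (0 : ℚ) ≤ 45 * a ^ 3 by positivity)
    have h12 : 3 * (3 * a * b) * (5 * a ^ 2 * b * m * Y) = 45 * a ^ 3 * (b ^ 2 * m * Y) := by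
      ring
    rw [h12]
    linarith
  · linarith
  · have h1 : 1 ≤ b * m := by nlinarith
    have h2 := mul_le_mul_of_nonneg_left h1
      (show (0 : ℚ) ≤ 45 * a ^ 4 * b ^ 2 * m * Y by positivity)
    calc (a - 1 + 1) * (3 * (3 * a * b) * (5 * a ^ 2 * b * m * Y))
        = 45 * a ^ 4 * b ^ 2 * m * Y * 1 := by ring
      _ ≤ _ := h2
      _ = _ := by ring

theorem scheme_main {s t : Q} {L : List (List (Fin d → ℤ) × List (Fin d → ℤ))}
    (hL : IsScheme T s L t) {x y y' : Fin d → ℕ} {a : ℕ → ℕ}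
    (hrun : Run T s x (schemeWord L a) t y') (hy : ∀ k, y k ≤ y' k) :
    ∃ (a' : ℕ → ℕ) (y'' : Fin d → ℕ), Run T s x (schemeWord L a') t y'' ∧ (∀ k, y k ≤ y'' k) ∧
      (schemeWord L a').length ≤ max 1 (supN y) *
        (45 * (schemeSize L + 1) ^ 4 * (d + 1) ^ 3 * (maxNorm T + 1) ^ 2) ^ (schemeDim L + 1) := by
  have e0 : (items L a).map isk = L := items_isk L a
  rw [← items_unroll] at hrun
  obtain ⟨I, hI⟩ : ∃ I, I = items L a := ⟨_, rfl⟩
  rw [← hI] at hrun e0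
  obtain ⟨n, hn⟩ : ∃ n, n = schemeSize L := ⟨_, rfl⟩
  have hsz : ∀ J : List (Itm d), flen J + 2 * J.length ≤ 2 * schemeSize (J.map isk) ∧
      ∀ i ∈ J, i.2.1.length ≤ schemeSize (J.map isk) := by
    intro J
    induction J with
    | nil => simp [flen, schemeSize]
    | cons i J ih =>
      have e1 : flen (i :: J) = i.1.length + 2 * i.2.1.length + flen J := by simp [flen]
      have e2 : schemeSize ((i :: J).map isk) =
          i.1.length + i.2.1.length + 1 + schemeSize (J.map isk) := by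
        simp [schemeSize, isk]
      rw [e1, e2, List.length_cons]
      refine ⟨by omega, fun j hj => ?_⟩
      rw [List.mem_cons] at hj
      rcases hj with rfl | hj
      · omega
      · have := ih.2 j hj
        omega
  obtain ⟨hs1, hs2⟩ := hsz I
  rw [e0, ← hn] at hs1 hs2
  rw [← e0] at hL
  obtain ⟨Y, hY⟩ : ∃ Y, Y = max 1 (supN y) := ⟨_, rfl⟩
  have hY1 : 1 ≤ Y := hY ▸ le_max_left _ _
  have hY2 : supN y ≤ Y := hY ▸ le_max_right _ _
  have qn : (0 : ℚ) ≤ n := Nat.cast_nonneg n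
  have qY1 : (1 : ℚ) ≤ Y := by exact_mod_cast hY1
  have qY2 : (supN y : ℚ) ≤ Y := by exact_mod_cast hY2
  have qd : (0 : ℚ) ≤ d := Nat.cast_nonneg d
  have qM : (0 : ℚ) ≤ maxNorm T := Nat.cast_nonneg _
  have qI0 : (0 : ℚ) ≤ I.length := Nat.cast_nonneg _
  have qfl : (flen I : ℚ) + 2 * I.length ≤ 2 * n := by exact_mod_cast hs1
  have qfl0 : (0 : ℚ) ≤ flen I := Nat.cast_nonneg _
  obtain ⟨I', h0, ⟨y'', h1, h2⟩, h3⟩ := core hL hrun hy (T₀ := 2 * ((n : ℚ) + 1))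
    (N := ((n : ℚ) + 1) * (maxNorm T + 1))
    (K := 4 * ((d : ℚ) + 1) ^ 2 * (n + 1) ^ 2 * (maxNorm T + 1))
    (β := 2 * ((n : ℚ) + 1) * (d + 1) * (maxNorm T + 1) * Y) (n₀ := n) hs2
    (by linarith) (by nlinarith) (by nlinarith) (by
      have a0 : (flen I : ℚ) ≤ 2 * n := by linarith
      have a1 : (flen I : ℚ) * (d * maxNorm T) ≤ 2 * n * (d * maxNorm T) :=
        mul_le_mul_of_nonneg_right a0 (by positivity)
      have a2 : (d : ℚ) * supN y ≤ d * Y := mul_le_mul_of_nonneg_left qY2 qd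
      have a3 : 2 * (n : ℚ) * (d * maxNorm T) ≤ 2 * n * (d * maxNorm T) * Y :=
        le_mul_of_one_le_right (by positivity) qY1
      have a4 : 2 * (n : ℚ) * (d * maxNorm T) + d ≤
          2 * ((n : ℚ) + 1) * (d + 1) * (maxNorm T + 1) := by
        have b1 : 2 * (n : ℚ) ≤ 2 * ((n : ℚ) + 1) := by linarith
        have b2 : (d : ℚ) * maxNorm T ≤ (d + 1) * maxNorm T := by nlinarith
        have b3 : 2 * (n : ℚ) * (d * maxNorm T) ≤
            2 * ((n : ℚ) + 1) * ((d + 1) * maxNorm T) :=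
          mul_le_mul b1 b2 (by positivity) (by positivity)
        have b4 : (1 : ℚ) ≤ 2 * ((n : ℚ) + 1) := by linarith
        have b5 : (d : ℚ) + 1 ≤ 2 * ((n : ℚ) + 1) * (d + 1) :=
          le_mul_of_one_le_left (by positivity) b4
        linarith
      have a5 := mul_le_mul_of_nonneg_right a4 (le_trans zero_le_one qY1)
      linarith)
    (W := Submodule.span ℚ {c : Fin d → ℚ | ∃ i ∈ L, c = qv i.2.sum})
    (fun i hi => by
      refine Submodule.subset_span ⟨isk i, ?_, rfl⟩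
      rw [← e0]
      exact List.mem_map_of_mem hi) (g := schemeDim L) le_rfl (by
      have b1 : (1 : ℚ) ≤ ((d : ℚ) + 1) ^ 2 := one_le_pow₀ (by linarith)
      have b2 : (1 : ℚ) ≤ ((n : ℚ) + 1) ^ 2 := one_le_pow₀ (by linarith)
      have b3 := mul_le_mul b1 b2 (by norm_num) (by positivity)
      have b4 := mul_le_mul b3 (show (1 : ℚ) ≤ maxNorm T + 1 by linarith) (by norm_num)
        (by positivity)
      linarith) (by
      have b1 : (d : ℚ) ^ 2 ≤ ((d : ℚ) + 1) ^ 2 := pow_le_pow_left₀ qd (by linarith) 2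
      have b2 : 2 * ((n : ℚ) + 1) + 2 ≤ 4 * ((n : ℚ) + 1) := by linarith
      have b3 : (d : ℚ) ^ 2 * (((n : ℚ) + 1) * (maxNorm T + 1)) ≤
          ((d : ℚ) + 1) ^ 2 * (((n : ℚ) + 1) * (maxNorm T + 1)) :=
        mul_le_mul_of_nonneg_right b1 (by positivity)
      have b4 := mul_le_mul b3 b2 (by positivity) (by positivity)
      refine b4.trans (le_of_eq (by ring)))
  obtain ⟨a', ha'⟩ := exists_items I'
  rw [h0, e0] at ha'
  have hw : unroll I' = schemeWord L a' := by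
    rw [ha', items_unroll]
  refine ⟨a', y'', hw ▸ h1, h2, ?_⟩
  rw [← hY, ← hn, ← hw]
  have h4 := num_scheme (s := n) (d := d) (M := maxNorm T) (g := schemeDim L) hY1
  have h5 : ((unroll I').length : ℚ) ≤ Y *
      (45 * (n + 1) ^ 4 * (d + 1) ^ 3 * (maxNorm T + 1) ^ 2) ^ (schemeDim L + 1) := by
    linarith
  exact_mod_cast h5

end Pool.Agent.EEF
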