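import Mathlib

/-!
# EEF / Farkas

Farkas' lemma over `ℚ` for finite systems with non-negative variables, by Fourier-Motzkin elimination.
-/

set_option autoImplicit false

namespace Pool.Agent.EEF

open Finset

/-- weights of the elimination of a variable -/
private def wt (a b : ℚ) : ℚ × ℚ :=
  if 0 < a ∧ b < 0 then (-b, a) else if a ≤ 0 then (1, 0) else (0, 0)

private theorem wt_nonneg (a b : ℚ) : 0 ≤ (wt a b).1 ∧ 0 ≤ (wt a b).2 := by
  unfold wt
  split_ifs with h1 h2
  · exact ⟨by simpa using h1.2.le, h1.1.le⟩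
  · exact ⟨zero_le_one, le_rfl⟩
  · exact ⟨le_rfl, le_rfl⟩

private theorem wt_col (a b : ℚ) : (wt a b).1 * a + (wt a b).2 * b ≤ 0 := by
  unfold wt
  split_ifs with h1 h2
  · show -b * a + a * b ≤ 0
    linarith [mul_comm a b]
  · show 1 * a + 0 * b ≤ 0
    linarith
  · show 0 * a + 0 * b ≤ 0
    linarith

/-- a number between finitely many lower and upper bounds -/
private theorem exists_mid {ι : Type} (s : Finset ι) (a y : ι → ℚ)
    (h0 : ∀ i ∈ s, a i ≤ 0 → 0 ≤ y i)
    (h1 : ∀ p ∈ s, ∀ q ∈ s, 0 < a p → a q < 0 → 0 ≤ -a q * y p + a p * y q) :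
    ∃ x : ℚ, 0 ≤ x ∧ ∀ i ∈ s, 0 ≤ a i * x + y i := by
  classical
  by_cases hne : (s.filter fun i => 0 < a i).Nonempty
  · obtain ⟨p, hp, hmax⟩ := (s.filter fun i => 0 < a i).exists_max_image
      (fun i => -y i / a i) hne
    rw [mem_filter] at hp
    refine ⟨max 0 (-y p / a p), le_max_left _ _, fun i hi => ?_⟩
    rcases lt_trichotomy (a i) 0 with h | h | h
    · have e1 : 0 ≤ y i := h0 i hi h.le
      have e2 := h1 p hp.1 i hi hp.2 h
      rcases max_choice (0 : ℚ) (-y p / a p) with hm | hm <;> rw [hm]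
      · rw [mul_zero, zero_add]
        exact e1
      · have e3 : a i * (-y p / a p) + y i = (-a i * y p + a p * y i) / a p := by
          field_simp [hp.2.ne']
        rw [e3]
        exact div_nonneg e2 hp.2.le
    · rw [h, zero_mul, zero_add]
      exact h0 i hi h.le
    · have e1 : -y i / a i ≤ max 0 (-y p / a p) :=
        (hmax i (mem_filter.2 ⟨hi, h⟩)).trans (le_max_right _ _)
      rw [div_le_iff₀ h] at e1
      linarith [mul_comm (a i) (max 0 (-y p / a p))]
  · refine ⟨0, le_rfl, fun i hi => ?_⟩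
    rw [mul_zero, zero_add]
    refine h0 i hi ?_
    by_contra hc
    exact hne ⟨i, mem_filter.2 ⟨hi, not_le.1 hc⟩⟩

/-- **Farkas' lemma.** -/
theorem farkas (J : Finset ℕ) : ∀ {ι : Type} (s : Finset ι) (A : ι → ℕ → ℚ) (r : ι → ℚ),
    (∃ l : ℕ → ℚ, (∀ j, 0 ≤ l j) ∧ ∀ i ∈ s, r i ≤ ∑ j ∈ J, A i j * l j) ∨
    (∃ m : ι → ℚ, (∀ i, 0 ≤ m i) ∧ (∀ j ∈ J, ∑ i ∈ s, m i * A i j ≤ 0) ∧
      0 < ∑ i ∈ s, m i * r i) := by
  classical
  induction J using Finset.induction_on with
  | empty =>
    intro ι s A r
    by_cases h : ∀ i ∈ s, r i ≤ 0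
    · left
      exact ⟨fun _ => 0, fun _ => le_rfl, fun i hi => by simpa using h i hi⟩
    · right
      push Not at h
      obtain ⟨i, hi, hr⟩ := h
      refine ⟨fun j => if j = i then 1 else 0, fun j => ?_, fun j hj => by simp at hj, ?_⟩
      · show (0 : ℚ) ≤ if j = i then 1 else 0
        split_ifs <;> norm_num
      simp only [ite_mul, one_mul, zero_mul]
      rw [Finset.sum_ite_eq' s i, if_pos hi]
      exact hr
  | insert a J haJ ih =>
    intro ι s A r
    rcases ih (s ×ˢ s)
      (fun pq j => (wt (A pq.1 a) (A pq.2 a)).1 * A pq.1 j + (wt (A pq.1 a) (A pq.2 a)).2 * A pq.2 j)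
      (fun pq => (wt (A pq.1 a) (A pq.2 a)).1 * r pq.1 + (wt (A pq.1 a) (A pq.2 a)).2 * r pq.2)
      with ⟨l, hl, hl2⟩ | ⟨m, hm, hm2, hm3⟩
    · left
      have key : ∀ p ∈ s, ∀ q ∈ s,
          0 ≤ (wt (A p a) (A q a)).1 * ((∑ j ∈ J, A p j * l j) - r p) +
            (wt (A p a) (A q a)).2 * ((∑ j ∈ J, A q j * l j) - r q) := by
        intro p hp q hq
        have h := hl2 (p, q) (mem_product.2 ⟨hp, hq⟩)
        simp only at h
        have e : ∑ j ∈ J, ((wt (A p a) (A q a)).1 * A p j + (wt (A p a) (A q a)).2 * A q j) * l j =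
            (wt (A p a) (A q a)).1 * (∑ j ∈ J, A p j * l j) +
              (wt (A p a) (A q a)).2 * (∑ j ∈ J, A q j * l j) := by
          rw [mul_sum, mul_sum, ← sum_add_distrib]
          exact sum_congr rfl fun j _ => by ring
        rw [e] at h
        linarith
      obtain ⟨x, hx, hx2⟩ := exists_mid s (fun i => A i a) (fun i => (∑ j ∈ J, A i j * l j) - r i)
        (fun i hi h => by
          have := key i hi i hi
          unfold wt at this
          rw [if_neg (fun h' => absurd h'.1 (not_lt.2 h)), if_pos h] at this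
          simpa using this)
        (fun p hp q hq h h' => by
          have := key p hp q hq
          unfold wt at this
          rw [if_pos ⟨h, h'⟩] at this
          exact this)
      refine ⟨Function.update l a x, fun j => ?_, fun i hi => ?_⟩
      · by_cases hj : j = a
        · rw [hj, Function.update_self]
          exact hx
        · rw [Function.update_of_ne hj]
          exact hl j
      · rw [sum_insert haJ, Function.update_self]
        have e : ∑ j ∈ J, A i j * Function.update l a x j = ∑ j ∈ J, A i j * l j := by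
          refine sum_congr rfl fun j hj => ?_
          rw [Function.update_of_ne (fun h => haJ (by rw [← h]; exact hj))]
        rw [e]
        have := hx2 i hi
        linarith
    · right
      have hsum : ∀ X : ι → ℚ, ∑ i ∈ s, (∑ pq ∈ s ×ˢ s, m pq *
          ((wt (A pq.1 a) (A pq.2 a)).1 * (if pq.1 = i then 1 else 0) +
            (wt (A pq.1 a) (A pq.2 a)).2 * (if pq.2 = i then 1 else 0))) * X i =
          ∑ pq ∈ s ×ˢ s, m pq * ((wt (A pq.1 a) (A pq.2 a)).1 * X pq.1 +
            (wt (A pq.1 a) (A pq.2 a)).2 * X pq.2) := by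
        intro X
        simp only [sum_mul]
        rw [sum_comm]
        refine sum_congr rfl fun pq hpq => ?_
        obtain ⟨h1, h2⟩ := mem_product.1 hpq
        have e1 : ∀ i ∈ s, m pq * ((wt (A pq.1 a) (A pq.2 a)).1 * (if pq.1 = i then 1 else 0) +
            (wt (A pq.1 a) (A pq.2 a)).2 * (if pq.2 = i then 1 else 0)) * X i =
            (if pq.1 = i then m pq * (wt (A pq.1 a) (A pq.2 a)).1 * X i else 0) +
            (if pq.2 = i then m pq * (wt (A pq.1 a) (A pq.2 a)).2 * X i else 0) := by
          intro i _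
          split_ifs <;> ring
        rw [sum_congr rfl e1, sum_add_distrib, Finset.sum_ite_eq, Finset.sum_ite_eq, if_pos h1,
          if_pos h2]
        ring
      refine ⟨fun i => ∑ pq ∈ s ×ˢ s, m pq *
          ((wt (A pq.1 a) (A pq.2 a)).1 * (if pq.1 = i then 1 else 0) +
            (wt (A pq.1 a) (A pq.2 a)).2 * (if pq.2 = i then 1 else 0)), fun i => ?_,
        fun j hj => ?_, ?_⟩
      · refine sum_nonneg fun pq _ => mul_nonneg (hm pq) ?_
        obtain ⟨h1, h2⟩ := wt_nonneg (A pq.1 a) (A pq.2 a)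
        refine add_nonneg (mul_nonneg h1 ?_) (mul_nonneg h2 ?_) <;> split_ifs <;> norm_num
      · rw [hsum fun i => A i j]
        rcases mem_insert.1 hj with rfl | hj
        · refine sum_nonpos fun pq _ => ?_
          exact mul_nonpos_of_nonneg_of_nonpos (hm pq) (wt_col _ _)
        · exact hm2 j hj
      · rw [hsum r]
        exact hm3

end Pool.Agent.EEF
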