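import Mathlib

/-!
# Vector addition systems with states, runs, walks, flat systems and path schemes

Definitions used in the statement of `Pool/Agent/Results/MP_eef7f3_lc/FlatLinear.lean`.
-/

set_option autoImplicit false

namespace Pool.Agent.EEF

/-- A `d`-VASS with state set `Q`: a finite set of transitions `(p, v, q)`, `v ∈ ℤ^d`. -/
abbrev VASS (Q : Type) (d : ℕ) := Finset (Q × (Fin d → ℤ) × Q)

/-- `‖v‖_∞` of an integer vector -/
def supZ {d : ℕ} (v : Fin d → ℤ) : ℕ := Finset.univ.sup fun k => (v k).natAbs

/-- `‖y‖_∞` of a vector of natural numbers -/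
def supN {d : ℕ} (y : Fin d → ℕ) : ℕ := Finset.univ.sup y

/-- `M`: the maximum of `‖v‖_∞` over the transitions (`0` if there are none) -/
def maxNorm {Q : Type} {d : ℕ} (T : VASS Q d) : ℕ := T.sup fun t => supZ t.2.1

/-- `Run T p x w q y`: the sequence of vectors `w` labels a run of the VASS from the configuration
`p(x)` to the configuration `q(y)`; the length of the run is `w.length`. All configurations of the
run have counters in `ℕ`. -/
inductive Run {Q : Type} {d : ℕ} (T : VASS Q d) :
    Q → (Fin d → ℕ) → List (Fin d → ℤ) → Q → (Fin d → ℕ) → Prop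
  | nil (p : Q) (x : Fin d → ℕ) : Run T p x [] p x
  | cons {p p' q : Q} {v : Fin d → ℤ} {x x' y : Fin d → ℕ} {w : List (Fin d → ℤ)} :
      (p, v, p') ∈ T → (∀ k, (x' k : ℤ) = x k + v k) → Run T p' x' w q y → Run T p x (v :: w) q y

/-- `Covers T s x t y w`: the sequence of vectors `w` labels a run from `s(x)` which covers `t(y)`,
i.e. which ends in a configuration `t(y')` with `y' ≥ y`. -/
def Covers {Q : Type} {d : ℕ} (T : VASS Q d) (s : Q) (x : Fin d → ℕ) (t : Q) (y : Fin d → ℕ)
    (w : List (Fin d → ℤ)) : Prop :=
  ∃ y' : Fin d → ℕ, Run T s x w t y' ∧ ∀ k, y k ≤ y' k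

/-- `Walk T p w q`: the sequence of vectors `w` labels a walk from `p` to `q` in the state graph
(the counters are ignored). Its effect is `w.sum`. -/
inductive Walk {Q : Type} {d : ℕ} (T : VASS Q d) : Q → List (Fin d → ℤ) → Q → Prop
  | nil (p : Q) : Walk T p [] p
  | cons {p p' q : Q} {v : Fin d → ℤ} {w : List (Fin d → ℤ)} :
      (p, v, p') ∈ T → Walk T p' w q → Walk T p (v :: w) q

/-- `q` is reachable from `p` in the state graph -/
def Reach {Q : Type} {d : ℕ} (T : VASS Q d) (p q : Q) : Prop := ∃ w, Walk T p w q

/-- an integer vector as a rational vector -/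
def qv {d : ℕ} (v : Fin d → ℤ) : Fin d → ℚ := fun k => (v k : ℚ)

/-- The geometric dimension: the dimension of the subspace of `ℚ^d` spanned by the effects of all
closed walks. (A closed walk stays inside one strongly connected component, so this is the sum over
the components of the spans of the effects of their cycles.) -/
noncomputable def geomDim {Q : Type} {d : ℕ} (T : VASS Q d) : ℕ :=
  Module.finrank ℚ (Submodule.span ℚ {c : Fin d → ℚ | ∃ q w, Walk T q w q ∧ c = qv w.sum})

/-- Flat VASS: every state lies on at most one cycle, i.e. every state `p` has at most one outgoing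
transition `(p, v, q)` whose target `q` can reach `p` again. -/
def Flat {Q : Type} {d : ℕ} (T : VASS Q d) : Prop :=
  ∀ p v q v' q', (p, v, q) ∈ T → (p, v', q') ∈ T → Reach T q p → Reach T q' p → v = v' ∧ q = q'

/-- Thin VASS: in every strongly connected component the effects of the cycles span a space of
dimension at most one. (Formally: for every state `p`, the effects of the closed walks at `p` span a
space of dimension at most one; this is the span of the effects of all cycles in the strongly
connected component of `p`.) -/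
def Thin {Q : Type} {d : ℕ} (T : VASS Q d) : Prop :=
  ∀ p, Module.finrank ℚ (Submodule.span ℚ {c : Fin d → ℚ | ∃ w, Walk T p w p ∧ c = qv w.sum}) ≤ 1

/-- A path scheme from `s` to `t`: a list of pairs of words `(α₁, β₁), (α₂, β₂), …` such that
`α₁` leads from `s` to `p₁`, `β₁` is a closed walk at `p₁`, `α₂` leads from `p₁` to `p₂`, and so on;
the last pair ends in `t`. -/
inductive IsScheme {Q : Type} {d : ℕ} (T : VASS Q d) :
    Q → List (List (Fin d → ℤ) × List (Fin d → ℤ)) → Q → Prop
  | nil (p : Q) : IsScheme T p [] p
  | cons {s p t : Q} {α β : List (Fin d → ℤ)}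
      {L : List (List (Fin d → ℤ) × List (Fin d → ℤ))} :
      Walk T s α p → Walk T p β p → IsScheme T p L t → IsScheme T s ((α, β) :: L) t

/-- The word `α₁ β₁^{a 0} α₂ β₂^{a 1} …` of a path scheme with exponents `a`. -/
def schemeWord {d : ℕ} : List (List (Fin d → ℤ) × List (Fin d → ℤ)) → (ℕ → ℕ) →
    List (Fin d → ℤ)
  | [], _ => []
  | (α, β) :: L, a => α ++ (List.replicate (a 0) β).flatten ++ schemeWord L fun i => a (i + 1)

/-- The size `∑ (|αᵢ| + |βᵢ| + 1)` of a path scheme. -/
def schemeSize {d : ℕ} (L : List (List (Fin d → ℤ) × List (Fin d → ℤ))) : ℕ :=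
  (L.map fun i => i.1.length + i.2.length + 1).sum

/-- The dimension of the span of the effects of the loops `βᵢ` of a path scheme. -/
noncomputable def schemeDim {d : ℕ} (L : List (List (Fin d → ℤ) × List (Fin d → ℤ))) : ℕ :=
  Module.finrank ℚ (Submodule.span ℚ {c : Fin d → ℚ | ∃ i ∈ L, c = qv i.2.sum})

end Pool.Agent.EEF
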