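import Pool.Agent.EEF.Uncon

/-!
# EEF / Zone: thin systems are captured by path schemes of polynomial size
-/

set_option autoImplicit false
set_option linter.unusedSectionVars false

namespace Pool.Agent.EEF

open Finset

variable {Q : Type} {d : ℕ} {T : VASS Q d}

/-- moving coordinates -/
def Mov (T : VASS Q d) (p₀ : Q) (k : Fin d) : Prop := ∃ u, Walk T p₀ u p₀ ∧ u.sum k ≠ 0

/-- thin at `p₀` -/
def ThinAt (T : VASS Q d) (p₀ : Q) : Prop :=
  Module.finrank ℚ (Submodule.span ℚ {c : Fin d → ℚ | ∃ w, Walk T p₀ w p₀ ∧ c = qv w.sum}) ≤ 1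

theorem det1 {p₀ : Q} (hT : ThinAt T p₀) {k : Fin d} (hk : Mov T p₀ k) {u u' : List (Vec d)}
    (hu : Walk T p₀ u p₀) (hu' : Walk T p₀ u' p₀) (h : u.sum k = u'.sum k) :
    u.sum = u'.sum := by
  obtain ⟨c, hc⟩ := finrank_le_one_iff.1 hT
  have key : ∀ w, Walk T p₀ w p₀ → ∃ l : ℚ, l • (c : Fin d → ℚ) = qv w.sum := by
    intro w hw
    obtain ⟨l, hl⟩ := hc ⟨qv w.sum, Submodule.subset_span ⟨w, hw, rfl⟩⟩
    exact ⟨l, congrArg Subtype.val hl⟩
  obtain ⟨w, hw, hwk⟩ := hk
  obtain ⟨l₀, h0⟩ := key w hw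
  obtain ⟨l, h1⟩ := key u hu
  obtain ⟨l', h2⟩ := key u' hu'
  have hck : (c : Fin d → ℚ) k ≠ 0 := by
    intro h3
    have h4 := congrFun h0 k
    simp only [Pi.smul_apply, h3, smul_zero, qv] at h4
    exact hwk (by exact_mod_cast h4.symm)
  have h5 := congrFun h1 k
  have h6 := congrFun h2 k
  simp only [Pi.smul_apply, smul_eq_mul, qv] at h5 h6
  have h7 : l = l' := by
    have h8 : l * (c : Fin d → ℚ) k = l' * (c : Fin d → ℚ) k := by
      rw [h5, h6, h]
    exact mul_right_cancel₀ hck h8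
  funext j
  have h9 := congrFun h1 j
  have h10 := congrFun h2 j
  rw [← h7] at h10
  rw [h9] at h10
  simp only [qv] at h10
  exact_mod_cast h10

theorem ret {p₀ p q : Q} (hp : Reach T p₀ p) (hq : Reach T q p₀) :
    ∃ u₁ u₂ : List (Vec d), ∀ w, Walk T p w q → Walk T p₀ (u₁ ++ w ++ u₂) p₀ := by
  obtain ⟨u₁, h1⟩ := hp
  obtain ⟨u₂, h2⟩ := hq
  exact ⟨u₁, u₂, fun w hw => (h1.append hw).append h2⟩

theorem det2 {p₀ : Q} (hT : ThinAt T p₀) {k : Fin d} (hk : Mov T p₀ k) {p q : Q}
    (hp : Reach T p₀ p) (hq : Reach T q p₀) {w w' : List (Vec d)} (hw : Walk T p w q)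
    (hw' : Walk T p w' q) (h : w.sum k = w'.sum k) : w.sum = w'.sum := by
  obtain ⟨u₁, u₂, hu⟩ := ret hp hq
  have h1 := det1 hT hk (hu w hw) (hu w' hw') (by
    simp only [List.sum_append, Pi.add_apply, h])
  simp only [List.sum_append] at h1
  exact add_left_cancel (add_right_cancel h1)

theorem det0 {p₀ : Q} {k : Fin d} (hk : ¬ Mov T p₀ k) {p q : Q}
    (hp : Reach T p₀ p) (hq : Reach T q p₀) {w w' : List (Vec d)} (hw : Walk T p w q)
    (hw' : Walk T p w' q) : w.sum k = w'.sum k := by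
  obtain ⟨u₁, u₂, hu⟩ := ret hp hq
  have h0 : ∀ u, Walk T p₀ u p₀ → u.sum k = 0 := by
    intro u hu
    by_contra h
    exact hk ⟨u, hu, h⟩
  have h1 := h0 _ (hu w hw)
  have h2 := h0 _ (hu w' hw')
  simp only [List.sum_append, Pi.add_apply] at h1 h2
  linarith

theorem exists_wt {p₀ : Q} (hT : ThinAt T p₀) : ∃ wt : Vec d →+ ℤ,
    (∀ (v : Vec d) (M : ℕ), (∀ k, |v k| ≤ (M : ℤ)) → |wt v| ≤ M) ∧
    ∀ (p q : Q), Reach T p₀ p → Reach T q p₀ → ∀ (w w' : List (Vec d)), Walk T p w q →
      Walk T p w' q → wt w.sum = wt w'.sum → w.sum = w'.sum := by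
  by_cases h : ∃ k, Mov T p₀ k
  · obtain ⟨k, hk⟩ := h
    exact ⟨Pi.evalAddMonoidHom _ k, fun v M hv => hv k, fun p q hp hq w w' hw hw' h =>
      det2 hT hk hp hq hw hw' h⟩
  · push Not at h
    refine ⟨0, fun v M hv => by simp, fun p q hp hq w w' hw hw' _ => ?_⟩
    funext k
    exact det0 (h k) hp hq hw hw'

/-! ### Prefixes -/

theorem Ok_of_prefix {x : Vec d} {w : List (Vec d)}
    (h : ∀ u u', w = u ++ u' → 0 ≤ x + u.sum) : Ok x w := by
  induction w generalizing x with
  | nil => trivial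
  | cons v w ih =>
    refine ⟨?_, ih fun u u' e => ?_⟩
    · have := h [v] w rfl
      simpa using this
    · have := h (v :: u) u' (by rw [e, List.cons_append])
      rw [List.sum_cons, ← add_assoc] at this
      exact this

theorem Ok_take {x : Vec d} (hx : 0 ≤ x) {w : List (Vec d)} (h : Ok x w) (i : ℕ) :
    0 ≤ x + (w.take i).sum := by
  have h1 : Ok x (w.take i ++ w.drop i) := by rwa [List.take_append_drop]
  exact Ok_end hx ((Ok_append _ _ _).1 h1).1

theorem prefix_append {α : Type} {u u' A B : List α} (h : A ++ B = u ++ u') :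
    (∃ A', A = u ++ A') ∨ ∃ u₂, u = A ++ u₂ ∧ B = u₂ ++ u' := by
  rcases List.append_eq_append_iff.1 h with ⟨as, h1, h2⟩ | ⟨bs, h1, h2⟩
  · exact Or.inr ⟨as, h1, h2⟩
  · exact Or.inl ⟨bs, h1⟩

theorem prefix_rep {β : List (Vec d)} : ∀ {a : ℕ} {u u' : List (Vec d)}, rep a β = u ++ u' →
    ∃ j ≤ a, ∃ π, u = rep j β ++ π ∧ π <+: β := by
  intro a
  induction a with
  | zero =>
    intro u u' h
    have : u = [] := by
      rw [rep_zero] at h
      exact (List.append_eq_nil_iff.1 h.symm).1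
    exact ⟨0, le_rfl, [], by rw [this, rep_zero]; rfl, List.nil_prefix⟩
  | succ a ih =>
    intro u u' h
    rw [rep_succ] at h
    rcases prefix_append h with ⟨A', h1⟩ | ⟨u₂, h1, h2⟩
    · exact ⟨0, Nat.zero_le _, u, by rw [rep_zero]; rfl, ⟨A', h1.symm⟩⟩
    · obtain ⟨j, hj, π, h3, h4⟩ := ih h2
      exact ⟨j + 1, by omega, π, by rw [h1, h3, rep_succ, List.append_assoc], h4⟩

theorem WalkIn.split {S : Finset Q} {u w : List (Vec d)} : ∀ {p r : Q},
    WalkIn T S p (u ++ w) r → ∃ q, WalkIn T S p u q ∧ WalkIn T S q w r := by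
  induction u with
  | nil => intro p r h; exact ⟨p, .nil h.start, h⟩
  | cons v u ih =>
    intro p r h
    rw [List.cons_append] at h
    cases h with
    | cons h0 h1 h2 =>
      obtain ⟨q, h3, h4⟩ := ih h2
      exact ⟨q, .cons h0 h1 h3, h4⟩

theorem rep_sum_apply (n : ℕ) (w : List (Vec d)) (k : Fin d) :
    (rep n w).sum k = n * w.sum k := by
  rw [rep_sum, Pi.smul_apply, nsmul_eq_mul]

/-- positions along `α β^a γ` -/
theorem pos_bound {α β γ : List (Vec d)} {a M : ℕ} {k : Fin d}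
    (hα : ∀ v ∈ α, ∀ k, |v k| ≤ M) (hβ : ∀ v ∈ β, ∀ k, |v k| ≤ M)
    (hγ : ∀ v ∈ γ, ∀ k, |v k| ≤ M) {u u' : List (Vec d)}
    (h : α ++ (rep a β ++ γ) = u ++ u') {x R : ℤ} (hx : R ≤ x)
    (hx' : R ≤ x + (α ++ (rep a β ++ γ)).sum k) :
    R - (α.length + β.length + γ.length : ℕ) * M ≤ x + u.sum k := by
  have hM0 : (0 : ℤ) ≤ M := Int.natCast_nonneg _
  have e0 : (α ++ (rep a β ++ γ)).sum k = α.sum k + a * β.sum k + γ.sum k := by
    rw [List.sum_append, List.sum_append, Pi.add_apply, Pi.add_apply, rep_sum_apply]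
    ring
  rw [e0] at hx'
  have sα := abs_le.1 (sum_le hα k)
  have sβ := abs_le.1 (sum_le hβ k)
  have sγ := abs_le.1 (sum_le hγ k)
  have lα : (0 : ℤ) ≤ α.length * M := by positivity
  have lβ : (0 : ℤ) ≤ β.length * M := by positivity
  have lγ : (0 : ℤ) ≤ γ.length * M := by positivity
  push_cast
  rcases prefix_append h with ⟨A', h1⟩ | ⟨u₂, h1, h2⟩
  · have hu : ∀ v ∈ u, ∀ k, |v k| ≤ M := fun v hv =>
      hα v (by rw [h1]; exact List.mem_append_left _ hv)
    have su := abs_le.1 (sum_le hu k)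
    have hl : (u.length : ℤ) * M ≤ α.length * M := by
      have : u.length ≤ α.length := by rw [h1, List.length_append]; omega
      exact_mod_cast Nat.mul_le_mul_right M this
    nlinarith
  · rcases prefix_append h2 with ⟨A', h3⟩ | ⟨u₃, h3, h4⟩
    · obtain ⟨j, hj, π, h5, h6⟩ := prefix_rep h3
      have hπ : ∀ v ∈ π, ∀ k, |v k| ≤ M := fun v hv => hβ v (h6.subset hv)
      have sπ := abs_le.1 (sum_le hπ k)
      have hl : (π.length : ℤ) * M ≤ β.length * M := by
        exact_mod_cast Nat.mul_le_mul_right M h6.length_le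
      have e1 : u.sum k = α.sum k + (j * β.sum k + π.sum k) := by
        rw [h1, h5, List.sum_append, List.sum_append, Pi.add_apply, Pi.add_apply, rep_sum_apply]
      rw [e1]
      have hj' : (j : ℤ) ≤ a := by exact_mod_cast hj
      have hj0 : (0 : ℤ) ≤ j := Int.natCast_nonneg j
      rcases le_total 0 (β.sum k) with hs0 | hs0
      · have : 0 ≤ (j : ℤ) * β.sum k := mul_nonneg hj0 hs0
        linarith
      · have : (a : ℤ) * β.sum k ≤ (j : ℤ) * β.sum k := mul_le_mul_of_nonpos_right hj' hs0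
        linarith
    · have hu' : ∀ v ∈ u', ∀ k, |v k| ≤ M := fun v hv =>
        hγ v (by rw [h4]; exact List.mem_append_right _ hv)
      have su := abs_le.1 (sum_le hu' k)
      have hl : (u'.length : ℤ) * M ≤ γ.length * M := by
        have : u'.length ≤ γ.length := by rw [h4, List.length_append]; omega
        exact_mod_cast Nat.mul_le_mul_right M this
      have e1 : u.sum k = α.sum k + (a * β.sum k + u₃.sum k) := by
        rw [h1, h3, List.sum_append, List.sum_append, Pi.add_apply, Pi.add_apply, rep_sum_apply]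
      have e2 : γ.sum k = u₃.sum k + u'.sum k := by
        rw [h4, List.sum_append, Pi.add_apply]
      rw [e1]
      linarith

/-! ### Zones -/

/-- walks whose configurations are non-negative, and safe or in `D` -/
inductive RI (T : VASS Q d) (Sf : Vec d → Prop) (D : Finset (Q × Vec d)) :
    Q → Vec d → List (Vec d) → Q → Prop
  | nil {p : Q} {x : Vec d} : 0 ≤ x → (Sf x ∨ (p, x) ∈ D) → RI T Sf D p x [] p
  | cons {p p' q : Q} {x v : Vec d} {w : List (Vec d)} : 0 ≤ x → (Sf x ∨ (p, x) ∈ D) →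
      (p, v, p') ∈ T → RI T Sf D p' (x + v) w q → RI T Sf D p x (v :: w) q

variable {Sf : Vec d → Prop} {D : Finset (Q × Vec d)}

theorem RI.walk {p q : Q} {x : Vec d} {w : List (Vec d)} (h : RI T Sf D p x w q) :
    Walk T p w q := by
  induction h with
  | nil _ _ => exact .nil _
  | cons _ _ h1 _ ih => exact .cons h1 ih

theorem RI.start {p q : Q} {x : Vec d} {w : List (Vec d)} (h : RI T Sf D p x w q) :
    0 ≤ x ∧ (Sf x ∨ (p, x) ∈ D) := by
  cases h with
  | nil h1 h2 => exact ⟨h1, h2⟩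
  | cons h1 h2 _ _ => exact ⟨h1, h2⟩

theorem RI.ok {p q : Q} {x : Vec d} {w : List (Vec d)} (h : RI T Sf D p x w q) : Ok x w := by
  induction h with
  | nil _ _ => trivial
  | cons _ _ _ h2 ih => exact ⟨h2.start.1, ih⟩

theorem RI.stop {p q : Q} {x : Vec d} {w : List (Vec d)} (h : RI T Sf D p x w q) :
    Sf (x + w.sum) ∨ (q, x + w.sum) ∈ D := by
  induction h with
  | nil _ h2 => simpa using h2
  | cons _ _ _ _ ih =>
    rw [List.sum_cons, ← add_assoc]
    exact ih

/-- the first configuration in `D` -/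
theorem RI.first {p q : Q} {x : Vec d} {w : List (Vec d)} (h : RI T Sf D p x w q) :
    RI T Sf ∅ p x w q ∨ ∃ w₀ p' w', w = w₀ ++ w' ∧ (p', x + w₀.sum) ∈ D ∧
      RI T Sf D p' (x + w₀.sum) w' q ∧ ((w₀ = [] ∧ p' = p) ∨
        ∃ w₁ v r, w₀ = w₁ ++ [v] ∧ RI T Sf ∅ p x w₁ r ∧ (r, v, p') ∈ T) := by
  induction h with
  | @nil p x h1 h2 =>
    by_cases hs : Sf x
    · exact Or.inl (.nil h1 (Or.inl hs))
    · have h3 := h2.resolve_left hs
      exact Or.inr ⟨[], p, [], rfl, by simpa using h3, by simpa using RI.nil h1 h2,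
        Or.inl ⟨rfl, rfl⟩⟩
  | @cons p p₁ q x v w h1 h2 h3 h4 ih =>
    by_cases hs : Sf x
    · rcases ih with ih | ⟨w₀, p', w', e, h5, h6, h7⟩
      · exact Or.inl (.cons h1 (Or.inl hs) h3 ih)
      · rw [add_assoc, ← List.sum_cons] at h5 h6
        refine Or.inr ⟨v :: w₀, p', w', by rw [e, List.cons_append], h5, h6, Or.inr ?_⟩
        rcases h7 with ⟨rfl, rfl⟩ | ⟨w₁, v', r, rfl, h8, h9⟩
        · exact ⟨[], v, p, rfl, .nil h1 (Or.inl hs), h3⟩
        · exact ⟨v :: w₁, v', r, rfl, .cons h1 (Or.inl hs) h3 h8, h9⟩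
    · have h5 := h2.resolve_left hs
      exact Or.inr ⟨[], p, v :: w, rfl, by simpa using h5,
        by simpa using RI.cons h1 h2 h3 h4, Or.inl ⟨rfl, rfl⟩⟩

/-- the last visit of a configuration -/
theorem RI.last [DecidableEq (Q × Vec d)] (p' : Q) (x' : Vec d) {p q : Q} {x : Vec d}
    {w : List (Vec d)} (h : RI T Sf D p x w q) :
    RI T Sf (D.erase (p', x')) p x w q ∨ ∃ u w', w = u ++ w' ∧ x + u.sum = x' ∧
      ((w' = [] ∧ q = p') ∨ ∃ v r w'', w' = v :: w'' ∧ (p', v, r) ∈ T ∧
        RI T Sf (D.erase (p', x')) r (x' + v) w'' q) := by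
  induction h with
  | @nil p x h1 h2 =>
    by_cases hp : (p, x) = (p', x')
    · obtain ⟨rfl, rfl⟩ := Prod.mk.inj hp
      exact Or.inr ⟨[], [], rfl, by simp, Or.inl ⟨rfl, rfl⟩⟩
    · exact Or.inl (.nil h1 (h2.imp id fun h => mem_erase.2 ⟨hp, h⟩))
  | @cons p p₁ q x v w h1 h2 h3 h4 ih =>
    rcases ih with ih | ⟨u, w', e, h5, h6⟩
    · by_cases hp : (p, x) = (p', x')
      · obtain ⟨rfl, rfl⟩ := Prod.mk.inj hp
        exact Or.inr ⟨[], v :: w, rfl, by simp, Or.inr ⟨v, p₁, w, rfl, h3, ih⟩⟩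
      · exact Or.inl (.cons h1 (h2.imp id fun h => mem_erase.2 ⟨hp, h⟩) h3 ih)
    · exact Or.inr ⟨v :: u, w', by rw [e, List.cons_append],
        by rw [List.sum_cons, ← add_assoc, h5], h6⟩

/-- schemes realizing a word exactly -/
def Rlz (T : VASS Q d) (p : Q) (x : Vec d) (e : Vec d) (q : Q) (s : ℕ) : Prop :=
  ∃ I : List (Itm d), IsScheme T p (I.map isk) q ∧ Ok x (unroll I) ∧ (unroll I).sum = e ∧
    schemeSize (I.map isk) ≤ s

theorem IsScheme.append {p q r : Q} {L L' : List (List (Vec d) × List (Vec d))}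
    (h : IsScheme T p L q) (h' : IsScheme T q L' r) : IsScheme T p (L ++ L') r := by
  induction h with
  | nil _ => exact h'
  | cons h1 h2 _ ih => exact .cons h1 h2 (ih h')

theorem schemeSize_append (L L' : List (List (Vec d) × List (Vec d))) :
    schemeSize (L ++ L') = schemeSize L + schemeSize L' := by simp [schemeSize]

theorem Rlz.nil (p : Q) (x : Vec d) : Rlz T p x 0 p 0 := ⟨[], .nil p, trivial, rfl, le_rfl⟩

theorem Rlz.mono {p q : Q} {x e : Vec d} {s s' : ℕ} (h : Rlz T p x e q s) (hs : s ≤ s') :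
    Rlz T p x e q s' := by
  obtain ⟨I, h1, h2, h3, h4⟩ := h
  exact ⟨I, h1, h2, h3, h4.trans hs⟩

theorem Rlz.append {p q r : Q} {x e e' : Vec d} {s s' : ℕ} (h : Rlz T p x e q s)
    (h' : Rlz T q (x + e) e' r s') : Rlz T p x (e + e') r (s + s') := by
  obtain ⟨I, h1, h2, h3, h4⟩ := h
  obtain ⟨J, h5, h6, h7, h8⟩ := h'
  refine ⟨I ++ J, ?_, ?_, ?_, ?_⟩
  · rw [List.map_append]; exact h1.append h5
  · rw [unroll_append, Ok_append, h3]; exact ⟨h2, h6⟩
  · rw [unroll_append, List.sum_append, h3, h7]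
  · rw [List.map_append, schemeSize_append]; omega

theorem Rlz.step {p q : Q} {x v : Vec d} (h : (p, v, q) ∈ T) (h0 : 0 ≤ x + v) :
    Rlz T p x v q 2 := by
  refine ⟨[([v], [], 0)], .cons (.cons h (.nil _)) (.nil _) (.nil _), ?_, ?_, ?_⟩
  · rw [unroll_cons, unroll_nil, wrd, rep_zero]
    exact ⟨h0, trivial⟩
  · rw [unroll_cons, unroll_nil, wrd, rep_zero]
    simp
  · simp [schemeSize, isk]

/-- the constant `A` -/
def cA (n M : ℕ) : ℕ := 3 * (n * ((n * M) * (n * M))) + n

/-- safe vectors -/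
def Safe (T : VASS Q d) (p₀ : Q) (R : ℤ) (z : Vec d) : Prop := ∀ k, Mov T p₀ k → R ≤ z k

theorem safe_part [Fintype Q] {p₀ : Q} (hT : ThinAt T p₀) {p q : Q} {x : Vec d}
    {w : List (Vec d)} (hp : Reach T p₀ p) (hq : Reach T q p₀)
    (h : RI T (Safe T p₀ (cA (Fintype.card Q) (maxNorm T) * maxNorm T : ℕ)) ∅ p x w q) :
    Rlz T p x w.sum q (cA (Fintype.card Q) (maxNorm T) + 2) := by
  obtain ⟨wt, hwt1, hwt2⟩ := exists_wt hT
  set M := maxNorm T with hM
  have hlet : ∀ {S : Finset Q} {p q : Q} {w : List (Vec d)}, WalkIn T S p w q →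
      ∀ v ∈ w, ∀ k, |v k| ≤ M := by
    intro S p q w h v hv k
    obtain ⟨a, b, hab⟩ := h.walk.letters v hv
    exact abs_le_maxNorm hab k
  obtain ⟨S, f, f0, f1, hS, hf⟩ := h.walk.visited
  obtain ⟨α, β, γ, a, s, h1, h2, h3, h4, h5⟩ := uncon wt (M := M)
    (fun p v q h => hwt1 v M fun k => abs_le_maxNorm h k) f0 f1 hS hf
  have hW : WalkIn T S p (α ++ (rep a β ++ γ)) q := h1.append ((h2.rep a).append h3)
  have hsum : (α ++ (rep a β ++ γ)).sum = w.sum := by
    refine hwt2 p q hp hq _ _ hW.walk h.walk ?_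
    rw [List.sum_append, List.sum_append, rep_sum, map_add, map_add, map_nsmul, nsmul_eq_mul,
      ← h5]
    ring
  have hsafe0 := h.start.2.resolve_right (notMem_empty _)
  have hsafe1 := h.stop.resolve_right (notMem_empty _)
  refine ⟨[(α, β, a), (γ, [], 0)], .cons h1.walk h2.walk (.cons h3.walk (.nil _) (.nil _)),
    ?_, ?_, ?_⟩
  · have e : unroll [(α, β, a), (γ, [], 0)] = α ++ (rep a β ++ γ) := by
      rw [unroll_cons, unroll_cons, unroll_nil, wrd, wrd, rep_zero]
      simp [List.append_assoc]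
    rw [e]
    refine Ok_of_prefix fun u u' hu k => ?_
    by_cases hk : Mov T p₀ k
    · have h6 := pos_bound (hlet h1) (hlet h2) (hlet h3) hu (hsafe0 k hk) (by
        rw [hsum]
        exact hsafe1 k hk)
      have h7 : (((α.length + β.length + γ.length : ℕ) : ℤ)) * M ≤
          ((cA (Fintype.card Q) M * M : ℕ) : ℤ) := by
        exact_mod_cast Nat.mul_le_mul_right M h4
      simp only [Pi.zero_apply, Pi.add_apply]
      linarith
    · rw [hu] at hW
      obtain ⟨s', h6, h7⟩ := hW.split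
      obtain ⟨i, hi, hfi⟩ := hS s' h6.stop
      have h8 := (hf 0 i (Nat.zero_le _) hi).walk
      rw [f0, hfi, List.drop_zero, Nat.sub_zero] at h8
      have hq' : Reach T s' p₀ := Reach.trans ⟨_, h7.walk⟩ hq
      have h9 := det0 hk hp hq' h6.walk h8
      have h10 := Ok_take h.start.1 h.ok i k
      simp only [Pi.zero_apply, Pi.add_apply] at h10 ⊢
      rw [h9]
      exact h10
  · rw [unroll_cons, unroll_cons, unroll_nil, wrd, wrd, rep_zero]
    simp only [List.append_nil]
    rw [List.append_assoc]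
    exact hsum
  · simp only [schemeSize, List.map_cons, List.map_nil, isk, List.sum_cons, List.sum_nil,
      List.length_nil]
    unfold cA
    omega

theorem zone [Fintype Q] {p₀ : Q} (hT : ThinAt T p₀) : ∀ (m : ℕ) {D : Finset (Q × Vec d)},
    D.card ≤ m → ∀ {p q : Q} {x : Vec d} {w : List (Vec d)}, Reach T p₀ p → Reach T q p₀ →
    RI T (Safe T p₀ (cA (Fintype.card Q) (maxNorm T) * maxNorm T : ℕ)) D p x w q →
    Rlz T p x w.sum q ((m + 1) * (cA (Fintype.card Q) (maxNorm T) + 6)) := by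
  classical
  intro m
  induction m with
  | zero =>
    intro D hD p q x w hp hq h
    have : D = ∅ := Finset.card_eq_zero.1 (Nat.le_zero.1 hD)
    rw [this] at h
    exact (safe_part hT hp hq h).mono (by omega)
  | succ m ih =>
    intro D hD p q x w hp hq h
    set A := cA (Fintype.card Q) (maxNorm T) with hA
    have hexp : (m + 1 + 1) * (A + 6) = (m + 1) * (A + 6) + (A + 6) := by ring
    rcases h.first with h' | ⟨w₀, p', w', rfl, h1, h2, h3⟩
    · exact (safe_part hT hp hq h').mono (by rw [hexp]; omega)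
    · have hq1 : Reach T p' p₀ := Reach.trans ⟨w', h2.walk⟩ hq
      have hcard : (D.erase (p', x + w₀.sum)).card ≤ m := by
        rw [card_erase_of_mem h1]
        omega
      have hfst : Rlz T p x w₀.sum p' (A + 4) ∧ Reach T p₀ p' := by
        rcases h3 with ⟨rfl, rfl⟩ | ⟨w₁, v, r, rfl, h4, h5⟩
        · exact ⟨(Rlz.nil p' x).mono (Nat.zero_le _), hp⟩
        · have hr : Reach T r p₀ := Reach.trans ⟨[v], .cons h5 (.nil _)⟩ hq1
          have h6 := safe_part hT hp hr h4
          have h7 : 0 ≤ x + w₁.sum + v := by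
            have := h2.start.1
            rw [List.sum_append, List.sum_singleton, ← add_assoc] at this
            exact this
          have h8 := h6.append (Rlz.step h5 h7)
          rw [List.sum_append, List.sum_singleton]
          exact ⟨h8.mono (by omega),
            hp.trans ((Reach.trans ⟨w₁, h4.walk⟩ ⟨[v], .cons h5 (.nil _)⟩))⟩
      obtain ⟨hfst, hp1⟩ := hfst
      rcases h2.last p' (x + w₀.sum) with h4 | ⟨u, w'', rfl, h5, h6⟩
      · have h7 := ih hcard hp1 hq h4
        rw [List.sum_append]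
        exact (hfst.append h7).mono (by rw [hexp]; omega)
      · have hu0 : u.sum = 0 := by
          have : x + w₀.sum + u.sum = x + w₀.sum + 0 := by rw [h5, add_zero]
          exact add_left_cancel this
        rcases h6 with ⟨rfl, rfl⟩ | ⟨v, r, w''', rfl, h7, h8⟩
        · rw [List.sum_append, List.append_nil, hu0, add_zero]
          exact hfst.mono (by rw [hexp]; omega)
        · have hr : Reach T p₀ r := hp1.trans ⟨[v], .cons h7 (.nil _)⟩
          have h9 := ih hcard hr hq h8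
          have h10 := (hfst.append (Rlz.step h7 h8.start.1)).append (by
            rw [← add_assoc]
            exact h9)
          have e : (w₀ ++ (u ++ v :: w''')).sum = w₀.sum + v + w'''.sum := by
            rw [List.sum_append, List.sum_append, List.sum_cons, hu0, zero_add, add_assoc]
          rw [e]
          exact h10.mono (by rw [hexp]; omega)

open Classical in
/-- the dangerous configurations -/
noncomputable def dang (T : VASS Q d) (p : Q) (x : Vec d) (R : ℕ)
    (i : Q × Fin d × Fin R) : Q × Vec d :=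
  (i.1, if h : ∃ u, Walk T p u i.1 ∧ (x + u.sum) i.2.1 = (i.2.2 : ℕ) then x + h.choose.sum
    else 0)

open Classical in
theorem init [Fintype Q] {p₀ : Q} (hT : ThinAt T p₀) {p q : Q} {x : Vec d}
    (hp : Reach T p₀ p) (hq : Reach T q p₀) (R : ℕ) {w : List (Vec d)} :
    ∀ {r : Q} {u : List (Vec d)}, Walk T p u r → Walk T r w q → Ok (x + u.sum) w →
    0 ≤ x + u.sum → RI T (Safe T p₀ (R : ℕ)) (univ.image (dang T p x R)) r (x + u.sum) w q := by
  have key : ∀ {r : Q} {u w : List (Vec d)}, Walk T p u r → Walk T r w q → 0 ≤ x + u.sum →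
      Safe T p₀ (R : ℕ) (x + u.sum) ∨ (r, x + u.sum) ∈ univ.image (dang T p x R) := by
    intro r u w hu hw h0
    by_cases hs : Safe T p₀ (R : ℕ) (x + u.sum)
    · exact Or.inl hs
    · right
      unfold Safe at hs
      push Not at hs
      obtain ⟨k, hk, hlt⟩ := hs
      have hk0 := h0 k
      simp only [Pi.zero_apply] at hk0
      have hv : ((((x + u.sum) k).toNat : ℕ) : ℤ) = (x + u.sum) k := Int.toNat_of_nonneg hk0
      have hvR : ((x + u.sum) k).toNat < R := by
        have : ((((x + u.sum) k).toNat : ℕ) : ℤ) < (R : ℕ) := by rw [hv]; exact hlt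
        exact_mod_cast this
      rw [mem_image]
      refine ⟨(r, k, ⟨((x + u.sum) k).toNat, hvR⟩), mem_univ _, ?_⟩
      have hex : ∃ u', Walk T p u' r ∧ (x + u'.sum) k = (((x + u.sum) k).toNat : ℕ) :=
        ⟨u, hu, hv.symm⟩
      rw [dang]
      simp only
      rw [dif_pos hex]
      obtain ⟨h1, h2⟩ := hex.choose_spec
      have h2' := h2.trans hv
      simp only [Pi.add_apply] at h2'
      have h3 := det2 hT hk hp (Reach.trans ⟨w, hw⟩ hq) h1 hu (by linarith)
      rw [h3]
  induction w with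
  | nil =>
    intro r u hu hw hok h0
    have hk := key hu hw h0
    cases hw with
    | nil _ => exact .nil h0 hk
  | cons v w ih =>
    intro r u hu hw hok h0
    have hk := key hu hw h0
    cases hw with
    | cons h1 h2 =>
      have e : x + (u ++ [v]).sum = x + u.sum + v := by
        rw [List.sum_append, List.sum_singleton, add_assoc]
      have h3 := ih (u := u ++ [v]) (hu.append (.cons h1 (.nil _))) h2 (by rw [e]; exact hok.2)
        (by rw [e]; exact hok.1)
      rw [e] at h3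
      exact .cons h0 hk h1 h3

/-- the size bound for one strongly connected component -/
def cZ (n d M : ℕ) : ℕ := (n * (d * (cA n M * M)) + 1) * (cA n M + 6)

theorem scc_part [Fintype Q] {p₀ : Q} (hT : ThinAt T p₀) {p q : Q} {x : Vec d} (hx : 0 ≤ x)
    (hp : Reach T p₀ p) (hq : Reach T q p₀) {w : List (Vec d)} (hw : Walk T p w q)
    (hok : Ok x w) : Rlz T p x w.sum q (cZ (Fintype.card Q) d (maxNorm T)) := by
  classical
  have h := init hT hp hq (x := x) (cA (Fintype.card Q) (maxNorm T) * maxNorm T) (w := w)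
    (u := []) (.nil p) hw (by simpa using hok) (by simpa using hx)
  rw [List.sum_nil, add_zero] at h
  refine zone hT _ ?_ hp hq h
  refine card_image_le.trans ?_
  rw [card_univ, Fintype.card_prod, Fintype.card_prod, Fintype.card_fin, Fintype.card_fin]

/-- leaving a strongly connected component -/
theorem leave [DecidableEq Q] {S : Finset Q} {p : Q} {q : Q} (hq : ¬ Reach T q p) {r : Q}
    {w : List (Vec d)} (h : WalkIn T S r w q) (hr : Reach T r p) : ∃ u v p₂ p₃ w',
    w = u ++ v :: w' ∧ Walk T r u p₂ ∧ Reach T p₂ p ∧ (p₂, v, p₃) ∈ T ∧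
      WalkIn T (S.erase p) p₃ w' q := by
  have conv : ∀ {r q : Q} {w : List (Vec d)}, WalkIn T S r w q → ¬ Reach T r p →
      WalkIn T (S.erase p) r w q := by
    intro r q w h
    induction h with
    | @nil r h0 =>
      intro hr
      refine .nil (mem_erase.2 ⟨?_, h0⟩)
      rintro rfl
      exact hr ⟨[], .nil _⟩
    | @cons r r' q v w h0 h1 h2 ih =>
      intro hr
      refine .cons (mem_erase.2 ⟨?_, h0⟩) h1 (ih fun h3 => hr ?_)
      · rintro rfl
        exact hr ⟨[], .nil _⟩
      · exact Reach.trans ⟨[v], .cons h1 (.nil _)⟩ h3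
  induction h with
  | nil h0 => exact absurd hr hq
  | @cons r r' q v w h0 h1 h2 ih =>
    by_cases hr' : Reach T r' p
    · obtain ⟨u, v', p₂, p₃, w', e, h3, h4, h5, h6⟩ := ih hq hr'
      exact ⟨v :: u, v', p₂, p₃, w', by rw [e, List.cons_append], .cons h1 h3, h4, h5, h6⟩
    · exact ⟨[], v, r, r', w, rfl, .nil _, hr, h1, conv h2 hr'⟩

/-- **Thin systems are captured by path schemes of polynomial size.** -/
theorem thin_scheme [Fintype Q] (hT : Thin T) : ∀ (n : ℕ) {S : Finset Q}, S.card ≤ n →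
    ∀ {p q : Q} {x : Vec d} {w : List (Vec d)}, 0 ≤ x → WalkIn T S p w q → Ok x w →
    Rlz T p x w.sum q (n * (cZ (Fintype.card Q) d (maxNorm T) + 2)) := by
  classical
  intro n
  induction n with
  | zero =>
    intro S hS p q x w hx h hok
    have : S = ∅ := Finset.card_eq_zero.1 (Nat.le_zero.1 hS)
    have h' := h.start
    rw [this] at h'
    simp at h'
  | succ n ih =>
    intro S hS p q x w hx h hok
    have hexp : (n + 1) * (cZ (Fintype.card Q) d (maxNorm T) + 2) =
        n * (cZ (Fintype.card Q) d (maxNorm T) + 2) + (cZ (Fintype.card Q) d (maxNorm T) + 2) := by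
      ring
    have hpp : Reach T p p := ⟨[], .nil p⟩
    by_cases hq : Reach T q p
    · exact (scc_part (hT p) hx hpp hq h.walk hok).mono (by rw [hexp]; omega)
    · obtain ⟨u, v, p₂, p₃, w', rfl, h1, h2, h3, h4⟩ := leave hq h hpp
      rw [Ok_append] at hok
      obtain ⟨o1, o2, o3⟩ := hok
      have h5 := scc_part (hT p) hx hpp h2 h1 o1
      have hcard : (S.erase p).card ≤ n := by
        rw [card_erase_of_mem h.start]
        omega
      have h6 := ih hcard o2 h4 o3
      have h7 := (h5.append (Rlz.step h3 o2)).append (by rw [← add_assoc]; exact h6)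
      have e : (u ++ v :: w').sum = u.sum + v + w'.sum := by
        rw [List.sum_append, List.sum_cons, add_assoc]
      rw [e]
      exact h7.mono (by rw [hexp]; omega)

end Pool.Agent.EEF
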