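import Pool.Agent.EEF.Main
import Pool.Agent.EEF.Zone

/-!
# EEF / Final: short covering runs of thin systems
-/

set_option autoImplicit false
set_option linter.unusedSectionVars false

namespace Pool.Agent.EEF

open Finset

variable {Q : Type} {d : ℕ} {T : VASS Q d}

theorem schemeDim_le {s t : Q} {I : List (Itm d)} (h : IsScheme T s (I.map isk) t) :
    schemeDim (I.map isk) ≤ geomDim T := by
  refine Submodule.finrank_mono (Submodule.span_mono ?_)
  rintro c ⟨i, hi, rfl⟩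
  obtain ⟨j, hj, rfl⟩ := List.mem_map.1 hi
  obtain ⟨-, p, hp⟩ := scheme_loops I h j hj
  exact ⟨p, _, hp, rfl⟩

theorem num_thin {n d M s : ℕ} (hn : 1 ≤ n) (hs : s ≤ n * (cZ n d M + 2)) :
    45 * (s + 1) ^ 4 * (d + 1) ^ 3 * (M + 1) ^ 2 ≤
      10 ^ 9 * n ^ 32 * (d + 1) ^ 7 * (M + 1) ^ 22 := by
  have hd : d + 1 ≤ d + 1 := le_rfl
  obtain ⟨m, hm⟩ : ∃ m, m = M + 1 := ⟨_, rfl⟩
  obtain ⟨b, hb⟩ : ∃ b, b = d + 1 := ⟨_, rfl⟩
  have hm1 : 1 ≤ m := by omega
  have hb1 : 1 ≤ b := by omega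
  have hMm : M ≤ m := by omega
  have hdb : d ≤ b := by omega
  rw [← hm, ← hb]
  have hA : cA n M ≤ 4 * n ^ 3 * m ^ 2 := by
    unfold cA
    have h1 : n * ((n * M) * (n * M)) ≤ n * ((n * m) * (n * m)) := by gcongr
    have h2 : n * ((n * m) * (n * m)) = n ^ 3 * m ^ 2 := by ring
    have h3 : n ≤ n ^ 3 * m ^ 2 := by
      calc n = n * 1 := (mul_one n).symm
        _ ≤ n ^ 3 * m ^ 2 := Nat.mul_le_mul (Nat.le_self_pow (by norm_num) n)
          (Nat.one_le_pow _ _ hm1)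
    rw [h2] at h1
    linarith
  have hone : 1 ≤ n ^ 3 * m ^ 2 := Nat.mul_pos (pow_pos hn 3) (pow_pos hm1 2)
  have hA6 : cA n M + 6 ≤ 10 * (n ^ 3 * m ^ 2) := by linarith
  have hR : n * (d * (cA n M * M)) + 1 ≤ 5 * (n ^ 4 * b * m ^ 3) := by
    have h1 : n * (d * (cA n M * M)) ≤ n * (b * ((4 * n ^ 3 * m ^ 2) * m)) := by gcongr
    have h2 : n * (b * ((4 * n ^ 3 * m ^ 2) * m)) = 4 * (n ^ 4 * b * m ^ 3) := by ring
    have h3 : 1 ≤ n ^ 4 * b * m ^ 3 :=
      Nat.mul_pos (Nat.mul_pos (pow_pos hn 4) hb1) (pow_pos hm1 3)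
    linarith
  have hZ : cZ n d M ≤ 50 * (n ^ 7 * b * m ^ 5) := by
    unfold cZ
    calc (n * (d * (cA n M * M)) + 1) * (cA n M + 6)
        ≤ (5 * (n ^ 4 * b * m ^ 3)) * (10 * (n ^ 3 * m ^ 2)) := Nat.mul_le_mul hR hA6
      _ = _ := by ring
  have h7 : 1 ≤ n ^ 7 * b * m ^ 5 :=
    Nat.mul_pos (Nat.mul_pos (pow_pos hn 7) hb1) (pow_pos hm1 5)
  have h8 : 1 ≤ n ^ 8 * b * m ^ 5 :=
    Nat.mul_pos (Nat.mul_pos (pow_pos hn 8) hb1) (pow_pos hm1 5)
  have hs1 : s + 1 ≤ 53 * (n ^ 8 * b * m ^ 5) := by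
    have h9 : n * (cZ n d M + 2) ≤ n * (52 * (n ^ 7 * b * m ^ 5)) :=
      Nat.mul_le_mul_left _ (by linarith)
    have h10 : n * (52 * (n ^ 7 * b * m ^ 5)) = 52 * (n ^ 8 * b * m ^ 5) := by ring
    linarith
  calc 45 * (s + 1) ^ 4 * b ^ 3 * m ^ 2
      ≤ 45 * (53 * (n ^ 8 * b * m ^ 5)) ^ 4 * b ^ 3 * m ^ 2 := by gcongr
    _ = 355071645 * (n ^ 32 * b ^ 7 * m ^ 22) := by ring
    _ ≤ 10 ^ 9 * (n ^ 32 * b ^ 7 * m ^ 22) := Nat.mul_le_mul_right _ (by norm_num)
    _ = _ := by ring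

theorem mono_bound {a b g g' Y : ℕ} (h : a ≤ b) (hb : 0 < b) (hg : g ≤ g') :
    Y * a ^ (g + 1) ≤ Y * b ^ (g' + 1) :=
  Nat.mul_le_mul_left _ ((Nat.pow_le_pow_left h _).trans
    (Nat.pow_le_pow_right hb (Nat.add_le_add_right hg 1)))

theorem thin_main [Fintype Q] (hT : Thin T) {s t : Q} {x y y' : Fin d → ℕ}
    {w : List (Fin d → ℤ)} (hrun : Run T s x w t y') (hy : ∀ k, y k ≤ y' k) :
    ∃ (w' : List (Fin d → ℤ)) (y'' : Fin d → ℕ), Run T s x w' t y'' ∧ (∀ k, y k ≤ y'' k) ∧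
      w'.length ≤ max 1 (supN y) *
        (10 ^ 9 * Fintype.card Q ^ 32 * (d + 1) ^ 7 * (maxNorm T + 1) ^ 22) ^ (geomDim T + 1) := by
  obtain ⟨h1, h2, h3⟩ := run_iff.1 hrun
  obtain ⟨I, e1, e2, e3, e4⟩ := thin_scheme hT (Fintype.card Q) (S := Finset.univ) le_rfl
    (zv_nonneg x) h1.walkIn h2
  obtain ⟨a, ha⟩ := exists_items I
  have hw : unroll I = schemeWord (I.map isk) a := by
    conv_lhs => rw [ha]
    rw [items_unroll]
  have hrun' : Run T s x (schemeWord (I.map isk) a) t y' := by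
    rw [← hw]
    refine run_iff.2 ⟨scheme_walk I e1, e2, ?_⟩
    rw [e3]
    exact h3
  obtain ⟨a', y'', h4, h5, h6⟩ := scheme_main e1 hrun' hy
  refine ⟨_, y'', h4, h5, h6.trans ?_⟩
  have hn : 1 ≤ Fintype.card Q := Fintype.card_pos_iff.2 ⟨s⟩
  refine mono_bound (num_thin (M := maxNorm T) (d := d) hn e4) ?_ (schemeDim_le e1)
  have h9 : 0 < Fintype.card Q := hn
  positivity

theorem thin_of_geomDim (h : geomDim T ≤ 1) : Thin T := by
  intro p
  refine le_trans (Submodule.finrank_mono (Submodule.span_mono ?_)) h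
  rintro c ⟨w, hw, rfl⟩
  exact ⟨p, w, hw, rfl⟩

theorem thin_of_dim (h : d ≤ 1) : Thin T := by
  intro p
  refine (Submodule.finrank_le _).trans ?_
  rw [Module.finrank_fintype_fun_eq_card, Fintype.card_fin]
  exact h

theorem thin_of_flat [Fintype Q] (h : Flat T) : Thin T := by
  intro p
  by_cases hp : ∃ w, Walk T p w p ∧ w ≠ []
  · obtain ⟨w₀, h0, h0'⟩ := hp
    set k := Function.minimalPeriod (nst T) p with hk
    set θ := (List.range k).map (nlb T p) with hθ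
    have key : ∀ u, Walk T p u p → ∃ a : ℕ, u = rep a θ := by
      intro u hu
      obtain ⟨h1, h2⟩ := walk_det h hu ⟨[], .nil p⟩
      have hper : Function.IsPeriodicPt (nst T) u.length p := h2
      obtain ⟨a, ha⟩ : k ∣ u.length := hper.minimalPeriod_dvd
      have hkp : (nst T)^[k] p = p := Function.iterate_minimalPeriod
      have hf : ∀ i, nlb T p (k + i) = nlb T p i := fun i => by
        rw [nlb, nlb, Nat.add_comm, Function.iterate_add_apply, hkp]
      refine ⟨a, ?_⟩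
      conv_lhs => rw [h1, ha]
      exact map_range_mul _ _ hf _
    refine le_trans (Submodule.finrank_mono (t := Submodule.span ℚ {qv θ.sum})
      (Submodule.span_le.2 ?_)) ?_
    · rintro c ⟨w, hw, rfl⟩
      obtain ⟨a, rfl⟩ := key w hw
      have : qv (rep a θ).sum = (a : ℚ) • qv θ.sum := by
        funext j
        simp only [qv, Pi.smul_apply, smul_eq_mul]
        rw [rep_sum_apply]
        push_cast
        rfl
      rw [this]
      exact Submodule.smul_mem _ _ (Submodule.mem_span_singleton_self _)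
    · exact (finrank_span_le_card _).trans (by simp)
  · push Not at hp
    refine le_trans (Submodule.finrank_mono (t := ⊥) (Submodule.span_le.2 ?_)) (by simp)
    rintro c ⟨w, hw, rfl⟩
    rw [hp w hw]
    simp only [List.sum_nil, Submodule.bot_coe, Set.mem_singleton_iff]
    funext j
    simp [qv]

end Pool.Agent.EEF
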