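import Pool.Agent.EEF.Scheme

/-!
# EEF / Flat: walks of flat systems are path schemes
-/

set_option autoImplicit false
set_option linter.unusedSectionVars false

namespace Pool.Agent.EEF

open Finset

variable {Q : Type} {d : ℕ} {T : VASS Q d}

/-! ### Walks -/

theorem Walk.append {p q r : Q} {u w : List (Vec d)} (h : Walk T p u q) (h' : Walk T q w r) :
    Walk T p (u ++ w) r := by
  induction h with
  | nil p => exact h'
  | cons h1 _ ih => exact .cons h1 (ih h')

theorem Walk.split {u w : List (Vec d)} : ∀ {p r : Q}, Walk T p (u ++ w) r →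
    ∃ q, Walk T p u q ∧ Walk T q w r := by
  induction u with
  | nil => intro p r h; exact ⟨p, .nil p, h⟩
  | cons v u ih =>
    intro p r h
    rw [List.cons_append] at h
    cases h with
    | cons h1 h2 =>
      obtain ⟨q, h3, h4⟩ := ih h2
      exact ⟨q, .cons h1 h3, h4⟩

theorem Walk.rep {p : Q} {w : List (Vec d)} (h : Walk T p w p) (n : ℕ) :
    Walk T p (rep n w) p := by
  induction n with
  | zero => exact .nil p
  | succ n ih => rw [rep_succ]; exact h.append ih

theorem Reach.trans {p q r : Q} (h : Reach T p q) (h' : Reach T q r) : Reach T p r := by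
  obtain ⟨u, hu⟩ := h
  obtain ⟨w, hw⟩ := h'
  exact ⟨u ++ w, hu.append hw⟩

theorem Walk.letters {p q : Q} {w : List (Vec d)} (h : Walk T p w q) :
    ∀ v ∈ w, ∃ a b, (a, v, b) ∈ T := by
  induction h with
  | nil p => simp
  | cons h1 _ ih =>
    intro v hv
    rw [List.mem_cons] at hv
    rcases hv with rfl | hv
    · exact ⟨_, _, h1⟩
    · exact ih v hv

/-! ### Runs -/

/-- the natural numbers as integers -/
def zv (x : Fin d → ℕ) : Vec d := fun k => (x k : ℤ)

theorem zv_nonneg (x : Fin d → ℕ) : 0 ≤ zv x := fun _ => Int.natCast_nonneg _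

theorem run_iff {p q : Q} {x y : Fin d → ℕ} {w : List (Vec d)} :
    Run T p x w q y ↔ Walk T p w q ∧ Ok (zv x) w ∧ zv y = zv x + w.sum := by
  constructor
  · intro h
    induction h with
    | nil p x => exact ⟨.nil p, trivial, by simp⟩
    | @cons p p' q v x x' y w h1 h2 _ ih =>
      obtain ⟨h3, h4, h5⟩ := ih
      have e : zv x' = zv x + v := funext fun k => h2 k
      refine ⟨.cons h1 h3, ⟨?_, ?_⟩, ?_⟩
      · rw [← e]; exact zv_nonneg _
      · rw [← e]; exact h4
      · rw [h5, e, List.sum_cons, add_assoc]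
  · rintro ⟨h1, h2, h3⟩
    induction h1 generalizing x with
    | nil p =>
      have : y = x := by
        funext k
        have := congrFun h3 k
        simpa [zv] using this
      rw [this]
      exact .nil p x
    | @cons p p' q v w h4 _ ih =>
      have e : zv (fun k => ((zv x + v) k).toNat) = zv x + v := by
        funext k
        have := h2.1 k
        simp only [zv]
        exact Int.toNat_of_nonneg this
      refine .cons h4 (x' := fun k => ((zv x + v) k).toNat) (fun k => ?_) (ih ?_ ?_)
      · exact congrFun e k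
      · rw [e]; exact h2.2
      · rw [e, h3, List.sum_cons, add_assoc]

/-! ### Flat systems -/

open Classical in
/-- the next transition -/
noncomputable def nxt (T : VASS Q d) (p : Q) : Vec d × Q :=
  if h : ∃ s : Vec d × Q, (p, s.1, s.2) ∈ T ∧ Reach T s.2 p then h.choose else (0, p)

theorem nxt_eq (hT : Flat T) {p q : Q} {v : Vec d} (h : (p, v, q) ∈ T) (hq : Reach T q p) :
    nxt T p = (v, q) := by
  have hex : ∃ s : Vec d × Q, (p, s.1, s.2) ∈ T ∧ Reach T s.2 p := ⟨(v, q), h, hq⟩
  rw [nxt, dif_pos hex]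
  obtain ⟨h1, h2⟩ := hT p _ _ _ _ hex.choose_spec.1 h hex.choose_spec.2 hq
  exact Prod.ext h1 h2

/-- the next state -/
noncomputable def nst (T : VASS Q d) (p : Q) : Q := (nxt T p).2

/-- the label of the `i`-th transition -/
noncomputable def nlb (T : VASS Q d) (p : Q) (i : ℕ) : Vec d := (nxt T ((nst T)^[i] p)).1

theorem walk_det (hT : Flat T) {p q : Q} {w : List (Vec d)} (h : Walk T p w q)
    (hq : Reach T q p) : w = (List.range w.length).map (nlb T p) ∧ (nst T)^[w.length] p = q := by
  induction h with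
  | nil p => simp
  | @cons p p' q v w h1 h2 ih =>
    have h3 : Reach T q p' := hq.trans ⟨[v], .cons h1 (.nil _)⟩
    have h4 : Reach T p' p := Reach.trans ⟨w, h2⟩ hq
    have e := nxt_eq hT h1 h4
    have e1 : nst T p = p' := congrArg Prod.snd e
    have e2 : nlb T p 0 = v := congrArg Prod.fst e
    obtain ⟨h5, h6⟩ := ih h3
    have e3 : nlb T p' = fun i => nlb T p (i + 1) := by
      funext i
      rw [nlb, nlb, Function.iterate_succ_apply, e1]
    refine ⟨?_, ?_⟩
    · rw [List.length_cons, List.range_succ_eq_map, List.map_cons, e2, List.map_map]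
      congr 1
      rw [e3] at h5
      exact h5
    · rw [List.length_cons, Function.iterate_succ_apply, e1]
      exact h6

theorem map_range_mul {α : Type} (f : ℕ → α) (k : ℕ) (hf : ∀ i, f (k + i) = f i) (a : ℕ) :
    (List.range (k * a)).map f = (List.replicate a ((List.range k).map f)).flatten := by
  induction a with
  | zero => simp
  | succ a ih =>
    rw [Nat.mul_succ, Nat.add_comm, List.range_add, List.map_append, List.map_map,
      List.replicate_succ, List.flatten_cons, ← ih]
    congr 1
    refine List.map_congr_left fun i _ => ?_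
    exact hf i

/-- closed walks of flat systems are powers of short closed walks -/
theorem closed_walk [Fintype Q] (hT : Flat T) {p : Q} {u : List (Vec d)} (h : Walk T p u p) :
    ∃ (θ : List (Vec d)) (a : ℕ), u = rep a θ ∧ Walk T p θ p ∧ θ.length ≤ Fintype.card Q := by
  rcases Nat.eq_zero_or_pos u.length with h0 | h0
  · rw [List.length_eq_zero_iff] at h0
    exact ⟨[], 0, by rw [h0, rep_zero], .nil p, Nat.zero_le _⟩
  have hR : Reach T p p := ⟨[], .nil p⟩
  obtain ⟨h1, h2⟩ := walk_det hT h hR
  have hper : Function.IsPeriodicPt (nst T) u.length p := h2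
  set k := Function.minimalPeriod (nst T) p with hk
  obtain ⟨a, ha⟩ : k ∣ u.length := hper.minimalPeriod_dvd
  have hkp : (nst T)^[k] p = p := Function.iterate_minimalPeriod
  have hf : ∀ i, nlb T p (k + i) = nlb T p i := fun i => by
    rw [nlb, nlb, Nat.add_comm, Function.iterate_add_apply, hkp]
  have ha0 : a ≠ 0 := by
    rintro rfl
    omega
  obtain ⟨b, rfl⟩ := Nat.exists_eq_succ_of_ne_zero ha0
  set θ := (List.range k).map (nlb T p) with hθ
  have hθl : θ.length = k := by rw [hθ, List.length_map, List.length_range]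
  have e : u = rep (b + 1) θ := by
    conv_lhs => rw [h1, ha]
    exact map_range_mul _ _ hf _
  refine ⟨θ, b + 1, e, ?_, ?_⟩
  · have h3 := h
    rw [e, rep_succ] at h3
    obtain ⟨q, h4, h5⟩ := h3.split
    obtain ⟨-, h6⟩ := walk_det hT h4 ⟨_, h5⟩
    rw [hθl, hkp] at h6
    rw [← h6] at h4
    exact h4
  · rw [hθl]
    exact Function.minimalPeriod_le_card

/-- walks inside a set of states -/
inductive WalkIn (T : VASS Q d) (S : Finset Q) : Q → List (Vec d) → Q → Prop
  | nil {p : Q} : p ∈ S → WalkIn T S p [] p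
  | cons {p p' q : Q} {v : Vec d} {w : List (Vec d)} :
      p ∈ S → (p, v, p') ∈ T → WalkIn T S p' w q → WalkIn T S p (v :: w) q

theorem WalkIn.walk {S : Finset Q} {p q : Q} {w : List (Vec d)} (h : WalkIn T S p w q) :
    Walk T p w q := by
  induction h with
  | nil _ => exact .nil _
  | cons _ h1 _ ih => exact .cons h1 ih

theorem Walk.walkIn [Fintype Q] {p q : Q} {w : List (Vec d)} (h : Walk T p w q) :
    WalkIn T Finset.univ p w q := by
  induction h with
  | nil _ => exact .nil (mem_univ _)
  | cons h1 _ ih => exact .cons (mem_univ _) h1 ih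

theorem cut [DecidableEq Q] {S : Finset Q} (p : Q) {r q : Q} {w : List (Vec d)}
    (h : WalkIn T S r w q) : WalkIn T (S.erase p) r w q ∨
      ∃ u w', w = u ++ w' ∧ WalkIn T S r u p ∧ ((w' = [] ∧ q = p) ∨
        ∃ v p' w'', w' = v :: w'' ∧ (p, v, p') ∈ T ∧ WalkIn T (S.erase p) p' w'' q) := by
  induction h with
  | @nil r hr =>
    by_cases hp : r = p
    · subst hp
      exact Or.inr ⟨[], [], rfl, .nil hr, Or.inl ⟨rfl, rfl⟩⟩
    · exact Or.inl (.nil (mem_erase.2 ⟨hp, hr⟩))
  | @cons r r' q v w hr h1 h2 ih =>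
    rcases ih with ih | ⟨u, w', e, h3, h4⟩
    · by_cases hp : r = p
      · subst hp
        exact Or.inr ⟨[], v :: w, rfl, .nil hr, Or.inr ⟨v, r', w, rfl, h1, ih⟩⟩
      · exact Or.inl (.cons (mem_erase.2 ⟨hp, hr⟩) h1 ih)
    · refine Or.inr ⟨v :: u, w', by rw [e, List.cons_append], .cons hr h1 h3, h4⟩

theorem WalkIn.start {S : Finset Q} {p q : Q} {w : List (Vec d)} (h : WalkIn T S p w q) :
    p ∈ S := by
  cases h with
  | nil h => exact h
  | cons h _ _ => exact h

/-- walks of flat systems are path schemes -/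
theorem flat_decomp [Fintype Q] [DecidableEq Q] (hT : Flat T) : ∀ (n : ℕ) {S : Finset Q},
    S.card ≤ n → ∀ {p q : Q} {w : List (Vec d)}, WalkIn T S p w q → ∀ {s : Q} {ρ : List (Vec d)},
    Walk T s ρ p → ρ.length ≤ 1 → ∃ I : List (Itm d), unroll I = ρ ++ w ∧
      IsScheme T s (I.map isk) q ∧ I.length ≤ n ∧
      ∀ i ∈ I, i.1.length ≤ 1 ∧ i.2.1.length ≤ Fintype.card Q := by
  intro n
  induction n with
  | zero =>
    intro S hS p q w h
    have : S = ∅ := Finset.card_eq_zero.1 (Nat.le_zero.1 hS)
    have h' := h.start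
    rw [this] at h'
    simp at h'
  | succ n ih =>
    intro S hS p q w h s ρ hρ hρ1
    have hp := h.start
    have hcut : ∃ u w', w = u ++ w' ∧ WalkIn T S p u p ∧ ((w' = [] ∧ q = p) ∨
        ∃ v p' w'', w' = v :: w'' ∧ (p, v, p') ∈ T ∧ WalkIn T (S.erase p) p' w'' q) := by
      rcases cut p h with h' | h'
      · exact absurd h'.start (notMem_erase p S)
      · exact h'
    obtain ⟨u, w', rfl, hu, hw'⟩ := hcut
    obtain ⟨θ, a, rfl, hθ, hθl⟩ := closed_walk hT hu.walk
    rcases hw' with ⟨rfl, rfl⟩ | ⟨v, p', w'', rfl, h1, h2⟩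
    · refine ⟨[(ρ, θ, a)], ?_, ?_, ?_, ?_⟩
      · rw [unroll_cons, unroll_nil, wrd, List.append_nil, List.append_nil]
      · exact .cons hρ hθ (.nil _)
      · simp
      · intro i hi
        rw [List.mem_singleton] at hi
        subst hi
        exact ⟨hρ1, hθl⟩
    · have hS' : (S.erase p).card ≤ n := by
        rw [card_erase_of_mem hp]
        omega
      obtain ⟨I, e1, e2, e3, e4⟩ := ih hS' h2 (s := p) (ρ := [v]) (.cons h1 (.nil _)) le_rfl
      refine ⟨(ρ, θ, a) :: I, ?_, ?_, ?_, ?_⟩
      · rw [unroll_cons, wrd, e1]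
        simp [List.append_assoc]
      · exact .cons hρ hθ e2
      · rw [List.length_cons]
        omega
      · intro i hi
        rw [List.mem_cons] at hi
        rcases hi with rfl | hi
        · exact ⟨hρ1, hθl⟩
        · exact e4 i hi

/-! ### Schemes -/

theorem scheme_walk : ∀ (I : List (Itm d)) {s t : Q}, IsScheme T s (I.map isk) t →
    Walk T s (unroll I) t := by
  intro I
  induction I with
  | nil =>
    intro s t h
    cases h
    exact .nil _
  | cons i I ih =>
    intro s t h
    obtain ⟨α, β, a⟩ := i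
    rw [List.map_cons] at h
    cases h with
    | cons h1 h2 h3 =>
      rw [unroll_cons, wrd]
      exact (h1.append (h2.rep a)).append (ih h3)

theorem scheme_loops : ∀ (I : List (Itm d)) {s t : Q}, IsScheme T s (I.map isk) t →
    ∀ i ∈ I, (∃ p q, Walk T p i.1 q) ∧ ∃ p, Walk T p i.2.1 p := by
  intro I
  induction I with
  | nil => simp
  | cons i I ih =>
    intro s t h j hj
    obtain ⟨α, β, a⟩ := i
    rw [List.map_cons] at h
    cases h with
    | cons h1 h2 h3 =>
      rw [List.mem_cons] at hj
      rcases hj with rfl | hj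
      · exact ⟨⟨_, _, h1⟩, ⟨_, h2⟩⟩
      · exact ih h3 j hj

/-- items of a scheme with exponents -/
def items : List (List (Vec d) × List (Vec d)) → (ℕ → ℕ) → List (Itm d)
  | [], _ => []
  | (α, β) :: L, a => (α, β, a 0) :: items L fun i => a (i + 1)

theorem items_isk (L : List (List (Vec d) × List (Vec d))) (a : ℕ → ℕ) :
    (items L a).map isk = L := by
  induction L generalizing a with
  | nil => rfl
  | cons i L ih => rw [items, List.map_cons, ih]; rfl

theorem items_unroll (L : List (List (Vec d) × List (Vec d))) (a : ℕ → ℕ) :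
    unroll (items L a) = schemeWord L a := by
  induction L generalizing a with
  | nil => rfl
  | cons i L ih => rw [items, unroll_cons, ih, schemeWord, wrd]; rfl

theorem exists_items (I : List (Itm d)) : ∃ a, I = items (I.map isk) a := by
  induction I with
  | nil => exact ⟨fun _ => 0, rfl⟩
  | cons i I ih =>
    obtain ⟨a, ha⟩ := ih
    refine ⟨fun n => if n = 0 then i.2.2 else a (n - 1), ?_⟩
    rw [List.map_cons]
    conv_lhs => rw [ha]
    rfl

/-! ### Norms -/

theorem abs_le_maxNorm {a b : Q} {v : Vec d} (h : (a, v, b) ∈ T) (k : Fin d) :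
    |v k| ≤ maxNorm T := by
  have h1 : (v k).natAbs ≤ supZ v := Finset.le_sup (f := fun k => (v k).natAbs) (mem_univ k)
  have h2 : supZ v ≤ maxNorm T := Finset.le_sup (f := fun t : Q × Vec d × Q => supZ t.2.1) h
  rw [Int.abs_eq_natAbs]
  exact_mod_cast h1.trans h2

theorem n1_le {v : Vec d} {M : ℕ} (h : ∀ k, |v k| ≤ M) : n1 v ≤ d * M := by
  rw [n1]
  refine (Finset.sum_le_sum fun k _ => h k).trans ?_
  simp

theorem wsz_le {w : List (Vec d)} {M : ℕ} (h : ∀ v ∈ w, ∀ k, |v k| ≤ M) :
    wsz w ≤ w.length * (d * M) := by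
  induction w with
  | nil => simp [wsz]
  | cons v w ih =>
    have h1 := n1_le (h v List.mem_cons_self)
    have h2 := ih fun u hu => h u (List.mem_cons_of_mem _ hu)
    have e : wsz (v :: w) = n1 v + wsz w := by simp [wsz]
    rw [e, List.length_cons]
    push_cast
    linarith

theorem sum_le {w : List (Vec d)} {M : ℕ} (h : ∀ v ∈ w, ∀ k, |v k| ≤ M) (k : Fin d) :
    |w.sum k| ≤ w.length * M := by
  induction w with
  | nil => simp
  | cons v w ih =>
    have h1 := h v List.mem_cons_self k
    have h2 := ih fun u hu => h u (List.mem_cons_of_mem _ hu)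
    rw [List.sum_cons, List.length_cons]
    push_cast
    have h3 := abs_add_le (v k) (w.sum k)
    have e : (v + w.sum) k = v k + w.sum k := rfl
    rw [e]
    linarith

end Pool.Agent.EEF
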