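import Pool.Agent.EEF.ThmB
import Pool.Agent.EEF.Defs

/-!
# EEF / Scheme: path schemes

Words of integer vectors, executed from a non-negative configuration. A path scheme
`α₁ β₁^{a₁} α₂ β₂^{a₂} ...`: a covering run along the scheme can be shortened by changing the
exponents only.
-/

set_option autoImplicit false
set_option linter.unusedSectionVars false

namespace Pool.Agent.EEF

open Finset

/-- vectors -/
abbrev Vec (d : ℕ) := Fin d → ℤ

variable {d : ℕ}

/-- all configurations after the start are non-negative -/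
def Ok (x : Vec d) : List (Vec d) → Prop
  | [] => True
  | v :: w => 0 ≤ x + v ∧ Ok (x + v) w

theorem Ok_append (x : Vec d) (u w : List (Vec d)) :
    Ok x (u ++ w) ↔ Ok x u ∧ Ok (x + u.sum) w := by
  induction u generalizing x with
  | nil => simp [Ok]
  | cons v u ih =>
    rw [List.cons_append, Ok, Ok, ih, List.sum_cons, and_assoc, add_assoc]

theorem Ok_end {x : Vec d} (hx : 0 ≤ x) {w : List (Vec d)} (h : Ok x w) : 0 ≤ x + w.sum := by
  induction w generalizing x with
  | nil => simpa using hx
  | cons v w ih =>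
    rw [List.sum_cons, ← add_assoc]
    exact ih h.1 h.2

theorem Ok_between {x y z : Vec d} {w : List (Vec d)} (hx : Ok x w) (hy : Ok y w)
    (h : ∀ k, min (x k) (y k) ≤ z k) : Ok z w := by
  induction w generalizing x y z with
  | nil => trivial
  | cons v w ih =>
    refine ⟨fun k => ?_, ih hx.2 hy.2 fun k => ?_⟩
    · have h1 := hx.1 k
      have h2 := hy.1 k
      have h3 := h k
      simp only [Pi.zero_apply, Pi.add_apply] at *
      rcases min_choice (x k) (y k) with hm | hm <;> rw [hm] at h3 <;> linarith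
    · simp only [Pi.add_apply]
      rw [min_add_add_right]
      have := h k
      linarith

/-- powers of a word -/
def rep (n : ℕ) (w : List (Vec d)) : List (Vec d) := (List.replicate n w).flatten

theorem rep_zero (w : List (Vec d)) : rep 0 w = [] := rfl

theorem rep_succ (n : ℕ) (w : List (Vec d)) : rep (n + 1) w = w ++ rep n w := by
  simp [rep, List.replicate_succ]

theorem rep_one (w : List (Vec d)) : rep 1 w = w := by
  rw [rep_succ, rep_zero, List.append_nil]

theorem rep_add (m n : ℕ) (w : List (Vec d)) : rep (m + n) w = rep m w ++ rep n w := by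
  simp only [rep, List.replicate_add, List.flatten_append]

theorem rep_length (n : ℕ) (w : List (Vec d)) : (rep n w).length = n * w.length := by
  simp [rep]

theorem rep_sum (n : ℕ) (w : List (Vec d)) : (rep n w).sum = n • w.sum := by
  induction n with
  | zero => simp [rep_zero]
  | succ n ih =>
    rw [rep_succ, List.sum_append, ih, succ_nsmul']

theorem Ok_rep {n : ℕ} {x : Vec d} {w : List (Vec d)} (h : ∀ j < n, Ok (x + j • w.sum) w) :
    Ok x (rep n w) := by
  induction n generalizing x with
  | zero => trivial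
  | succ n ih =>
    rw [rep_succ, Ok_append]
    refine ⟨by simpa using h 0 (Nat.succ_pos n), ih fun j hj => ?_⟩
    have := h (j + 1) (by omega)
    rwa [succ_nsmul', ← add_assoc] at this

/-- programs: steps `x ↦ x + b + l c` -/
abbrev Stp (d : ℕ) := Vec d × Vec d × ℕ

/-- effect of a step -/
def eff (s : Stp d) : Vec d := s.1 + s.2.2 • s.2.1

/-- all configurations of the program are non-negative -/
def POk (x : Vec d) : List (Stp d) → Prop
  | [] => True
  | s :: P => 0 ≤ x + eff s ∧ POk (x + eff s) P

/-- total effect -/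
def peff (P : List (Stp d)) : Vec d := (P.map eff).sum

theorem peff_nil : peff ([] : List (Stp d)) = 0 := rfl

theorem peff_cons (s : Stp d) (P : List (Stp d)) : peff (s :: P) = eff s + peff P := by
  simp [peff]

theorem peff_append (P Q : List (Stp d)) : peff (P ++ Q) = peff P + peff Q := by
  simp [peff]

theorem POk_append (x : Vec d) (P Q : List (Stp d)) :
    POk x (P ++ Q) ↔ POk x P ∧ POk (x + peff P) Q := by
  induction P generalizing x with
  | nil => simp [POk, peff_nil]
  | cons s P ih =>
    rw [List.cons_append, POk, POk, ih, peff_cons, and_assoc, add_assoc]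

/-- the skeleton of a step -/
def sk (s : Stp d) : Vec d × Vec d := (s.1, s.2.1)

/-- sum of the multiplicities -/
def mul (P : List (Stp d)) : ℕ := (P.map fun s => s.2.2).sum

theorem mul_append (P Q : List (Stp d)) : mul (P ++ Q) = mul P + mul Q := by simp [mul]

/-- change the multiplicities -/
def setl : List (Stp d) → (ℕ → ℕ) → List (Stp d)
  | [], _ => []
  | s :: P, l => (s.1, s.2.1, l 0) :: setl P fun t => l (t + 1)

theorem setl_sk (P : List (Stp d)) (l : ℕ → ℕ) : (setl P l).map sk = P.map sk := by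
  induction P generalizing l with
  | nil => rfl
  | cons s P ih => rw [setl, List.map_cons, List.map_cons, ih]; rfl

theorem setl_mul (P : List (Stp d)) (l : ℕ → ℕ) :
    mul (setl P l) = ∑ t ∈ range P.length, l t := by
  induction P generalizing l with
  | nil => rfl
  | cons s P ih =>
    rw [List.length_cons, sum_range_succ', add_comm, ← ih fun t => l (t + 1)]
    simp [mul, setl]

theorem setl_self (P : List (Stp d)) : setl P (fun t => (P.getD t (0, 0, 0)).2.2) = P := by
  induction P with
  | nil => rfl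
  | cons s P ih =>
    rw [setl]
    simp only [List.getD_cons_zero, List.getD_cons_succ]
    rw [ih]

/-- the rational data of a program -/
def bl (P : List (Stp d)) (t : ℕ) (k : Fin d) : ℚ := ((P.getD t (0, 0, 0)).1 k : ℚ)

/-- the rational data of a program -/
def cl (P : List (Stp d)) (t : ℕ) (k : Fin d) : ℚ := ((P.getD t (0, 0, 0)).2.1 k : ℚ)

theorem pos_shift {κ : Type} (x : κ → ℚ) (b c : ℕ → κ → ℚ) (l : ℕ → ℚ) (t : ℕ) (k : κ) :
    pos x b c l (t + 1) k = pos (fun k => x k + (b 0 k + l 0 * c 0 k)) (fun t => b (t + 1))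
      (fun t => c (t + 1)) (fun t => l (t + 1)) t k := by
  rw [pos, pos, sum_range_succ']
  ring

theorem POk_iff (P : List (Stp d)) (x : Vec d) (l : ℕ → ℕ) : POk x (setl P l) ↔
    ∀ t < P.length, ∀ k, 0 ≤ pos (fun k => (x k : ℚ)) (bl P) (cl P) (fun t => (l t : ℚ)) (t + 1) k
    := by
  induction P generalizing x l with
  | nil => simp [setl, POk]
  | cons s P ih =>
    rw [setl, POk]
    have e1 : ∀ k, ((x + eff (s.1, s.2.1, l 0)) k : ℚ) =
        (x k : ℚ) + (bl (s :: P) 0 k + (l 0 : ℚ) * cl (s :: P) 0 k) := by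
      intro k
      have e : (x + eff (s.1, s.2.1, l 0)) k = x k + (s.1 k + (l 0 : ℤ) * s.2.1 k) := by
        simp [eff]
      rw [e]
      simp only [bl, cl, List.getD_cons_zero]
      push_cast
      rfl
    have e2 : (fun t => bl (s :: P) (t + 1)) = bl P := by
      funext t k
      simp [bl]
    have e3 : (fun t => cl (s :: P) (t + 1)) = cl P := by
      funext t k
      simp [cl]
    rw [ih]
    constructor
    · rintro ⟨h1, h2⟩ t ht k
      rw [pos_shift, e2, e3]
      rcases t with _ | t
      · rw [pos_zero, ← e1]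
        exact_mod_cast h1 k
      · have := h2 t (by simpa using ht) k
        simp only [e1] at this
        exact this
    · intro h
      refine ⟨fun k => ?_, fun t ht k => ?_⟩
      · have := h 0 (by simp) k
        rw [pos_shift, pos_zero, ← e1] at this
        exact_mod_cast this
      · have := h (t + 1) (by simpa using ht) k
        rw [pos_shift, e2, e3] at this
        simp only [e1]
        exact this

/-- sizes -/
def n1 (v : Vec d) : ℤ := ∑ k, |v k|

theorem n1_nonneg (v : Vec d) : 0 ≤ n1 v := sum_nonneg fun _ _ => abs_nonneg _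

/-- total size of the forced steps -/
def bsum (P : List (Stp d)) : ℤ := (P.map fun s => n1 s.1).sum

theorem bsum_eq (P : List (Stp d)) :
    ∑ t ∈ range P.length, ∑ k, |bl P t k| = (bsum P : ℚ) := by
  induction P with
  | nil => simp [bsum]
  | cons s P ih =>
    rw [List.length_cons, sum_range_succ']
    have e2 : ∀ t, bl (s :: P) (t + 1) = bl P t := fun t => by
      funext k
      simp [bl]
    simp only [e2]
    rw [ih]
    simp only [bsum, List.map_cons, List.sum_cons, n1, bl, List.getD_cons_zero]
    push_cast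
    ring


/-- the bound of theorem B -/
def bnd (T dd N K β : ℚ) (g : ℕ) : ℚ :=
  3 * (T + dd + 1) * (K * (1 + T * (1 + dd * N))) ^ g * (β + T * N + 1)

theorem bnd_mono {T T' dd N K β β' : ℚ} {g : ℕ} (hT : 0 ≤ T) (hTT : T ≤ T') (hd : 0 ≤ dd)
    (hN : 0 ≤ N) (hK : 0 ≤ K) (hβ : 0 ≤ β) (hββ : β ≤ β') :
    bnd T dd N K β g ≤ bnd T' dd N K β' g := by
  unfold bnd
  have hT' : 0 ≤ T' := hT.trans hTT
  have h1 : 0 ≤ 1 + dd * N := by positivity
  gcongr

/-- list form of theorem B -/
theorem listB {x : Vec d} (hx : 0 ≤ x) {P : List (Stp d)} (hP : POk x P) {N K β : ℚ} {T : ℚ}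
    (hT : (P.length : ℚ) ≤ T) (hN : 1 ≤ N) (hc : ∀ s ∈ P, ∀ k, (|s.2.1 k| : ℚ) ≤ N)
    (hβ : (bsum P : ℚ) ≤ β) {W : Submodule ℚ (Fin d → ℚ)} (hW : ∀ s ∈ P, qv s.2.1 ∈ W) {g : ℕ}
    (hg : Module.finrank ℚ W ≤ g) (hK1 : 1 ≤ K) (hK : (d : ℚ) ^ 2 * N * (T + 2) ≤ K) :
    ∃ P' : List (Stp d), P'.map sk = P.map sk ∧ POk x P' ∧ (mul P' : ℚ) ≤ bnd T d N K β g := by
  have hmem : ∀ t < P.length, P.getD t (0, 0, 0) ∈ P := fun t ht => by
    rw [List.getD_eq_getElem _ _ ht]
    exact List.getElem_mem ht
  have h0 : (0 : ℚ) ≤ P.length := Nat.cast_nonneg _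
  have H : SysB P.length N K (bsum P : ℚ) (fun k => (x k : ℚ)) (bl P) (cl P) W g
      (fun t => (P.getD t (0, 0, 0)).2.2) := by
    refine ⟨fun k => by exact_mod_cast hx k, hN, fun t ht k => ?_, fun t ht k hne => ?_,
      (bsum_eq P).le, fun t ht => hW _ (hmem t ht), hg, hK1, ?_, ?_⟩
    · exact hc _ (hmem t ht) k
    · unfold cl at hne ⊢
      have h1 : (P.getD t (0, 0, 0)).2.1 k ≠ 0 := by exact_mod_cast hne
      have h2 := Int.one_le_abs h1
      exact_mod_cast h2
    · rw [Fintype.card_fin]
      refine le_trans ?_ hK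
      have : (0 : ℚ) ≤ (d : ℚ) ^ 2 * N := by positivity
      nlinarith
    · rw [← POk_iff, setl_self]
      exact hP
  obtain ⟨l, hl, hsum⟩ := H.thmB
  refine ⟨setl P l, setl_sk P l, (POk_iff P x l).2 hl, ?_⟩
  rw [setl_mul]
  push_cast
  rw [Fintype.card_fin] at hsum
  refine hsum.trans (bnd_mono h0 hT (Nat.cast_nonneg d) (by linarith) (by linarith) ?_ hβ)
  have : 0 ≤ bsum P := by
    unfold bsum
    refine List.sum_nonneg ?_
    intro a ha
    obtain ⟨s, -, rfl⟩ := List.mem_map.1 ha
    exact n1_nonneg _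
  exact_mod_cast this

/-! ### Items of a path scheme -/

/-- an item `α β^a` -/
abbrev Itm (d : ℕ) := List (Vec d) × List (Vec d) × ℕ

/-- the word of an item -/
def wrd (i : Itm d) : List (Vec d) := i.1 ++ rep i.2.2 i.2.1

/-- the word of a scheme -/
def unroll (I : List (Itm d)) : List (Vec d) := (I.map wrd).flatten

theorem unroll_nil : unroll ([] : List (Itm d)) = [] := rfl

theorem unroll_cons (i : Itm d) (I : List (Itm d)) : unroll (i :: I) = wrd i ++ unroll I := by
  simp [unroll]

theorem unroll_append (I J : List (Itm d)) : unroll (I ++ J) = unroll I ++ unroll J := by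
  simp [unroll]

/-- the skeleton of an item -/
def isk (i : Itm d) : List (Vec d) × List (Vec d) := (i.1, i.2.1)

/-- forced steps -/
def forced (w : List (Vec d)) : List (Stp d) := w.map fun v => (v, 0, 0)

/-- the program of an item -/
def comp (i : Itm d) : List (Stp d) :=
  if i.2.2 ≤ 1 then forced (wrd i)
  else forced (i.1 ++ i.2.1) ++ ((0, i.2.1.sum, i.2.2 - 2) :: forced i.2.1)

theorem forced_eff {w : List (Vec d)} {P : List (Stp d)} (h : P.map sk = (forced w).map sk) :
    peff P = w.sum ∧ ∀ x, POk x P ↔ Ok x w := by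
  induction w generalizing P with
  | nil =>
    have : P = [] := by simpa [forced] using h
    subst this
    exact ⟨rfl, fun x => Iff.rfl⟩
  | cons v w ih =>
    cases P with
    | nil => simp [forced] at h
    | cons s P =>
      have h' : sk s = (v, 0) ∧ P.map sk = (forced w).map sk := by
        simpa [forced, sk] using h
      obtain ⟨h1, h2⟩ := h'
      obtain ⟨h3, h4⟩ := ih h2
      have e : eff s = v := by
        have e1 : s.1 = v := congrArg Prod.fst h1
        have e2 : s.2.1 = 0 := congrArg Prod.snd h1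
        rw [eff, e1, e2, smul_zero, add_zero]
      refine ⟨by rw [peff_cons, e, h3, List.sum_cons], fun x => ?_⟩
      rw [POk, Ok, e, h4]

/-- encoding of an item -/
theorem comp_ok {x : Vec d} (hx : 0 ≤ x) {i : Itm d} (h : Ok x (wrd i)) :
    POk x (comp i) ∧ peff (comp i) = (wrd i).sum := by
  obtain ⟨α, β, a⟩ := i
  unfold comp
  split_ifs with ha
  · obtain ⟨h1, h2⟩ := forced_eff (w := wrd (α, β, a)) rfl
    exact ⟨(h2 x).2 h, h1⟩
  · simp only at ha
    obtain ⟨n, rfl⟩ : ∃ n, a = 1 + n + 1 := ⟨a - 2, by omega⟩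
    have hw : wrd (α, β, 1 + n + 1) = (α ++ β) ++ (rep n β ++ β) := by
      simp only [wrd]
      rw [rep_add (1 + n) 1, rep_add 1 n, rep_one]
      simp [List.append_assoc]
    have hn : 1 + n + 1 - 2 = n := by omega
    rw [hw] at h ⊢
    rw [Ok_append x (α ++ β), Ok_append _ (rep n β)] at h
    obtain ⟨h1, h2, h3⟩ := h
    obtain ⟨e1, e2⟩ := forced_eff (w := α ++ β) rfl
    obtain ⟨e3, e4⟩ := forced_eff (w := β) rfl
    have e5 : eff ((0, β.sum, n) : Stp d) = (rep n β).sum := by
      rw [eff, rep_sum, zero_add]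
    simp only [hn]
    refine ⟨?_, ?_⟩
    · rw [POk_append, e2, POk, e1, e5, e4]
      refine ⟨h1, ?_, h3⟩
      exact Ok_end (Ok_end hx h1) h2
    · rw [peff_append, peff_cons, e1, e5, e3]
      simp [List.sum_append, add_assoc]

/-- decoding of an item -/
theorem comp_dec {x : Vec d} {i : Itm d} {P : List (Stp d)}
    (hP : P.map sk = (comp i).map sk) (h : POk x P) :
    ∃ a' : ℕ, a' ≤ 2 + mul P ∧ Ok x (wrd (i.1, i.2.1, a')) ∧
      peff P = (wrd (i.1, i.2.1, a')).sum := by
  obtain ⟨α, β, a⟩ := i
  unfold comp at hP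
  split_ifs at hP with ha
  · obtain ⟨h1, h2⟩ := forced_eff hP
    simp only at ha
    exact ⟨a, by omega, (h2 x).1 h, h1⟩
  · simp only at hP ⊢
    rw [List.map_append, List.map_eq_append_iff] at hP
    obtain ⟨P₁, P₂, rfl, hP₁, hP₂⟩ := hP
    rw [List.map_cons, List.map_eq_cons_iff] at hP₂
    obtain ⟨s, P₃, rfl, hs, hP₃⟩ := hP₂
    obtain ⟨e1, e2⟩ := forced_eff hP₁
    obtain ⟨e3, e4⟩ := forced_eff hP₃
    obtain ⟨b, c, n⟩ := s
    have hb : b = 0 := congrArg Prod.fst hs
    have hc : c = β.sum := congrArg Prod.snd hs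
    subst hb hc
    have e5 : eff ((0, β.sum, n) : Stp d) = (rep n β).sum := by
      rw [eff, rep_sum, zero_add]
    have hw : wrd (α, β, 1 + n + 1) = (α ++ β) ++ (rep n β ++ β) := by
      simp only [wrd]
      rw [rep_add (1 + n) 1, rep_add 1 n, rep_one]
      simp [List.append_assoc]
    rw [POk_append, e2, POk, e1, e5, e4] at h
    obtain ⟨h1, h2, h3⟩ := h
    refine ⟨1 + n + 1, ?_, ?_, ?_⟩
    · rw [mul_append]
      simp only [mul, List.map_cons, List.sum_cons]
      omega
    · rw [hw, Ok_append x (α ++ β), Ok_append _ (rep n β)]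
      refine ⟨h1, Ok_rep fun j hj => ?_, h3⟩
      have h4 : Ok (x + α.sum) β := ((Ok_append x α β).1 h1).2
      refine Ok_between h4 h3 fun k => ?_
      rw [List.sum_append, rep_sum]
      simp only [Pi.add_apply, Pi.smul_apply]
      simp only [nsmul_eq_mul]
      set s := β.sum k with hs'
      have hj' : (j : ℤ) < n := by exact_mod_cast hj
      have hj0 : (0 : ℤ) ≤ j := Int.natCast_nonneg j
      rcases le_total 0 s with hs0 | hs0
      · refine (min_le_left _ _).trans ?_
        have : 0 ≤ (j : ℤ) * s := mul_nonneg hj0 hs0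
        linarith
      · refine (min_le_right _ _).trans ?_
        have : (n : ℤ) * s ≤ (j : ℤ) * s := mul_le_mul_of_nonpos_right hj'.le hs0
        linarith
    · rw [hw, peff_append, peff_cons, e1, e5, e3]
      simp [List.sum_append, add_assoc]

/-- the program of a scheme -/
def prog (I : List (Itm d)) : List (Stp d) := (I.map comp).flatten

theorem prog_cons (i : Itm d) (I : List (Itm d)) : prog (i :: I) = comp i ++ prog I := by
  simp [prog]

theorem prog_ok {x : Vec d} (hx : 0 ≤ x) {I : List (Itm d)} (h : Ok x (unroll I)) :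
    POk x (prog I) := by
  induction I generalizing x with
  | nil => trivial
  | cons i I ih =>
    rw [unroll_cons, Ok_append] at h
    obtain ⟨h1, h2⟩ := comp_ok hx h.1
    rw [prog_cons, POk_append, h2]
    exact ⟨h1, ih (Ok_end hx h.1) h.2⟩

/-- the forced length of a scheme -/
def flen (I : List (Itm d)) : ℕ := (I.map fun i => i.1.length + 2 * i.2.1.length).sum

theorem prog_dec {I : List (Itm d)} : ∀ {x : Vec d} {P : List (Stp d)} {n₀ : ℕ},
    (∀ i ∈ I, i.2.1.length ≤ n₀) → P.map sk = (prog I).map sk → POk x P →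
    ∃ I' : List (Itm d), I'.map isk = I.map isk ∧ Ok x (unroll I') ∧
      (unroll I').length ≤ flen I + n₀ * mul P := by
  induction I with
  | nil =>
    intro x P n₀ _ _ _
    exact ⟨[], rfl, trivial, Nat.zero_le _⟩
  | cons i I ih =>
    intro x P n₀ hn hP h
    rw [prog_cons, List.map_append, List.map_eq_append_iff] at hP
    obtain ⟨P₁, P₂, rfl, hP₁, hP₂⟩ := hP
    rw [POk_append] at h
    obtain ⟨a', ha', h1, h2⟩ := comp_dec hP₁ h.1
    rw [h2] at h
    obtain ⟨I', e1, e2, e3⟩ := ih (fun j hj => hn j (List.mem_cons_of_mem _ hj)) hP₂ h.2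
    refine ⟨(i.1, i.2.1, a') :: I', ?_, ?_, ?_⟩
    · rw [List.map_cons, List.map_cons, e1]
      rfl
    · rw [unroll_cons, Ok_append]
      exact ⟨h1, e2⟩
    · rw [unroll_cons, List.length_append, wrd, List.length_append, rep_length, mul_append, flen,
        List.map_cons, List.sum_cons]
      rw [flen] at e3
      simp only
      have h3 := hn i List.mem_cons_self
      have h4 : a' * i.2.1.length ≤ 2 * i.2.1.length + n₀ * mul P₁ := by
        calc a' * i.2.1.length ≤ (2 + mul P₁) * i.2.1.length := Nat.mul_le_mul_right _ ha'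
          _ = 2 * i.2.1.length + mul P₁ * i.2.1.length := by ring
          _ ≤ 2 * i.2.1.length + mul P₁ * n₀ := by
            have := Nat.mul_le_mul_left (mul P₁) h3
            omega
          _ = _ := by ring
      rw [Nat.mul_add]
      omega

/-- size of a word -/
def wsz (w : List (Vec d)) : ℤ := (w.map n1).sum

theorem wsz_append (u w : List (Vec d)) : wsz (u ++ w) = wsz u + wsz w := by simp [wsz]

theorem wsz_nonneg (w : List (Vec d)) : 0 ≤ wsz w := by
  refine List.sum_nonneg ?_
  intro a ha
  obtain ⟨s, -, rfl⟩ := List.mem_map.1 ha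
  exact n1_nonneg _

theorem wsz_rep (n : ℕ) (w : List (Vec d)) : wsz (rep n w) = n * wsz w := by
  induction n with
  | zero => simp [rep_zero, wsz]
  | succ n ih =>
    rw [rep_succ, wsz_append, ih]
    push_cast
    ring

theorem bsum_append (P Q : List (Stp d)) : bsum (P ++ Q) = bsum P + bsum Q := by simp [bsum]

theorem bsum_forced (w : List (Vec d)) : bsum (forced w) = wsz w := by
  simp [bsum, forced, wsz, List.map_map, Function.comp_def]

theorem n1_zero : n1 (0 : Vec d) = 0 := by simp [n1]

/-- size of the items -/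
def isz (I : List (Itm d)) : ℤ := (I.map fun i => wsz i.1 + 2 * wsz i.2.1).sum

theorem comp_length (i : Itm d) : (comp i).length ≤ i.1.length + 2 * i.2.1.length + 1 := by
  unfold comp
  split_ifs with ha
  · rw [forced, List.length_map, wrd, List.length_append, rep_length]
    have : i.2.2 * i.2.1.length ≤ 1 * i.2.1.length := Nat.mul_le_mul_right _ ha
    omega
  · simp only [forced, List.length_append, List.length_map, List.length_cons]
    omega

theorem comp_bsum (i : Itm d) : bsum (comp i) ≤ wsz i.1 + 2 * wsz i.2.1 := by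
  have h0 := wsz_nonneg i.2.1
  unfold comp
  split_ifs with ha
  · rw [bsum_forced, wrd, wsz_append, wsz_rep]
    have h1 : (i.2.2 : ℤ) ≤ 1 := by exact_mod_cast ha
    nlinarith
  · rw [bsum_append, bsum_forced, wsz_append]
    have : bsum ((0, i.2.1.sum, i.2.2 - 2) :: forced i.2.1) = wsz i.2.1 := by
      have e := bsum_forced i.2.1
      simp only [bsum, List.map_cons, List.sum_cons, n1_zero, zero_add] at e ⊢
      exact e
    rw [this]
    linarith

theorem comp_c {i : Itm d} {s : Stp d} (hs : s ∈ comp i) : s.2.1 = 0 ∨ s.2.1 = i.2.1.sum := by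
  unfold comp at hs
  split_ifs at hs with ha
  · left
    obtain ⟨v, -, rfl⟩ := List.mem_map.1 hs
    rfl
  · rw [List.mem_append, List.mem_cons] at hs
    rcases hs with h | rfl | h
    · left
      obtain ⟨v, -, rfl⟩ := List.mem_map.1 h
      rfl
    · right
      rfl
    · left
      obtain ⟨v, -, rfl⟩ := List.mem_map.1 h
      rfl

theorem prog_length (I : List (Itm d)) : (prog I).length ≤ flen I + I.length := by
  induction I with
  | nil => exact Nat.zero_le _
  | cons i I ih =>
    rw [prog_cons, List.length_append, flen, List.map_cons, List.sum_cons, List.length_cons]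
    rw [flen] at ih
    have := comp_length i
    omega

theorem prog_bsum (I : List (Itm d)) : bsum (prog I) ≤ isz I := by
  induction I with
  | nil => exact le_rfl
  | cons i I ih =>
    rw [prog_cons, bsum_append, isz, List.map_cons, List.sum_cons]
    rw [isz] at ih
    have := comp_bsum i
    linarith

theorem prog_c {I : List (Itm d)} {s : Stp d} (hs : s ∈ prog I) :
    s.2.1 = 0 ∨ ∃ i ∈ I, s.2.1 = i.2.1.sum := by
  obtain ⟨P, hP, hs⟩ := List.mem_flatten.1 hs
  obtain ⟨i, hi, rfl⟩ := List.mem_map.1 hP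
  rcases comp_c hs with h | h
  · exact Or.inl h
  · exact Or.inr ⟨i, hi, h⟩

/-- **Path schemes.** -/
theorem scheme_core {x y : Vec d} (hx : 0 ≤ x) {I : List (Itm d)} (hOk : Ok x (unroll I))
    (hy : y ≤ x + (unroll I).sum) {N K β T : ℚ} {n₀ : ℕ} (hN : 1 ≤ N)
    (hc : ∀ i ∈ I, ∀ k, (|i.2.1.sum k| : ℚ) ≤ N) (hn : ∀ i ∈ I, i.2.1.length ≤ n₀)
    (hT : (flen I : ℚ) + I.length + 2 ≤ T) (hβ : (isz I : ℚ) + n1 y ≤ β)
    {W : Submodule ℚ (Fin d → ℚ)} (hW : ∀ i ∈ I, qv i.2.1.sum ∈ W) {g : ℕ}
    (hg : Module.finrank ℚ W ≤ g) (hK1 : 1 ≤ K) (hK : (d : ℚ) ^ 2 * N * (T + 2) ≤ K) :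
    ∃ I' : List (Itm d), I'.map isk = I.map isk ∧ Ok x (unroll I') ∧
      y ≤ x + (unroll I').sum ∧
      ((unroll I').length : ℚ) ≤ flen I + n₀ * bnd T d N K β g := by
  -- the scheme with the last letter `-y`
  set J : List (Itm d) := I ++ [([-y], [], 0)] with hJ
  have hJu : unroll J = unroll I ++ [-y] := by
    rw [hJ, unroll_append, unroll_cons, unroll_nil, wrd]
    simp [rep_zero]
  have hJok : Ok x (unroll J) := by
    rw [hJu, Ok_append]
    refine ⟨hOk, ?_, trivial⟩
    intro k
    have := hy k
    simp only [Pi.add_apply, Pi.zero_apply, Pi.neg_apply] at this ⊢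
    linarith
  have hP := prog_ok hx hJok
  have hcZ : ∀ s ∈ prog J, s.2.1 = 0 ∨ ∃ i ∈ I, s.2.1 = i.2.1.sum := by
    intro s hs
    rcases prog_c hs with h | ⟨i, hi, h⟩
    · exact Or.inl h
    · rw [hJ, List.mem_append, List.mem_singleton] at hi
      rcases hi with hi | rfl
      · exact Or.inr ⟨i, hi, h⟩
      · exact Or.inl h
  have hflen : flen J = flen I + 1 := by simp [flen, hJ]
  obtain ⟨P', h1, h2, h3⟩ := listB hx hP (N := N) (K := K) (β := β) (T := T) (by
      have e := prog_length J
      have e' : ((prog J).length : ℚ) ≤ flen I + I.length + 2 := by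
        have : J.length = I.length + 1 := by simp [hJ]
        rw [hflen, this] at e
        have e2 : (prog J).length ≤ flen I + I.length + 2 := by omega
        exact_mod_cast e2
      linarith) hN (fun s hs k => by
      rcases hcZ s hs with h | ⟨i, hi, h⟩
      · rw [h]
        simp
        linarith
      · rw [h]
        exact hc i hi k) (by
      have e := prog_bsum J
      have e2 : isz J = isz I + n1 y := by
        simp [isz, hJ, wsz, n1]
      rw [e2] at e
      have e3 : ((bsum (prog J) : ℤ) : ℚ) ≤ ((isz I + n1 y : ℤ) : ℚ) := by exact_mod_cast e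
      push_cast at e3
      linarith) (W := W) (fun s hs => by
      rcases hcZ s hs with h | ⟨i, hi, h⟩
      · rw [h]
        have : qv (0 : Vec d) = 0 := by
          funext k
          simp [qv]
        rw [this]
        exact W.zero_mem
      · rw [h]
        exact hW i hi) hg hK1 hK
  obtain ⟨J', e1, e2, e3⟩ := prog_dec (I := J) (n₀ := n₀) (fun i hi => by
    rw [hJ, List.mem_append, List.mem_singleton] at hi
    rcases hi with hi | rfl
    · exact hn i hi
    · exact Nat.zero_le _) h1 h2
  rw [hJ, List.map_append, List.map_eq_append_iff] at e1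
  obtain ⟨I', L, rfl, e4, e5⟩ := e1
  rw [List.map_singleton, List.map_eq_singleton_iff] at e5
  obtain ⟨i, rfl, e6⟩ := e5
  obtain ⟨α, γ, a⟩ := i
  have hα : α = [-y] := congrArg Prod.fst e6
  have hγ : γ = [] := congrArg Prod.snd e6
  subst hα hγ
  have hrep : rep a ([] : List (Vec d)) = [] := by
    rw [← List.length_eq_zero_iff, rep_length, List.length_nil, Nat.mul_zero]
  have hu : unroll (I' ++ [([-y], [], a)]) = unroll I' ++ [-y] := by
    rw [unroll_append, unroll_cons, unroll_nil, wrd]
    simp [hrep]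
  rw [hu, Ok_append] at e2
  rw [hu, List.length_append, List.length_singleton, hflen] at e3
  refine ⟨I', e4, e2.1, ?_, ?_⟩
  · intro k
    have := e2.2.1 k
    simp only [Pi.add_apply, Pi.zero_apply, Pi.neg_apply] at this ⊢
    linarith
  · have e7 : (unroll I').length ≤ flen I + n₀ * mul P' := by omega
    have e8 : ((unroll I').length : ℚ) ≤ flen I + n₀ * mul P' := by exact_mod_cast e7
    have e9 := mul_le_mul_of_nonneg_left h3 (Nat.cast_nonneg (α := ℚ) n₀)
    linarith

end Pool.Agent.EEF
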