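import Pool.Agent.EEF.Farkas

/-!
# EEF / ThmA: small rational solutions of a path system

Positions `p (t+1) = p t + b t + l t * c t`, `p 0 = x ≥ 0`. If some `l ≥ 0` keeps all positions
non-negative then some `l ≥ 0` with `∑ l ≤ 2 (β+1) (1 + T (1 + d N))^g` does, `g` the rank of the
vectors `c t`, `N` a bound of their (integer) entries, `β` the total size of the `b t`.
-/

set_option autoImplicit false
set_option linter.unusedSectionVars false

namespace Pool.Agent.EEF

open Finset

variable {κ : Type} [Fintype κ]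

/-- positions -/
def pos (x : κ → ℚ) (b c : ℕ → κ → ℚ) (l : ℕ → ℚ) (t : ℕ) (k : κ) : ℚ :=
  x k + ∑ τ ∈ range t, (b τ k + l τ * c τ k)

theorem pos_zero (x : κ → ℚ) (b c : ℕ → κ → ℚ) (l : ℕ → ℚ) (k : κ) : pos x b c l 0 k = x k := by
  simp [pos]

theorem pos_succ (x : κ → ℚ) (b c : ℕ → κ → ℚ) (l : ℕ → ℚ) (t : ℕ) (k : κ) :
    pos x b c l (t + 1) k = pos x b c l t k + (b t k + l t * c t k) := by
  simp [pos, sum_range_succ, add_assoc]

theorem pos_eq (x : κ → ℚ) (b c : ℕ → κ → ℚ) (l : ℕ → ℚ) (t : ℕ) (k : κ) :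
    pos x b c l t k = pos x b c 0 t k + ∑ τ ∈ range t, l τ * c τ k := by
  simp [pos, sum_add_distrib, add_assoc]

/-- prices -/
def price (T : ℕ) (m : ℕ → κ → ℚ) (t : ℕ) (k : κ) : ℚ := ∑ τ ∈ Ico t T, m τ k

theorem price_end (T : ℕ) (m : ℕ → κ → ℚ) (k : κ) : price T m T k = 0 := by
  simp [price]

theorem price_succ {T t : ℕ} (m : ℕ → κ → ℚ) (k : κ) (ht : t < T) :
    price T m t k = m t k + price T m (t + 1) k := by
  rw [price, price, Finset.sum_eq_sum_Ico_succ_bot ht]

theorem price_nonneg {T : ℕ} {m : ℕ → κ → ℚ} (hm : ∀ t k, 0 ≤ m t k) (t : ℕ) (k : κ) :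
    0 ≤ price T m t k := sum_nonneg fun _ _ => hm _ _

theorem price_anti {T : ℕ} {m : ℕ → κ → ℚ} (hm : ∀ t k, 0 ≤ m t k) {t t' : ℕ} (h : t ≤ t')
    (k : κ) : price T m t' k ≤ price T m t k :=
  sum_le_sum_of_subset_of_nonneg (Ico_subset_Ico_left h) fun _ _ _ => hm _ _

/-- the exchange of the order of summation -/
theorem star (T : ℕ) (x : κ → ℚ) (b c : ℕ → κ → ℚ) (l : ℕ → ℚ) (m : ℕ → κ → ℚ) :
    ∑ τ ∈ range T, ∑ k, m τ k * pos x b c l (τ + 1) k =
      (∑ τ ∈ range T, ∑ k, m τ k * pos x b c 0 (τ + 1) k) +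
        ∑ t ∈ range T, l t * ∑ k, price T m t k * c t k := by
  have h1 : ∀ τ k, m τ k * pos x b c l (τ + 1) k =
      m τ k * pos x b c 0 (τ + 1) k + m τ k * ∑ σ ∈ range (τ + 1), l σ * c σ k := by
    intro τ k
    rw [pos_eq x b c l, mul_add]
  simp only [h1, sum_add_distrib]
  congr 1
  have h2 : ∀ k, ∑ τ ∈ range T, m τ k * ∑ σ ∈ range (τ + 1), l σ * c σ k =
      ∑ t ∈ range T, l t * (price T m t k * c t k) := by
    intro k
    simp only [mul_sum]
    rw [sum_comm' (t' := range T) (s' := fun σ => Ico σ T)]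
    · refine sum_congr rfl fun t _ => ?_
      rw [price, sum_mul, mul_sum]
      exact sum_congr rfl fun τ _ => by ring
    · intro τ σ
      simp only [mem_range, mem_Ico]
      omega
  rw [sum_comm]
  simp only [h2]
  rw [sum_comm]
  refine sum_congr rfl fun t _ => ?_
  rw [mul_sum]

/-- duality for path systems with a budget (`β0 = 1`) or without (`β0 = 0`) -/
theorem dual (T : ℕ) (x : κ → ℚ) (b c : ℕ → κ → ℚ) (u : ℕ → κ → Prop) (e : ℚ) (β0 S : ℚ)
    (h : ¬ ∃ l : ℕ → ℚ, (∀ t, 0 ≤ l t) ∧ (∀ t < T, ∀ k, u t k → e ≤ pos x b c l (t + 1) k) ∧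
      β0 * ∑ t ∈ range T, l t ≤ β0 * S) :
    ∃ (m : ℕ → κ → ℚ) (φ : ℚ), (∀ t k, 0 ≤ m t k) ∧ (∀ t k, ¬ u t k → m t k = 0) ∧ 0 ≤ φ ∧
      (∀ t < T, ∑ k, price T m t k * c t k ≤ φ * β0) ∧
      (∑ τ ∈ range T, ∑ k, m τ k * (pos x b c 0 (τ + 1) k - e)) + φ * (β0 * S) < 0 := by
  classical
  set U : Finset (ℕ × κ) := (range T ×ˢ univ).filter fun p => u p.1 p.2 with hU
  rcases farkas (range T) (ι := Option (ℕ × κ)) (insertNone U)
    (fun i t => i.elim (-β0) fun p => if t ∈ range (p.1 + 1) then c t p.2 else 0)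
    (fun i => i.elim (-(β0 * S)) fun p => e - pos x b c 0 (p.1 + 1) p.2)
    with ⟨l, hl, hl2⟩ | ⟨μ, hμ, hμ2, hμ3⟩
  · exfalso
    refine h ⟨l, hl, fun t ht k hu => ?_, ?_⟩
    · have h1 := hl2 (some (t, k)) (by
        rw [some_mem_insertNone, hU, mem_filter]
        exact ⟨mem_product.2 ⟨mem_range.2 ht, mem_univ _⟩, hu⟩)
      simp only [Option.elim_some, ite_mul, zero_mul] at h1
      rw [← sum_filter, Finset.filter_mem_eq_inter, inter_eq_right.2 (range_subset_range.2 ht)] at h1
      rw [pos_eq]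
      have h2 : ∑ i ∈ range (t + 1), c i k * l i = ∑ i ∈ range (t + 1), l i * c i k :=
        sum_congr rfl fun i _ => mul_comm _ _
      rw [h2] at h1
      linarith
    · have h1 := hl2 none (by simp)
      simp only [Option.elim_none] at h1
      rw [← mul_sum] at h1
      linarith
  · have hsum : ∀ X : ℕ → κ → ℚ, ∑ p ∈ U, μ (some p) * X p.1 p.2 =
        ∑ τ ∈ range T, ∑ k, (if u τ k then μ (some (τ, k)) else 0) * X τ k := by
      intro X
      rw [hU, sum_filter, sum_product]
      refine sum_congr rfl fun τ _ => sum_congr rfl fun k _ => ?_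
      split_ifs
      · rfl
      · rw [zero_mul]
    refine ⟨fun t k => if u t k then μ (some (t, k)) else 0, μ none, fun t k => ?_,
      fun t k hu => ?_, hμ none, fun t ht => ?_, ?_⟩
    · show (0 : ℚ) ≤ if u t k then μ (some (t, k)) else 0
      split_ifs
      · exact hμ _
      · exact le_rfl
    · show (if u t k then μ (some (t, k)) else 0) = 0
      rw [if_neg hu]
    · have h1 := hμ2 t (mem_range.2 ht)
      rw [sum_insertNone] at h1
      simp only [Option.elim_none, Option.elim_some] at h1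
      rw [hsum fun τ k => if t ∈ range (τ + 1) then c t k else 0] at h1
      have h2 : ∑ τ ∈ range T, ∑ k, (if u τ k then μ (some (τ, k)) else 0) *
          (if t ∈ range (τ + 1) then c t k else 0) =
          ∑ k, price T (fun t k => if u t k then μ (some (t, k)) else 0) t k * c t k := by
        rw [sum_comm]
        refine sum_congr rfl fun k _ => ?_
        rw [price, sum_mul]
        have h3 : ∀ τ ∈ range T, (if u τ k then μ (some (τ, k)) else 0) *
            (if t ∈ range (τ + 1) then c t k else 0) =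
            if t ≤ τ then (if u τ k then μ (some (τ, k)) else 0) * c t k else 0 := by
          intro τ _
          by_cases htτ : t ≤ τ
          · have hmem : t ∈ range (τ + 1) := mem_range.2 (by omega)
            simp only [if_pos htτ, if_pos hmem]
          · have hmem : t ∉ range (τ + 1) := fun h' => htτ (by rw [mem_range] at h'; omega)
            simp only [if_neg htτ, if_neg hmem, mul_zero]
        rw [sum_congr rfl h3, ← sum_filter]
        refine sum_congr ?_ fun _ _ => rfl
        ext τ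
        simp only [mem_filter, mem_range, mem_Ico]
        omega
      rw [h2] at h1
      linarith
    · rw [sum_insertNone] at hμ3
      simp only [Option.elim_none, Option.elim_some] at hμ3
      rw [hsum fun τ k => e - pos x b c 0 (τ + 1) k] at hμ3
      have h2 : ∑ τ ∈ range T, ∑ k, (if u τ k then μ (some (τ, k)) else 0) *
          (e - pos x b c 0 (τ + 1) k) =
          -∑ τ ∈ range T, ∑ k, (if u τ k then μ (some (τ, k)) else 0) *
            (pos x b c 0 (τ + 1) k - e) := by
        rw [← sum_neg_distrib]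
        refine sum_congr rfl fun τ _ => ?_
        rw [← sum_neg_distrib]
        exact sum_congr rfl fun k _ => by ring
      rw [h2] at hμ3
      linarith

/-- the vectors of `W` which vanish on `S` -/
def Kr (W : Submodule ℚ (κ → ℚ)) (S : Set κ) : Submodule ℚ (κ → ℚ) where
  carrier := {v | v ∈ W ∧ ∀ k ∈ S, v k = 0}
  add_mem' := by
    rintro v w ⟨h1, h2⟩ ⟨h3, h4⟩
    refine ⟨W.add_mem h1 h3, fun k hk => ?_⟩
    rw [Pi.add_apply, h2 k hk, h4 k hk, add_zero]
  zero_mem' := ⟨W.zero_mem, fun _ _ => rfl⟩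
  smul_mem' := by
    rintro a v ⟨h1, h2⟩
    refine ⟨W.smul_mem a h1, fun k hk => ?_⟩
    rw [Pi.smul_apply, h2 k hk, smul_zero]

theorem mem_Kr {W : Submodule ℚ (κ → ℚ)} {S : Set κ} {v : κ → ℚ} :
    v ∈ Kr W S ↔ v ∈ W ∧ ∀ k ∈ S, v k = 0 := Iff.rfl

theorem Kr_le (W : Submodule ℚ (κ → ℚ)) (S : Set κ) : Kr W S ≤ W := fun _ h => h.1

theorem Kr_anti (W : Submodule ℚ (κ → ℚ)) {S S' : Set κ} (h : S ⊆ S') : Kr W S' ≤ Kr W S :=
  fun _ hv => ⟨hv.1, fun k hk => hv.2 k (h hk)⟩

theorem Kr_mono_rank (W : Submodule ℚ (κ → ℚ)) {S S' : Set κ} (h : S ⊆ S') :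
    Module.finrank ℚ (Kr W S') ≤ Module.finrank ℚ (Kr W S) :=
  Submodule.finrank_mono (Kr_anti W h)

theorem Kr_lt {W : Submodule ℚ (κ → ℚ)} {S S' : Set κ} (h : S' ⊆ S) {v : κ → ℚ} (hv : v ∈ W)
    (h0 : ∀ k ∈ S', v k = 0) {k : κ} (hk : k ∈ S) (hvk : v k ≠ 0) :
    Module.finrank ℚ (Kr W S) < Module.finrank ℚ (Kr W S') := by
  refine Submodule.finrank_lt_finrank_of_lt (lt_of_le_of_ne (Kr_anti W h) fun he => ?_)
  have h1 : v ∈ Kr W S' := ⟨hv, h0⟩
  rw [← he] at h1
  exact hvk (h1.2 k hk)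

/-- a feasible solution together with optimal prices -/
structure Priced (T : ℕ) (N : ℚ) (b c p : ℕ → κ → ℚ) (l : ℕ → ℚ) (m : ℕ → κ → ℚ) (β : ℚ) :
    Prop where
  hp : ∀ t ≤ T, ∀ k, 0 ≤ p t k
  step : ∀ t < T, ∀ k, p (t + 1) k = p t k + (b t k + l t * c t k)
  hl : ∀ t, 0 ≤ l t
  hm : ∀ t k, 0 ≤ m t k
  hN : 0 ≤ N
  hc : ∀ t < T, ∀ k, |c t k| ≤ N
  hcZ : ∀ t < T, ∀ k, c t k ≠ 0 → 1 ≤ |c t k|
  hβ : ∑ τ ∈ range T, ∑ k, |b τ k| ≤ β
  hprice : ∀ t < T, ∑ k, price T m t k * c t k ≤ 1
  hsum : ∑ τ ∈ range T, ((∑ k, m τ k * p (τ + 1) k) +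
    l τ * (1 - ∑ k, price T m τ k * c τ k)) ≤ 1

/-- the potential -/
def pot (T : ℕ) (p : ℕ → κ → ℚ) (l : ℕ → ℚ) (m : ℕ → κ → ℚ) (w : ℚ) (t : ℕ) : ℚ :=
  (∑ τ ∈ Ico t T, l τ) + ∑ k, min (price T m t k) w * p t k

/-- the constants -/
def Ac (β : ℚ) (q : ℚ) : ℕ → ℚ
  | 0 => β + 1
  | r + 1 => (β + 1) + q * (Ac β q r + (β + 1))

theorem Ac_ge {β q : ℚ} (hβ : 0 ≤ β) (hq : 0 ≤ q) (r : ℕ) : β + 1 ≤ Ac β q r := by
  induction r with
  | zero => exact le_of_eq rfl
  | succ r ih =>
    rw [Ac]
    have : 0 ≤ q * (Ac β q r + (β + 1)) := mul_nonneg hq (by linarith)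
    linarith

theorem Ac_bound {β q : ℚ} (hβ : 0 ≤ β) (hq : 0 ≤ q) (r : ℕ) :
    Ac β q r + (β + 1) ≤ 2 * (β + 1) * (1 + q) ^ r := by
  induction r with
  | zero =>
    rw [Ac, pow_zero]
    linarith
  | succ r ih =>
    rw [Ac, pow_succ]
    have h1 := mul_le_mul_of_nonneg_left ih (show 0 ≤ 1 + q by linarith)
    have h2 := Ac_ge hβ hq r
    linarith

theorem Ac_nonneg {β q : ℚ} (hβ : 0 ≤ β) (hq : 0 ≤ q) (r : ℕ) : 0 ≤ Ac β q r := by
  induction r with
  | zero =>
    rw [Ac]
    linarith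
  | succ r ih =>
    rw [Ac]
    have : 0 ≤ q * (Ac β q r + (β + 1)) := mul_nonneg hq (by linarith)
    linarith

namespace Priced

variable {T : ℕ} {N : ℚ} {b c p : ℕ → κ → ℚ} {l : ℕ → ℚ} {m : ℕ → κ → ℚ} {β : ℚ}

theorem slack_nonneg (H : Priced T N b c p l m β) {t : ℕ} (ht : t < T) :
    0 ≤ ∑ k, m t k * p (t + 1) k :=
  sum_nonneg fun k _ => mul_nonneg (H.hm t k) (H.hp _ ht k)

theorem loss_nonneg (H : Priced T N b c p l m β) {t : ℕ} (ht : t < T) :
    0 ≤ l t * (1 - ∑ k, price T m t k * c t k) :=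
  mul_nonneg (H.hl t) (by linarith [H.hprice t ht])

theorem slack_le (H : Priced T N b c p l m β) {t : ℕ} (ht : t < T) :
    ∑ k, m t k * p (t + 1) k ≤ 1 := by
  have h1 := H.hsum
  have h2 : (∑ k, m t k * p (t + 1) k) + l t * (1 - ∑ k, price T m t k * c t k) ≤
      ∑ τ ∈ range T, ((∑ k, m τ k * p (τ + 1) k) + l τ * (1 - ∑ k, price T m τ k * c τ k)) :=
    single_le_sum (f := fun τ => (∑ k, m τ k * p (τ + 1) k) +
      l τ * (1 - ∑ k, price T m τ k * c τ k))
      (fun τ hτ => add_nonneg (H.slack_nonneg (mem_range.1 hτ)) (H.loss_nonneg (mem_range.1 hτ)))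
      (mem_range.2 ht)
  linarith [H.loss_nonneg ht]

theorem one_slack_le (H : Priced T N b c p l m β) {t : ℕ} (ht : t < T) (k : κ) :
    m t k * p (t + 1) k ≤ 1 :=
  (single_le_sum (f := fun k => m t k * p (t + 1) k)
    (fun k _ => mul_nonneg (H.hm t k) (H.hp _ ht k)) (mem_univ k)).trans (H.slack_le ht)

theorem b_le (H : Priced T N b c p l m β) {t : ℕ} (ht : t < T) (k : κ) : |b t k| ≤ β := by
  refine le_trans ?_ H.hβ
  refine le_trans ?_ (single_le_sum (f := fun τ => ∑ k, |b τ k|)
    (fun τ _ => sum_nonneg fun k _ => abs_nonneg _) (mem_range.2 ht))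
  exact single_le_sum (f := fun k => |b t k|) (fun k _ => abs_nonneg _) (mem_univ k)

theorem beta_nonneg (H : Priced T N b c p l m β) : 0 ≤ β :=
  le_trans (sum_nonneg fun _ _ => sum_nonneg fun _ _ => abs_nonneg _) H.hβ

theorem min_nonneg (H : Priced T N b c p l m β) {w : ℚ} (hw : 0 ≤ w) (t : ℕ) (k : κ) :
    0 ≤ min (price T m t k) w := le_min (price_nonneg H.hm t k) hw

theorem pot_ge (H : Priced T N b c p l m β) {w : ℚ} (hw : 0 ≤ w) {t : ℕ} (ht : t ≤ T) (k : κ) :
    min (price T m t k) w * p t k ≤ pot T p l m w t := by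
  rw [pot]
  have h1 : 0 ≤ ∑ τ ∈ Ico t T, l τ := sum_nonneg fun τ _ => H.hl τ
  have h2 := single_le_sum (f := fun k => min (price T m t k) w * p t k)
    (fun k _ => mul_nonneg (H.min_nonneg hw t k) (H.hp t ht k)) (mem_univ k)
  linarith

theorem pot_step (H : Priced T N b c p l m β) {w : ℚ} (hw : 0 ≤ w) {t : ℕ} (ht : t < T) :
    pot T p l m w t ≤ pot T p l m w (t + 1) + w * (∑ k, |b t k|) + (∑ k, m t k * p (t + 1) k) +
      l t * (1 - ∑ k, min (price T m t k) w * c t k) := by
  have h1 : ∀ k, min (price T m t k) w * p t k ≤ min (price T m (t + 1) k) w * p (t + 1) k +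
      w * |b t k| + m t k * p (t + 1) k - l t * (min (price T m t k) w * c t k) := by
    intro k
    have e1 := price_succ (T := T) m k ht
    have e2 := H.step t ht k
    set M := min (price T m t k) w with hM
    set M' := min (price T m (t + 1) k) w with hM'
    have hM0 : 0 ≤ M := H.min_nonneg hw t k
    have hMw : M ≤ w := min_le_right _ _
    have hm0 := H.hm t k
    have hMM : M ≤ M' + m t k := by
      rw [hM, hM', e1]
      rcases le_total (price T m (t + 1) k) w with h | h
      · rw [min_eq_left h]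
        exact (min_le_left _ _).trans (by linarith)
      · rw [min_eq_right h]
        exact (min_le_right _ _).trans (by linarith)
    have hp1 := H.hp (t + 1) ht k
    have f1 : (M - M') * p (t + 1) k ≤ m t k * p (t + 1) k :=
      mul_le_mul_of_nonneg_right (by linarith) hp1
    have f2 : -(M * b t k) ≤ w * |b t k| := by
      have g1 : M * |b t k| ≤ w * |b t k| := mul_le_mul_of_nonneg_right hMw (abs_nonneg _)
      have g2 : M * (-b t k) ≤ M * |b t k| := mul_le_mul_of_nonneg_left (neg_le_abs _) hM0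
      linarith
    have f3 : M * p t k = M * p (t + 1) k - M * b t k - l t * (M * c t k) := by
      rw [e2]
      ring
    linarith
  have h2 := sum_le_sum (s := univ) fun k _ => h1 k
  simp only [sum_sub_distrib, sum_add_distrib, ← mul_sum] at h2
  rw [pot, pot, Finset.sum_eq_sum_Ico_succ_bot ht]
  linarith

/-- the main estimate -/
theorem main (H : Priced T N b c p l m β) {W : Submodule ℚ (κ → ℚ)}
    (hW : ∀ t < T, c t ∈ W) {g : ℕ} (hg : Module.finrank ℚ W ≤ g) (r : ℕ) :
    ∀ (w : ℚ) (t : ℕ), 1 ≤ w → t ≤ T →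
      g ≤ Module.finrank ℚ (Kr W {k | w < price T m t k}) + r →
      pot T p l m w t ≤ Ac β (T * (1 + Fintype.card κ * N)) r * w := by
  have hN := H.hN
  have hβ0 := H.beta_nonneg
  have hT0 : (0 : ℚ) ≤ T := Nat.cast_nonneg T
  have hd0 : (0 : ℚ) ≤ Fintype.card κ := Nat.cast_nonneg _
  have hq0 : (0 : ℚ) ≤ 1 + Fintype.card κ * N := by positivity
  -- the general summation
  have sumup : ∀ (G : ℚ), 0 ≤ G → ∀ (w : ℚ), 1 ≤ w → ∀ r : ℕ,
      (∀ t < T, g ≤ Module.finrank ℚ (Kr W {k | w < price T m t k}) + r →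
        l t * (1 - ∑ k, min (price T m t k) w * c t k) ≤
          l t * (1 - ∑ k, price T m t k * c t k) + w * G) →
      ∀ n t, t + n = T → g ≤ Module.finrank ℚ (Kr W {k | w < price T m t k}) + r →
      pot T p l m w t ≤ w * (∑ τ ∈ Ico t T, ∑ k, |b τ k|) +
        (∑ τ ∈ Ico t T, ((∑ k, m τ k * p (τ + 1) k) +
          l τ * (1 - ∑ k, price T m τ k * c τ k))) + n * (w * G) := by
    intro G hG w hw r hstep n
    induction n with
    | zero =>
      intro t ht _
      have ht' : t = T := by omega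
      subst ht'
      have h0 : pot t p l m w t = 0 := by
        rw [pot, Ico_self, sum_empty, zero_add]
        refine sum_eq_zero fun k _ => ?_
        rw [price_end, min_eq_left (by linarith), zero_mul]
      rw [h0, Ico_self]
      simp
    | succ n ih =>
      intro t ht hr
      have htT : t < T := by omega
      have h1 := H.pot_step (w := w) (by linarith) htT
      have h2 := hstep t htT hr
      have hsub : {k | w < price T m (t + 1) k} ⊆ {k | w < price T m t k} := fun k hk =>
        lt_of_lt_of_le hk (price_anti H.hm (Nat.le_succ t) k)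
      have h3 := ih (t + 1) (by omega) (hr.trans (by
        have := Kr_mono_rank W hsub
        omega))
      rw [Finset.sum_eq_sum_Ico_succ_bot htT, Finset.sum_eq_sum_Ico_succ_bot htT]
      push_cast
      linarith
  -- conclusion from a step estimate
  have concl : ∀ (G : ℚ), 0 ≤ G → ∀ (w : ℚ), 1 ≤ w → ∀ r : ℕ,
      (∀ t < T, g ≤ Module.finrank ℚ (Kr W {k | w < price T m t k}) + r →
        l t * (1 - ∑ k, min (price T m t k) w * c t k) ≤
          l t * (1 - ∑ k, price T m t k * c t k) + w * G) →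
      ∀ t ≤ T, g ≤ Module.finrank ℚ (Kr W {k | w < price T m t k}) + r →
      pot T p l m w t ≤ ((β + 1) + T * G) * w := by
    intro G hG w hw r hstep t ht hr
    have h1 := sumup G hG w hw r hstep (T - t) t (by omega) hr
    have h2 : ∑ τ ∈ Ico t T, ∑ k, |b τ k| ≤ β := by
      refine le_trans ?_ H.hβ
      rw [range_eq_Ico]
      exact sum_le_sum_of_subset_of_nonneg (Ico_subset_Ico_left (Nat.zero_le t))
        fun _ _ _ => sum_nonneg fun _ _ => abs_nonneg _
    have h3 : ∑ τ ∈ Ico t T, ((∑ k, m τ k * p (τ + 1) k) +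
        l τ * (1 - ∑ k, price T m τ k * c τ k)) ≤ 1 := by
      refine le_trans ?_ H.hsum
      rw [range_eq_Ico]
      exact sum_le_sum_of_subset_of_nonneg (Ico_subset_Ico_left (Nat.zero_le t))
        fun τ hτ _ => add_nonneg (H.slack_nonneg (mem_Ico.1 hτ).2) (H.loss_nonneg (mem_Ico.1 hτ).2)
    have h4 : ((T - t : ℕ) : ℚ) ≤ T := by exact_mod_cast Nat.sub_le T t
    have h5 : ((T - t : ℕ) : ℚ) * (w * G) ≤ T * (w * G) :=
      mul_le_mul_of_nonneg_right h4 (mul_nonneg (by linarith) hG)
    have h6 := mul_le_mul_of_nonneg_left h2 (show 0 ≤ w by linarith)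
    nlinarith
  -- case (a): the prices above `w` do not matter
  have casea : ∀ (w : ℚ) (t : ℕ), (∀ k, w < price T m t k → c t k = 0) →
      ∑ k, min (price T m t k) w * c t k = ∑ k, price T m t k * c t k := by
    intro w t h
    refine sum_congr rfl fun k _ => ?_
    by_cases hk : w < price T m t k
    · rw [h k hk, mul_zero, mul_zero]
    · rw [min_eq_left (not_lt.1 hk)]
  -- case (b): rank drop
  have caseb : ∀ (w : ℚ) (t : ℕ), t < T → ¬ (∀ k, w < price T m t k → c t k = 0) →
      ∃ k, c t k ≠ 0 ∧ w < price T m t k ∧ Module.finrank ℚ (Kr W {k' | w < price T m t k'}) <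
        Module.finrank ℚ (Kr W {k' | price T m t k < price T m t k'}) := by
    intro w t ht h
    push Not at h
    obtain ⟨k₁, hk₁, hck₁⟩ := h
    obtain ⟨k, hk, hmax⟩ := (univ.filter fun k => c t k ≠ 0).exists_max_image
      (fun k => price T m t k) ⟨k₁, mem_filter.2 ⟨mem_univ _, hck₁⟩⟩
    rw [mem_filter] at hk
    have hk2 : price T m t k₁ ≤ price T m t k := hmax k₁ (mem_filter.2 ⟨mem_univ _, hck₁⟩)
    refine ⟨k, hk.2, lt_of_lt_of_le hk₁ hk2, ?_⟩
    refine Kr_lt (v := c t) (k := k) (fun k' hk' => ?_) (hW t ht) (fun k' hk' => ?_)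
      (lt_of_lt_of_le hk₁ hk2) hk.2
    · exact (lt_of_lt_of_le hk₁ hk2).trans hk'
    · by_contra hne
      exact absurd (hmax k' (mem_filter.2 ⟨mem_univ _, hne⟩)) (not_le.2 hk')
  have hKg : ∀ S : Set κ, Module.finrank ℚ (Kr W S) ≤ g := fun S =>
    (Submodule.finrank_mono (Kr_le W S)).trans hg
  induction r with
  | zero =>
    intro w t hw ht hr
    have h := concl 0 le_rfl w hw 0 (fun t ht hr => ?_) t ht hr
    · rw [mul_zero, add_zero] at h
      exact h
    · by_cases hc : ∀ k, w < price T m t k → c t k = 0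
      · rw [casea w t hc, mul_zero, add_zero]
      · exfalso
        obtain ⟨k, -, -, hlt⟩ := caseb w t ht hc
        have := hKg {k' | price T m t k < price T m t k'}
        omega
  | succ r ih =>
    intro w t hw ht hr
    set A := Ac β (T * (1 + Fintype.card κ * N)) r with hA
    have hA0 : 0 ≤ A := Ac_nonneg hβ0 (mul_nonneg hT0 hq0) r
    have h := concl ((1 + Fintype.card κ * N) * (A + (β + 1)))
      (mul_nonneg hq0 (by linarith)) w hw (r + 1) (fun t ht hr => ?_) t ht hr
    · rw [Ac, ← hA]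
      calc pot T p l m w t ≤ _ := h
        _ = _ := by ring
    · by_cases hc : ∀ k, w < price T m t k → c t k = 0
      · rw [casea w t hc]
        have : 0 ≤ w * ((1 + Fintype.card κ * N) * (A + (β + 1))) :=
          mul_nonneg (by linarith) (mul_nonneg hq0 (by linarith))
        linarith
      · obtain ⟨k, hck, hwk, hlt⟩ := caseb w t ht hc
        set w' := price T m t k with hw'
        have hw'1 : 1 ≤ w' := by linarith
        -- the two positions are small
        have i1 := ih w' t hw'1 ht.le (by omega)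
        have hsub : {k' | w' < price T m (t + 1) k'} ⊆ {k' | w' < price T m t k'} := fun k' hk' =>
          lt_of_lt_of_le hk' (price_anti H.hm (Nat.le_succ t) k')
        have i2 := ih w' (t + 1) hw'1 ht (by
          have := Kr_mono_rank W hsub
          omega)
        have j1 := H.pot_ge (w := w') (by linarith) ht.le k
        rw [← hw', min_self] at j1
        have j2 := H.pot_ge (w := w') (by linarith) (Nat.succ_le_of_lt ht) k
        have e1 := price_succ (T := T) m k ht
        have hle : price T m (t + 1) k ≤ w' := by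
          rw [hw', e1]
          linarith [H.hm t k]
        rw [Nat.succ_eq_add_one, min_eq_left hle] at j2
        have j3 := H.one_slack_le ht k
        have k1 : w' * p t k ≤ w' * A := by linarith
        have k2 : w' * p (t + 1) k ≤ w' * A + 1 := by
          have : w' * p (t + 1) k = price T m (t + 1) k * p (t + 1) k + m t k * p (t + 1) k := by
            rw [hw', e1]
            ring
          rw [this]
          linarith
        have hw'0 : 0 < w' := by linarith
        have k3 : p t k ≤ A := le_of_mul_le_mul_left k1 hw'0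
        have k4 : p (t + 1) k ≤ A + 1 := by
          refine le_of_mul_le_mul_left ?_ hw'0
          linarith
        have hp0 := H.hp t ht.le k
        have hp1 := H.hp (t + 1) ht k
        have k5 : |l t * c t k| ≤ A + (β + 1) := by
          have e2 : l t * c t k = p (t + 1) k - p t k - b t k := by
            rw [H.step t ht k]
            ring
          rw [e2]
          have hb := abs_le.1 (H.b_le ht k)
          exact abs_le.2 ⟨by linarith, by linarith⟩
        have k6 : l t ≤ A + (β + 1) := by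
          rw [abs_mul, abs_of_nonneg (H.hl t)] at k5
          have := mul_le_mul_of_nonneg_left (H.hcZ t ht k hck) (H.hl t)
          linarith
        have k7 : 1 - ∑ k, min (price T m t k) w * c t k ≤ w * (1 + Fintype.card κ * N) := by
          have f1 : ∀ k ∈ (univ : Finset κ), -(w * N) ≤ min (price T m t k) w * c t k := by
            intro k _
            have g1 : |min (price T m t k) w * c t k| ≤ w * N := by
              rw [abs_mul, abs_of_nonneg (H.min_nonneg (by linarith) t k)]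
              exact mul_le_mul (min_le_right _ _) (H.hc t ht k) (abs_nonneg _) (by linarith)
            exact (abs_le.1 g1).1
          have f2 := Finset.card_nsmul_le_sum univ _ _ f1
          rw [nsmul_eq_mul, Finset.card_univ] at f2
          nlinarith
        have k8 : l t * (1 - ∑ k, min (price T m t k) w * c t k) ≤
            (A + (β + 1)) * (w * (1 + Fintype.card κ * N)) := by
          refine (mul_le_mul_of_nonneg_left k7 (H.hl t)).trans ?_
          exact mul_le_mul_of_nonneg_right k6 (mul_nonneg (by linarith) hq0)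
        have k9 := H.loss_nonneg ht
        calc l t * (1 - ∑ k, min (price T m t k) w * c t k)
            ≤ (A + (β + 1)) * (w * (1 + Fintype.card κ * N)) := k8
          _ = w * ((1 + Fintype.card κ * N) * (A + (β + 1))) := by ring
          _ ≤ _ := by linarith

theorem total (H : Priced T N b c p l m β) {W : Submodule ℚ (κ → ℚ)}
    (hW : ∀ t < T, c t ∈ W) {g : ℕ} (hg : Module.finrank ℚ W ≤ g) :
    ∑ t ∈ range T, l t ≤ Ac β (T * (1 + Fintype.card κ * N)) g := by
  have h := H.main hW hg g 1 0 le_rfl (Nat.zero_le _) (by omega)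
  rw [mul_one] at h
  refine le_trans ?_ h
  rw [pot, range_eq_Ico]
  have : 0 ≤ ∑ k, min (price T m 0 k) 1 * p 0 k :=
    sum_nonneg fun k _ => mul_nonneg (H.min_nonneg zero_le_one 0 k) (H.hp 0 (Nat.zero_le _) k)
  linarith

end Priced

/-- feasibility of a rational solution -/
def Feas (T : ℕ) (x : κ → ℚ) (b c : ℕ → κ → ℚ) (l : ℕ → ℚ) : Prop :=
  (∀ t, 0 ≤ l t) ∧ ∀ t < T, ∀ k, 0 ≤ pos x b c l (t + 1) k

/-- **Theorem A.** -/
theorem thmA {T : ℕ} {N : ℚ} {x : κ → ℚ} (hx : ∀ k, 0 ≤ x k) {b c : ℕ → κ → ℚ} (hN : 0 ≤ N)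
    (hc : ∀ t < T, ∀ k, |c t k| ≤ N) (hcZ : ∀ t < T, ∀ k, c t k ≠ 0 → 1 ≤ |c t k|) {β : ℚ}
    (hβ : ∑ τ ∈ range T, ∑ k, |b τ k| ≤ β) {W : Submodule ℚ (κ → ℚ)} (hW : ∀ t < T, c t ∈ W)
    {g : ℕ} (hg : Module.finrank ℚ W ≤ g) {l₀ : ℕ → ℚ} (h₀ : Feas T x b c l₀) :
    ∃ l : ℕ → ℚ, Feas T x b c l ∧
      ∑ t ∈ range T, l t ≤ 2 * (β + 1) * (1 + T * (1 + Fintype.card κ * N)) ^ g := by
  -- an almost optimal solution
  obtain ⟨l, hl, hopt⟩ : ∃ l : ℕ → ℚ, Feas T x b c l ∧ ¬ ∃ l' : ℕ → ℚ, Feas T x b c l' ∧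
      ∑ t ∈ range T, l' t ≤ (∑ t ∈ range T, l t) - 1 := by
    by_contra hcon
    push Not at hcon
    have key : ∀ (n : ℕ) (l : ℕ → ℚ), Feas T x b c l → ¬ ∑ t ∈ range T, l t < n := by
      intro n
      induction n with
      | zero =>
        intro l hl h
        have : 0 ≤ ∑ t ∈ range T, l t := sum_nonneg fun t _ => hl.1 t
        push_cast at h
        linarith
      | succ n ih =>
        intro l hl h
        obtain ⟨l', hl', h'⟩ := hcon l hl
        refine ih l' hl' ?_
        push_cast at h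
        linarith
    obtain ⟨n, hn⟩ := exists_nat_gt (∑ t ∈ range T, l₀ t)
    exact key n l₀ h₀ hn
  refine ⟨l, hl, ?_⟩
  set S := ∑ t ∈ range T, l t with hS
  obtain ⟨m, φ, hm, -, hφ, hpr, hneg⟩ := dual T x b c (fun _ _ => True) 0 1 (S - 1) (by
    rintro ⟨l', h1, h2, h3⟩
    refine hopt ⟨l', ⟨h1, fun t ht k => h2 t ht k trivial⟩, ?_⟩
    rw [one_mul, one_mul] at h3
    exact h3)
  simp only [sub_zero, one_mul, mul_one] at hneg hpr
  have hst := star T x b c l m
  have hnn : 0 ≤ ∑ τ ∈ range T, ∑ k, m τ k * pos x b c l (τ + 1) k :=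
    sum_nonneg fun τ hτ => sum_nonneg fun k _ =>
      mul_nonneg (hm τ k) (hl.2 τ (mem_range.1 hτ) k)
  have hle : ∑ t ∈ range T, l t * ∑ k, price T m t k * c t k ≤ φ * S := by
    rw [hS, mul_sum]
    refine sum_le_sum fun t ht => ?_
    have := mul_le_mul_of_nonneg_left (hpr t (mem_range.1 ht)) (hl.1 t)
    linarith [mul_comm φ (l t)]
  have hφ0 : 0 < φ := by
    rcases hφ.eq_or_lt with h | h
    · rw [← h] at hneg hle
      linarith
    · exact h
  -- scaling
  have hprice : ∀ t k, price T (fun t k => m t k / φ) t k = price T m t k / φ := by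
    intro t k
    rw [price, price, sum_div]
  have hsc : ∀ t, ∑ k, price T (fun t k => m t k / φ) t k * c t k =
      (∑ k, price T m t k * c t k) / φ := by
    intro t
    rw [sum_div]
    exact sum_congr rfl fun k _ => by rw [hprice]; ring
  have H : Priced T N b c (pos x b c l) l (fun t k => m t k / φ) β := by
    refine ⟨fun t ht k => ?_, fun t _ k => pos_succ x b c l t k, hl.1,
      fun t k => div_nonneg (hm t k) hφ0.le, hN, hc, hcZ, hβ, fun t ht => ?_, ?_⟩
    · rcases t with _ | t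
      · rw [pos_zero]
        exact hx k
      · exact hl.2 t ht k
    · rw [hsc, div_le_one hφ0]
      exact hpr t ht
    · have e1 : ∀ τ, (∑ k, m τ k / φ * pos x b c l (τ + 1) k) +
          l τ * (1 - ∑ k, price T (fun t k => m t k / φ) τ k * c τ k) =
          (∑ k, m τ k * pos x b c l (τ + 1) k) / φ + l τ -
            (l τ * ∑ k, price T m τ k * c τ k) / φ := by
        intro τ
        have : ∑ k, m τ k / φ * pos x b c l (τ + 1) k =
            (∑ k, m τ k * pos x b c l (τ + 1) k) / φ := by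
          rw [sum_div]
          exact sum_congr rfl fun k _ => by ring
        rw [hsc, this]
        ring
      simp only [e1, sum_sub_distrib, sum_add_distrib, ← sum_div]
      rw [← hS]
      have e2 : (∑ τ ∈ range T, ∑ k, m τ k * pos x b c l (τ + 1) k) / φ + S -
          (∑ t ∈ range T, l t * ∑ k, price T m t k * c t k) / φ =
          (∑ τ ∈ range T, ∑ k, m τ k * pos x b c 0 (τ + 1) k) / φ + S := by
        rw [hst]
        ring
      rw [e2]
      have e3 : (∑ τ ∈ range T, ∑ k, m τ k * pos x b c 0 (τ + 1) k) / φ < -(S - 1) := by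
        rw [div_lt_iff₀ hφ0]
        linarith
      linarith
  have h1 := H.total hW hg
  have h2 := Ac_bound H.beta_nonneg (q := T * (1 + Fintype.card κ * N))
    (mul_nonneg (Nat.cast_nonneg T) (by positivity)) g
  have h3 := H.beta_nonneg
  linarith

end Pool.Agent.EEF
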