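import Pool.Agent.EEF.ThmA

/-!
# EEF / ThmB: small integer solutions of a path system

If some `l₀ : ℕ → ℕ` keeps all positions non-negative then some `l : ℕ → ℕ` with
`∑ l ≤ 3 (T+d+1) (K (1+T(1+dN)))^g β₁` does, `K ≥ d² N (T+2)`, `β₁ = β + T N + 1`.
Induction: the set `F` of free times; the other times are frozen at `l₀` and have small `l₀`.
-/

set_option autoImplicit false
set_option linter.unusedSectionVars false

namespace Pool.Agent.EEF

open Finset

variable {κ : Type} [Fintype κ]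

/-- a path system with a given integer solution -/
structure SysB (T : ℕ) (N K β : ℚ) (x : κ → ℚ) (b c : ℕ → κ → ℚ) (W : Submodule ℚ (κ → ℚ))
    (g : ℕ) (l₀ : ℕ → ℕ) : Prop where
  hx : ∀ k, 0 ≤ x k
  hN : 1 ≤ N
  hc : ∀ t < T, ∀ k, |c t k| ≤ N
  hcZ : ∀ t < T, ∀ k, c t k ≠ 0 → 1 ≤ |c t k|
  hβ : ∑ τ ∈ range T, ∑ k, |b τ k| ≤ β
  hW : ∀ t < T, c t ∈ W
  hg : Module.finrank ℚ W ≤ g
  hK1 : 1 ≤ K
  hK : (Fintype.card κ : ℚ) ^ 2 * N * (T + 2) ≤ K
  h0 : ∀ t < T, ∀ k, 0 ≤ pos x b c (fun t => (l₀ t : ℚ)) (t + 1) k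

/-- the free part of the vectors -/
def cF (F : Finset ℕ) (c : ℕ → κ → ℚ) (t : ℕ) (k : κ) : ℚ := if t ∈ F then c t k else 0

/-- the forced steps, together with the frozen ones -/
def bF (F : Finset ℕ) (b c : ℕ → κ → ℚ) (l₀ : ℕ → ℕ) (t : ℕ) (k : κ) : ℚ :=
  if t ∈ F then b t k else b t k + l₀ t * c t k

theorem pos_frozen {F : Finset ℕ} {x : κ → ℚ} {b c : ℕ → κ → ℚ} {l₀ : ℕ → ℕ} {l : ℕ → ℚ}
    (t : ℕ) (h : ∀ τ < t, τ ∉ F → l τ = l₀ τ) (k : κ) :
    pos x b c l t k = pos x (bF F b c l₀) (cF F c) l t k := by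
  rw [pos, pos]
  congr 1
  refine sum_congr rfl fun τ hτ => ?_
  rw [bF, cF]
  by_cases hF : τ ∈ F
  · rw [if_pos hF, if_pos hF]
  · rw [if_neg hF, if_neg hF, h τ (mem_range.1 hτ) hF]
    ring

/-- the rank of the free vectors up to the time `i` -/
noncomputable def Dm (F : Finset ℕ) (c : ℕ → κ → ℚ) (i : ℕ) : ℕ :=
  Module.finrank ℚ (Submodule.span ℚ (c '' {t | t ∈ F ∧ t ≤ i}))

theorem Dm_mono {F F' : Finset ℕ} {c : ℕ → κ → ℚ} {i i' : ℕ} (h : F ⊆ F') (hi : i ≤ i') :
    Dm F c i ≤ Dm F' c i' :=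
  Submodule.finrank_mono (Submodule.span_mono (Set.image_mono fun _ ht =>
    ⟨h ht.1, ht.2.trans hi⟩))

/-- `(t, k)` is unsettled -/
def Uns (F : Finset ℕ) (c : ℕ → κ → ℚ) (t : ℕ) (k : κ) : Prop := ∃ i ∈ F, i ≤ t ∧ c i k ≠ 0

/-- `t` is the first free time which moves the coordinate `k` -/
def Fst (F : Finset ℕ) (c : ℕ → κ → ℚ) (t : ℕ) (k : κ) : Prop :=
  t ∈ F ∧ c t k ≠ 0 ∧ ∀ i ∈ F, i < t → c i k = 0

open Classical in
theorem sum_fst (F : Finset ℕ) (c : ℕ → κ → ℚ) (E : ℚ) (k : κ) (t : ℕ) :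
    ∑ τ ∈ range (t + 1), (if Fst F c τ k then E else 0) = if Uns F c t k then E else 0 := by
  induction t with
  | zero =>
    rw [sum_range_one]
    congr 1
    refine propext ⟨fun h => ⟨0, h.1, le_rfl, h.2.1⟩, fun ⟨i, h1, h2, h3⟩ => ?_⟩
    obtain rfl : i = 0 := by omega
    exact ⟨h1, h3, fun j _ hj => absurd hj (Nat.not_lt_zero j)⟩
  | succ t ih =>
    rw [sum_range_succ, ih]
    by_cases h : Uns F c t k
    · obtain ⟨i, h1, h2, h3⟩ := h
      rw [if_pos ⟨i, h1, h2, h3⟩, if_neg (fun hf => h3 (hf.2.2 i h1 (by omega))),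
        if_pos ⟨i, h1, by omega, h3⟩, add_zero]
    · rw [if_neg h, zero_add]
      congr 1
      refine propext ⟨fun h' => ⟨t + 1, h'.1, le_rfl, h'.2.1⟩, fun ⟨i, h1, h2, h3⟩ => ?_⟩
      rcases Nat.lt_or_ge i (t + 1) with hi | hi
      · exact absurd ⟨i, h1, by omega, h3⟩ h
      · obtain rfl : i = t + 1 := by omega
        refine ⟨h1, h3, fun j hj hjt => ?_⟩
        by_contra hne
        exact h ⟨j, hj, by omega, hne⟩

open Classical in
theorem sum_fst_le (F : Finset ℕ) (c : ℕ → κ → ℚ) {E : ℚ} (hE : 0 ≤ E) (k : κ) (T : ℕ) :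
    ∑ τ ∈ range T, (if Fst F c τ k then E else 0) ≤ E := by
  rcases T with _ | T
  · simpa using hE
  · rw [sum_fst]
    split_ifs
    · exact le_rfl
    · exact hE

/-- the invariant: the frozen multiplicities are small -/
def Inv (T : ℕ) (K β₁ : ℚ) (c : ℕ → κ → ℚ) (g : ℕ) (l₀ : ℕ → ℕ) (F : Finset ℕ) : Prop :=
  ∀ i < T, i ∉ F → (l₀ i : ℚ) ≤ K ^ (g - Dm F c i) * β₁ ∧
    (l₀ i : ℚ) * ∑ k, |c i k| ≤ K ^ (g - Dm F c i) * β₁

namespace SysB

variable {T : ℕ} {N K β : ℚ} {x : κ → ℚ} {b c : ℕ → κ → ℚ} {W : Submodule ℚ (κ → ℚ)} {g : ℕ}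
  {l₀ : ℕ → ℕ}

theorem beta_nonneg (H : SysB T N K β x b c W g l₀) : 0 ≤ β :=
  le_trans (sum_nonneg fun _ _ => sum_nonneg fun _ _ => abs_nonneg _) H.hβ

theorem b_le (H : SysB T N K β x b c W g l₀) {t : ℕ} (ht : t < T) (k : κ) : |b t k| ≤ β := by
  refine le_trans ?_ H.hβ
  refine le_trans ?_ (single_le_sum (f := fun τ => ∑ k, |b τ k|)
    (fun τ _ => sum_nonneg fun k _ => abs_nonneg _) (mem_range.2 ht))
  exact single_le_sum (f := fun k => |b t k|) (fun k _ => abs_nonneg _) (mem_univ k)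

theorem Dm_le (H : SysB T N K β x b c W g l₀) {F : Finset ℕ} (hF : F ⊆ range T) (i : ℕ) :
    Dm F c i ≤ g := by
  refine (Submodule.finrank_mono (Submodule.span_le.2 ?_)).trans H.hg
  rintro _ ⟨t, ht, rfl⟩
  exact H.hW t (mem_range.1 (hF ht.1))

/-- size of the forced and frozen steps from the time `i` on -/
theorem bF_le (H : SysB T N K β x b c W g l₀) {β₁ : ℚ} (hβ₁ : 0 ≤ β₁) {F : Finset ℕ}
    (hI : Inv T K β₁ c g l₀ F) (i : ℕ) :
    ∑ τ ∈ Ico i T, ∑ k, |bF F b c l₀ τ k| ≤ β + T * (K ^ (g - Dm F c i) * β₁) := by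
  have hK0 : 0 ≤ K := zero_le_one.trans H.hK1
  have h1 : ∀ τ ∈ Ico i T, ∑ k, |bF F b c l₀ τ k| ≤
      (∑ k, |b τ k|) + K ^ (g - Dm F c i) * β₁ := by
    intro τ hτ
    obtain ⟨h1, h2⟩ := mem_Ico.1 hτ
    have hnn : 0 ≤ K ^ (g - Dm F c i) * β₁ := mul_nonneg (pow_nonneg hK0 _) hβ₁
    by_cases hF : τ ∈ F
    · have : ∑ k, |bF F b c l₀ τ k| = ∑ k, |b τ k| :=
        sum_congr rfl fun k _ => by rw [bF, if_pos hF]
      rw [this]
      linarith
    · have e : ∑ k, |bF F b c l₀ τ k| ≤ (∑ k, |b τ k|) + l₀ τ * ∑ k, |c τ k| := by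
        rw [mul_sum, ← sum_add_distrib]
        refine sum_le_sum fun k _ => ?_
        rw [bF, if_neg hF]
        refine (abs_add_le _ _).trans ?_
        rw [abs_mul, abs_of_nonneg (Nat.cast_nonneg (α := ℚ) (l₀ τ))]
      have e2 := (hI τ h2 hF).2
      have e3 : K ^ (g - Dm F c τ) ≤ K ^ (g - Dm F c i) := by
        refine pow_le_pow_right₀ H.hK1 ?_
        have := Dm_mono (c := c) (Subset.refl F) h1
        omega
      have e4 := mul_le_mul_of_nonneg_right e3 hβ₁
      linarith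
  refine (sum_le_sum h1).trans ?_
  rw [sum_add_distrib, sum_const, nsmul_eq_mul, Nat.card_Ico]
  have h2 : ∑ τ ∈ Ico i T, ∑ k, |b τ k| ≤ β := by
    refine le_trans ?_ H.hβ
    rw [range_eq_Ico]
    exact sum_le_sum_of_subset_of_nonneg (Ico_subset_Ico_left (Nat.zero_le i))
      fun _ _ _ => sum_nonneg fun _ _ => abs_nonneg _
  have h3 : ((T - i : ℕ) : ℚ) ≤ T := by exact_mod_cast Nat.sub_le T i
  have h4 := mul_le_mul_of_nonneg_right h3
    (mul_nonneg (pow_nonneg hK0 (g - Dm F c i)) hβ₁)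
  linarith

/-- the positions of the given solution -/
theorem p0_nonneg (H : SysB T N K β x b c W g l₀) {F : Finset ℕ} {t : ℕ} (ht : t ≤ T) (k : κ) :
    0 ≤ pos x (bF F b c l₀) (cF F c) (fun t => (l₀ t : ℚ)) t k := by
  rw [← pos_frozen t (fun _ _ _ => rfl)]
  rcases t with _ | t
  · rw [pos_zero]
    exact H.hx k
  · exact H.h0 t ht k

/-- settled positions do not depend on the multiplicities -/
theorem settled {F : Finset ℕ} {x : κ → ℚ} {b c : ℕ → κ → ℚ} {l l' : ℕ → ℚ} {t : ℕ} {k : κ}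
    (h : ¬ Uns F c t k) : pos x b (cF F c) l (t + 1) k = pos x b (cF F c) l' (t + 1) k := by
  rw [pos, pos]
  congr 1
  refine sum_congr rfl fun τ hτ => ?_
  have h0 : cF F c τ k = 0 := by
    rw [cF]
    split_ifs with hF
    · by_contra hne
      exact h ⟨τ, hF, Nat.lt_succ_iff.1 (mem_range.1 hτ), hne⟩
    · rfl
  rw [h0, mul_zero, mul_zero]

open Classical in
/-- Case 1. -/
theorem case1 (H : SysB T N K β x b c W g l₀) {β₁ : ℚ} (hβ₁ : β₁ = β + T * N + 1)
    {F : Finset ℕ} (hI : Inv T K β₁ c g l₀ F) {l : ℕ → ℚ} (hl : ∀ t, 0 ≤ l t)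
    (hE : ∀ t < T, ∀ k, Uns F c t k →
      T * N ≤ pos x (bF F b c l₀) (cF F c) l (t + 1) k) :
    ∃ l : ℕ → ℕ, (∀ t < T, ∀ k, 0 ≤ pos x b c (fun t => (l t : ℚ)) (t + 1) k) ∧
      ∑ t ∈ range T, (l t : ℚ) ≤
        3 * (T + Fintype.card κ + 1) * (K * (1 + T * (1 + Fintype.card κ * N))) ^ g * β₁ := by
  have hN0 : 0 ≤ N := zero_le_one.trans H.hN
  have hK0 : 0 ≤ K := zero_le_one.trans H.hK1
  have hT0 : (0 : ℚ) ≤ T := Nat.cast_nonneg T
  have hd0 : (0 : ℚ) ≤ Fintype.card κ := Nat.cast_nonneg _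
  have hβ0 := H.beta_nonneg
  have hE0 : 0 ≤ T * N := mul_nonneg hT0 hN0
  have hβ₁0 : 0 ≤ β₁ := by rw [hβ₁]; linarith
  set b' : ℕ → κ → ℚ := fun t k => bF F b c l₀ t k - (if Fst F c t k then (T * N : ℚ) else 0)
    with hb'
  have hpos' : ∀ (l : ℕ → ℚ) (t : ℕ) (k : κ), pos x b' (cF F c) l (t + 1) k =
      pos x (bF F b c l₀) (cF F c) l (t + 1) k - (if Uns F c t k then (T * N : ℚ) else 0) := by
    intro l t k
    rw [← sum_fst, pos, pos, add_sub_assoc, ← sum_sub_distrib]
    congr 1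
    refine sum_congr rfl fun τ _ => ?_
    rw [hb']
    ring
  have hfeas : Feas T x b' (cF F c) l := by
    refine ⟨hl, fun t ht k => ?_⟩
    rw [hpos']
    by_cases hU : Uns F c t k
    · rw [if_pos hU]
      linarith [hE t ht k hU]
    · rw [if_neg hU, sub_zero, settled hU (l' := fun t => (l₀ t : ℚ))]
      exact H.p0_nonneg ht k
  have hb'sum : ∑ τ ∈ range T, ∑ k, |b' τ k| ≤
      β + T * (K ^ g * β₁) + Fintype.card κ * (T * N) := by
    have h1 : ∀ τ ∈ range T, ∑ k, |b' τ k| ≤ (∑ k, |bF F b c l₀ τ k|) +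
        ∑ k, (if Fst F c τ k then (T * N : ℚ) else 0) := by
      intro τ _
      rw [← sum_add_distrib]
      refine sum_le_sum fun k _ => ?_
      rw [hb']
      refine (abs_sub _ _).trans ?_
      have : |if Fst F c τ k then (T * N : ℚ) else 0| = if Fst F c τ k then (T * N : ℚ) else 0 := by
        split_ifs
        · exact abs_of_nonneg hE0
        · exact abs_zero
      rw [this]
    refine (sum_le_sum h1).trans ?_
    rw [sum_add_distrib]
    have h2 := H.bF_le hβ₁0 hI 0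
    rw [← range_eq_Ico] at h2
    have h3 : K ^ (g - Dm F c 0) ≤ K ^ g := pow_le_pow_right₀ H.hK1 (Nat.sub_le _ _)
    have h4 := mul_le_mul_of_nonneg_left (mul_le_mul_of_nonneg_right h3 hβ₁0) hT0
    have h5 : ∑ τ ∈ range T, ∑ k, (if Fst F c τ k then (T * N : ℚ) else 0) ≤
        Fintype.card κ * (T * N) := by
      rw [sum_comm]
      refine (sum_le_sum fun k _ => sum_fst_le F c hE0 k T).trans ?_
      rw [sum_const, nsmul_eq_mul, Finset.card_univ]
    linarith
  obtain ⟨l', hl', hsum⟩ := thmA (N := N) H.hx (b := b') (c := cF F c) hN0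
    (fun t ht k => by
      rw [cF]
      split_ifs
      · exact H.hc t ht k
      · rw [abs_zero]
        exact hN0)
    (fun t ht k hne => by
      rw [cF] at hne ⊢
      split_ifs at hne ⊢
      · exact H.hcZ t ht k hne
      · exact absurd rfl hne)
    hb'sum (W := W) (fun t ht => by
      by_cases hF : t ∈ F
      · have : cF F c t = c t := funext fun k => by rw [cF, if_pos hF]
        rw [this]
        exact H.hW t ht
      · have : cF F c t = 0 := funext fun k => by rw [cF, if_neg hF]; rfl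
        rw [this]
        exact W.zero_mem)
    H.hg hfeas
  set lam : ℕ → ℕ := fun t => if t ∈ F then ⌊l' t⌋₊ else l₀ t with hlam
  refine ⟨lam, fun t ht k => ?_, ?_⟩
  · rw [pos_frozen (F := F) (l₀ := l₀) (t + 1) (fun τ _ hτ => by
      rw [hlam]
      simp only [if_neg hτ])]
    by_cases hU : Uns F c t k
    · have h1 := hl'.2 t ht k
      rw [hpos', if_pos hU] at h1
      have h2 : pos x (bF F b c l₀) (cF F c) l' (t + 1) k -
          pos x (bF F b c l₀) (cF F c) (fun t => (lam t : ℚ)) (t + 1) k ≤ (T : ℚ) * N := by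
        rw [pos, pos, add_sub_add_left_eq_sub, ← sum_sub_distrib]
        have h3 : ∀ τ ∈ range (t + 1), bF F b c l₀ τ k + l' τ * cF F c τ k -
            (bF F b c l₀ τ k + (lam τ : ℚ) * cF F c τ k) ≤ N := by
          intro τ hτ
          have e : bF F b c l₀ τ k + l' τ * cF F c τ k -
              (bF F b c l₀ τ k + (lam τ : ℚ) * cF F c τ k) = (l' τ - lam τ) * cF F c τ k := by
            ring
          rw [e, cF]
          by_cases hF : τ ∈ F
          · rw [if_pos hF, hlam]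
            simp only [if_pos hF]
            have f1 := Nat.floor_le (hl'.1 τ)
            have f2 := Nat.lt_floor_add_one (l' τ)
            have f3 := H.hc τ (by rw [mem_range] at hτ; omega) k
            refine (le_abs_self _).trans ?_
            rw [abs_mul]
            have f4 : |l' τ - (⌊l' τ⌋₊ : ℚ)| ≤ 1 := abs_le.2 ⟨by linarith, by linarith⟩
            calc |l' τ - (⌊l' τ⌋₊ : ℚ)| * |c τ k| ≤ 1 * N :=
                  mul_le_mul f4 f3 (abs_nonneg _) zero_le_one
              _ = N := one_mul N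
          · rw [if_neg hF, mul_zero]
            exact hN0
        refine (sum_le_sum h3).trans ?_
        rw [sum_const, nsmul_eq_mul, card_range]
        have : ((t + 1 : ℕ) : ℚ) ≤ T := by exact_mod_cast ht
        exact mul_le_mul_of_nonneg_right this hN0
      linarith
    · rw [settled hU (l' := fun t => (l₀ t : ℚ))]
      exact H.p0_nonneg ht k
  · have h1 : ∀ t ∈ range T, (lam t : ℚ) ≤ l' t + K ^ g * β₁ := by
      intro t ht
      have hnn : 0 ≤ K ^ g * β₁ := mul_nonneg (pow_nonneg hK0 _) hβ₁0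
      rw [hlam]
      by_cases hF : t ∈ F
      · simp only [if_pos hF]
        have := Nat.floor_le (hl'.1 t)
        linarith
      · simp only [if_neg hF]
        have e1 := (hI t (mem_range.1 ht) hF).1
        have e2 : K ^ (g - Dm F c t) ≤ K ^ g := pow_le_pow_right₀ H.hK1 (Nat.sub_le _ _)
        have e3 := mul_le_mul_of_nonneg_right e2 hβ₁0
        have e4 := hl'.1 t
        linarith
    refine (sum_le_sum h1).trans ?_
    rw [sum_add_distrib, sum_const, nsmul_eq_mul, card_range]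
    set Z : ℚ := 1 + T * (1 + Fintype.card κ * N) with hZ
    have hZ1 : 1 ≤ Z := by
      rw [hZ]
      have : 0 ≤ (T : ℚ) * (1 + Fintype.card κ * N) := by positivity
      linarith
    have hZg : 1 ≤ Z ^ g := one_le_pow₀ hZ1
    have hKg : 1 ≤ K ^ g := one_le_pow₀ H.hK1
    have hKβ : β₁ ≤ K ^ g * β₁ := by
      have := mul_le_mul_of_nonneg_right hKg hβ₁0
      linarith
    -- `β' + 1 ≤ (T + d + 1) K^g β₁`
    have h2 : β + T * (K ^ g * β₁) + Fintype.card κ * (T * N) + 1 ≤
        (T + Fintype.card κ + 1) * (K ^ g * β₁) := by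
      have e1 : T * N ≤ K ^ g * β₁ := by
        refine le_trans ?_ hKβ
        rw [hβ₁]
        linarith
      have e2 := mul_le_mul_of_nonneg_left e1 hd0
      have e3 : β + 1 ≤ K ^ g * β₁ := by
        refine le_trans ?_ hKβ
        rw [hβ₁]
        linarith
      linarith
    have h3 : 2 * (β + T * (K ^ g * β₁) + Fintype.card κ * (T * N) + 1) * Z ^ g ≤
        2 * ((T + Fintype.card κ + 1) * (K ^ g * β₁)) * Z ^ g :=
      mul_le_mul_of_nonneg_right (by linarith) (by linarith)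
    have h4 : T * (K ^ g * β₁) ≤ ((T + Fintype.card κ + 1) * (K ^ g * β₁)) * Z ^ g := by
      have e0 : 0 ≤ K ^ g * β₁ := by linarith
      have e1 : T * (K ^ g * β₁) ≤ (T + Fintype.card κ + 1) * (K ^ g * β₁) :=
        mul_le_mul_of_nonneg_right (by linarith) e0
      have e2 : (T + Fintype.card κ + 1) * (K ^ g * β₁) * 1 ≤
          (T + Fintype.card κ + 1) * (K ^ g * β₁) * Z ^ g :=
        mul_le_mul_of_nonneg_left hZg (mul_nonneg (by linarith) e0)
      linarith
    have h5 : 3 * (T + Fintype.card κ + 1) * (K * Z) ^ g * β₁ =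
        3 * (((T + Fintype.card κ + 1) * (K ^ g * β₁)) * Z ^ g) := by
      rw [mul_pow]
      ring
    rw [h5]
    linarith

/-- Case 2: another time can be frozen. -/
theorem case2 (H : SysB T N K β x b c W g l₀) {β₁ : ℚ} (hβ₁ : β₁ = β + T * N + 1)
    {F : Finset ℕ} (hF : F ⊆ range T) (hI : Inv T K β₁ c g l₀ F)
    (hno : ¬ ∃ l : ℕ → ℚ, (∀ t, 0 ≤ l t) ∧ ∀ t < T, ∀ k, Uns F c t k →
      T * N ≤ pos x (bF F b c l₀) (cF F c) l (t + 1) k) :
    ∃ i ∈ F, Inv T K β₁ c g l₀ (F.erase i) := by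
  have hN0 : 0 ≤ N := zero_le_one.trans H.hN
  have hK0 : 0 ≤ K := zero_le_one.trans H.hK1
  have hT0 : (0 : ℚ) ≤ T := Nat.cast_nonneg T
  have hβ0 := H.beta_nonneg
  have hE0 : 0 ≤ T * N := mul_nonneg hT0 hN0
  have hβ₁0 : 0 ≤ β₁ := by rw [hβ₁]; linarith
  obtain ⟨m, φ, hm, hmU, hφ, hpr, hneg⟩ := dual T x (bF F b c l₀) (cF F c) (Uns F c) (T * N) 0 0
    (by
      rintro ⟨l, h1, h2, -⟩
      exact hno ⟨l, h1, h2⟩)
  simp only [mul_zero, add_zero] at hpr hneg
  set B := bF F b c l₀ with hB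
  set C := cF F c with hC
  set p : ℕ → κ → ℚ := pos x B C (fun t => (l₀ t : ℚ)) with hp
  have hpn : ∀ t ≤ T, ∀ k, 0 ≤ p t k := fun t ht k => H.p0_nonneg ht k
  have hst := star T x B C (fun t => (l₀ t : ℚ)) m
  set P := ∑ τ ∈ range T, ∑ k, m τ k with hPdef
  have hneg' : ∑ τ ∈ range T, ∑ k, m τ k * pos x B C 0 (τ + 1) k < T * N * P := by
    have e : ∑ τ ∈ range T, ∑ k, m τ k * (pos x B C 0 (τ + 1) k - T * N) =
        (∑ τ ∈ range T, ∑ k, m τ k * pos x B C 0 (τ + 1) k) - T * N * P := by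
      rw [hPdef, mul_sum, ← sum_sub_distrib]
      refine sum_congr rfl fun τ _ => ?_
      rw [mul_sum, ← sum_sub_distrib]
      exact sum_congr rfl fun k _ => by ring
    rw [e] at hneg
    linarith
  -- slack and loss
  set sl : ℕ → ℚ := fun τ => ∑ k, m τ k * p (τ + 1) k with hsl
  set lo : ℕ → ℚ := fun τ => -((l₀ τ : ℚ) * ∑ k, price T m τ k * C τ k) with hlo
  have hsl0 : ∀ τ ∈ range T, 0 ≤ sl τ := fun τ hτ =>
    sum_nonneg fun k _ => mul_nonneg (hm τ k) (hpn _ (mem_range.1 hτ) k)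
  have hlo0 : ∀ τ ∈ range T, 0 ≤ lo τ := fun τ hτ => by
    rw [hlo]
    have := mul_nonpos_of_nonneg_of_nonpos (Nat.cast_nonneg (α := ℚ) (l₀ τ))
      (hpr τ (mem_range.1 hτ))
    linarith
  have hsum : ∑ τ ∈ range T, (sl τ + lo τ) < T * N * P := by
    have e : ∑ τ ∈ range T, (sl τ + lo τ) =
        ∑ τ ∈ range T, ∑ k, m τ k * pos x B C 0 (τ + 1) k := by
      rw [sum_add_distrib, hlo, sum_neg_distrib]
      linarith
    rw [e]
    exact hneg'
  have hP0 : 0 < P := by
    have h1 : 0 ≤ ∑ τ ∈ range T, (sl τ + lo τ) :=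
      sum_nonneg fun τ hτ => add_nonneg (hsl0 τ hτ) (hlo0 τ hτ)
    by_contra hcon
    have h2 := mul_nonpos_of_nonneg_of_nonpos hE0 (not_lt.1 hcon)
    linarith
  -- a coordinate with a large price
  have hPsum : ∑ k, price T m 0 k = P := by
    rw [hPdef, sum_comm]
    refine sum_congr rfl fun k _ => ?_
    rw [price, range_eq_Ico]
  have hne : (univ : Finset κ).Nonempty := by
    by_contra hcon
    rw [not_nonempty_iff_eq_empty] at hcon
    rw [hcon, sum_empty] at hPsum
    linarith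
  obtain ⟨k, -, hkmax⟩ := exists_max_image univ (fun k => price T m 0 k) hne
  have hd1 : (1 : ℚ) ≤ Fintype.card κ := by
    have : 0 < Fintype.card κ := Fintype.card_pos_iff.2 ⟨k⟩
    exact_mod_cast this
  have hk : P ≤ Fintype.card κ * price T m 0 k := by
    rw [← hPsum]
    refine (sum_le_card_nsmul univ _ _ fun k' hk' => hkmax k' hk').trans ?_
    rw [nsmul_eq_mul, Finset.card_univ]
  have hk0 : 0 < price T m 0 k := by
    by_contra hcon
    have h2 := mul_nonpos_of_nonneg_of_nonpos (zero_le_one.trans hd1) (not_lt.1 hcon)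
    linarith
  obtain ⟨t₁, ht₁, hmt₁⟩ : ∃ t ∈ Ico 0 T, 0 < m t k := by
    by_contra hcon
    push Not at hcon
    have : price T m 0 k ≤ 0 := sum_nonpos hcon
    linarith
  have hU₁ : Uns F c t₁ k := by
    by_contra hcon
    rw [hmU t₁ k hcon] at hmt₁
    exact lt_irrefl _ hmt₁
  -- the first free time which moves `k`
  have hex : ∃ i, i ∈ F ∧ c i k ≠ 0 := by
    obtain ⟨i, h1, -, h3⟩ := hU₁
    exact ⟨i, h1, h3⟩
  classical
  obtain ⟨i, ⟨hiF, hci⟩, himin⟩ : ∃ i, (i ∈ F ∧ c i k ≠ 0) ∧ ∀ j < i, ¬ (j ∈ F ∧ c j k ≠ 0) :=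
    ⟨Nat.find hex, Nat.find_spec hex, fun j hj => Nat.find_min hex hj⟩
  have hiT : i < T := mem_range.1 (hF hiF)
  refine ⟨i, hiF, ?_⟩
  have hprice_i : price T m i k = price T m 0 k := by
    rw [price, price]
    refine sum_subset (Ico_subset_Ico_left (Nat.zero_le i)) fun τ hτ hτ' => ?_
    refine hmU τ k ?_
    rintro ⟨j, hj1, hj2, hj3⟩
    rw [mem_Ico] at hτ hτ'
    exact himin j (by omega) ⟨hj1, hj3⟩
  -- the potential
  set V : ℕ → ℚ := fun t => ∑ k, price T m t k * p t k with hV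
  have hVge : ∀ t ≤ T, ∀ k, price T m t k * p t k ≤ V t := fun t ht k =>
    single_le_sum (f := fun k => price T m t k * p t k)
      (fun k _ => mul_nonneg (price_nonneg hm t k) (hpn t ht k)) (mem_univ k)
  have hprP : ∀ t k, price T m t k ≤ P := by
    intro t k
    refine (price_anti hm (Nat.zero_le t) k).trans ?_
    rw [← hPsum]
    exact single_le_sum (f := fun k => price T m 0 k) (fun k _ => price_nonneg hm 0 k) (mem_univ k)
  have hVstep : ∀ t < T, V t ≤ V (t + 1) + (sl t + lo t) + P * ∑ k, |B t k| := by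
    intro t ht
    have e1 : ∀ k, price T m t k * p t k ≤ price T m (t + 1) k * p (t + 1) k +
        m t k * p (t + 1) k - l₀ t * (price T m t k * C t k) + P * |B t k| := by
      intro k
      have f1 := price_succ (T := T) m k ht
      have f2 : p (t + 1) k = p t k + (B t k + l₀ t * C t k) := pos_succ x B C _ t k
      have f3 : -(price T m t k * B t k) ≤ P * |B t k| := by
        have g1 : price T m t k * (-B t k) ≤ price T m t k * |B t k| :=
          mul_le_mul_of_nonneg_left (neg_le_abs _) (price_nonneg hm t k)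
        have g2 : price T m t k * |B t k| ≤ P * |B t k| :=
          mul_le_mul_of_nonneg_right (hprP t k) (abs_nonneg _)
        linarith
      have f4 : price T m t k * p t k = price T m (t + 1) k * p (t + 1) k +
          m t k * p (t + 1) k - price T m t k * B t k - l₀ t * (price T m t k * C t k) := by
        have : price T m t k * p t k = (m t k + price T m (t + 1) k) * p (t + 1) k -
            price T m t k * (B t k + l₀ t * C t k) := by
          rw [← f1, f2]
          ring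
        rw [this]
        ring
      linarith
    have e2 := sum_le_sum (s := univ) fun k _ => e1 k
    simp only [sum_sub_distrib, sum_add_distrib, ← mul_sum] at e2
    simp only [hV, hsl, hlo]
    linarith
  have hVle : ∀ n t, t + n = T → V t ≤ (∑ τ ∈ Ico t T, (sl τ + lo τ)) +
      P * ∑ τ ∈ Ico t T, ∑ k, |B τ k| := by
    intro n
    induction n with
    | zero =>
      intro t ht
      have ht' : t = T := by omega
      subst ht'
      have : V t = 0 := sum_eq_zero fun k _ => by rw [price_end, zero_mul]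
      rw [this]
      simp
    | succ n ih =>
      intro t ht
      have htT : t < T := by omega
      have h1 := ih (t + 1) (by omega)
      have h2 := hVstep t htT
      rw [Finset.sum_eq_sum_Ico_succ_bot htT, Finset.sum_eq_sum_Ico_succ_bot htT]
      linarith
  set j := g - Dm F c i with hj
  have hBi := H.bF_le hβ₁0 hI i
  rw [← hB, ← hj] at hBi
  have hsl_le : ∀ t, ∑ τ ∈ Ico t T, (sl τ + lo τ) ≤ T * N * P := by
    intro t
    refine le_trans ?_ hsum.le
    rw [range_eq_Ico]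
    refine sum_le_sum_of_subset_of_nonneg (Ico_subset_Ico_left (Nat.zero_le t)) fun τ hτ _ => ?_
    rw [← range_eq_Ico] at hτ
    exact add_nonneg (hsl0 τ hτ) (hlo0 τ hτ)
  -- both positions are small
  have hq1 : price T m i k * p i k ≤ P * (T * N + (β + T * (K ^ j * β₁))) := by
    have h1 := hVge i hiT.le k
    have h2 := hVle (T - i) i (by omega)
    have h3 := hsl_le i
    have h4 := mul_le_mul_of_nonneg_left hBi hP0.le
    linarith
  have hq2 : price T m i k * p (i + 1) k ≤ P * (T * N + (β + T * (K ^ j * β₁))) := by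
    have h1 := hVge (i + 1) hiT k
    have h2 := hVle (T - (i + 1)) (i + 1) (by omega)
    have h3 := hsl_le i
    rw [Finset.sum_eq_sum_Ico_succ_bot hiT] at h3
    rw [Finset.sum_eq_sum_Ico_succ_bot hiT] at hBi
    have h4 := mul_le_mul_of_nonneg_left hBi hP0.le
    have h5 : 0 ≤ P * ∑ k, |B i k| := mul_nonneg hP0.le (sum_nonneg fun _ _ => abs_nonneg _)
    have h6 := hlo0 i (mem_range.2 hiT)
    have h7 : m i k * p (i + 1) k ≤ sl i :=
      single_le_sum (f := fun k => m i k * p (i + 1) k)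
        (fun k _ => mul_nonneg (hm i k) (hpn _ hiT k)) (mem_univ k)
    have h8 : price T m i k * p (i + 1) k =
        m i k * p (i + 1) k + price T m (i + 1) k * p (i + 1) k := by
      rw [price_succ m k hiT]
      ring
    rw [h8]
    linarith
  have hfin : ∀ y : ℚ, 0 ≤ y → price T m i k * y ≤ P * (T * N + (β + T * (K ^ j * β₁))) →
      y ≤ Fintype.card κ * (T * N + (β + T * (K ^ j * β₁))) := by
    intro y hy h
    rw [hprice_i] at h
    have h1 := mul_le_mul_of_nonneg_right hk hy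
    refine le_of_mul_le_mul_left ?_ hP0
    have h2 := mul_le_mul_of_nonneg_left h (zero_le_one.trans hd1)
    linarith
  have hp1 := hfin _ (hpn i hiT.le k) hq1
  have hp2 := hfin _ (hpn (i + 1) hiT k) hq2
  set Hh := Fintype.card κ * (T * N + (β + T * (K ^ j * β₁))) with hHh
  have hKj : 1 ≤ K ^ j := one_le_pow₀ H.hK1
  have hKβ : β₁ ≤ K ^ j * β₁ := by
    have := mul_le_mul_of_nonneg_right hKj hβ₁0
    linarith
  -- the multiplicity at `i`
  have hli : (l₀ i : ℚ) ≤ Fintype.card κ * (T + 2) * (K ^ j * β₁) := by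
    have e1 : (l₀ i : ℚ) * c i k = p (i + 1) k - p i k - b i k := by
      have f2 : p (i + 1) k = p i k + (B i k + l₀ i * C i k) := pos_succ x B C _ i k
      have f3 : B i k = b i k := by rw [hB, bF, if_pos hiF]
      have f4 : C i k = c i k := by rw [hC, cF, if_pos hiF]
      rw [f2, f3, f4]
      ring
    have e2 : |(l₀ i : ℚ) * c i k| ≤ Hh + β := by
      rw [e1]
      have hb := abs_le.1 (H.b_le hiT k)
      have g1 := hpn i hiT.le k
      have g2 := hpn (i + 1) hiT k
      exact abs_le.2 ⟨by linarith, by linarith⟩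
    rw [abs_mul, abs_of_nonneg (Nat.cast_nonneg (α := ℚ) (l₀ i))] at e2
    have e3 := mul_le_mul_of_nonneg_left (H.hcZ i hiT k hci) (Nat.cast_nonneg (α := ℚ) (l₀ i))
    have e4 : T * N + β ≤ β₁ := by rw [hβ₁]; linarith
    have e5 : Hh ≤ Fintype.card κ * ((T + 1) * (K ^ j * β₁)) := by
      rw [hHh]
      refine mul_le_mul_of_nonneg_left ?_ (zero_le_one.trans hd1)
      linarith
    have e6 : β ≤ Fintype.card κ * (K ^ j * β₁) := by
      have g0 : 0 ≤ K ^ j * β₁ := by linarith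
      have g1 := mul_le_mul_of_nonneg_right hd1 g0
      linarith
    linarith
  have hcs : ∑ k, |c i k| ≤ Fintype.card κ * N := by
    refine (sum_le_card_nsmul univ _ _ fun k' _ => H.hc i hiT k').trans ?_
    rw [nsmul_eq_mul, Finset.card_univ]
  have hKβ0 : 0 ≤ K ^ j * β₁ := by linarith
  have hbig : (Fintype.card κ * (T + 2) * (K ^ j * β₁)) * (Fintype.card κ * N) ≤
      K ^ (j + 1) * β₁ := by
    have e1 := mul_le_mul_of_nonneg_right H.hK hKβ0
    rw [pow_succ]
    linarith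
  have hdN : 1 ≤ Fintype.card κ * N := by
    have := mul_le_mul hd1 H.hN zero_le_one (zero_le_one.trans hd1)
    linarith
  have hnn : 0 ≤ Fintype.card κ * (T + 2) * (K ^ j * β₁) := by
    have : (0 : ℚ) ≤ Fintype.card κ := zero_le_one.trans hd1
    positivity
  have hl1 : (l₀ i : ℚ) ≤ K ^ (j + 1) * β₁ := by
    have := mul_le_mul_of_nonneg_left hdN hnn
    linarith
  have hl2 : (l₀ i : ℚ) * ∑ k, |c i k| ≤ K ^ (j + 1) * β₁ := by
    refine le_trans (mul_le_mul hli hcs (sum_nonneg fun _ _ => abs_nonneg _) hnn) hbig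
  -- the rank drop
  have hdrop : Dm (F.erase i) c i < Dm F c i := by
    refine Submodule.finrank_lt_finrank_of_lt (lt_of_le_of_ne (Submodule.span_mono
      (Set.image_mono fun t ht => ⟨mem_of_mem_erase ht.1, ht.2⟩)) fun he => ?_)
    have h1 : c i ∈ Submodule.span ℚ (c '' {t | t ∈ F.erase i ∧ t ≤ i}) := by
      rw [he]
      exact Submodule.subset_span ⟨i, ⟨hiF, le_rfl⟩, rfl⟩
    have h2 : Submodule.span ℚ (c '' {t | t ∈ F.erase i ∧ t ≤ i}) ≤
        LinearMap.ker (LinearMap.proj k : (κ → ℚ) →ₗ[ℚ] ℚ) := by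
      rw [Submodule.span_le]
      rintro _ ⟨t, ⟨ht1, ht2⟩, rfl⟩
      rw [mem_erase] at ht1
      rw [SetLike.mem_coe, LinearMap.mem_ker, LinearMap.proj_apply]
      by_contra hne
      exact himin t (lt_of_le_of_ne ht2 ht1.1) ⟨ht1.2, hne⟩
    exact hci (LinearMap.mem_ker.1 (h2 h1))
  intro i' hi'T hi'F
  rw [mem_erase, not_and_or, not_not] at hi'F
  rcases hi'F with rfl | hi'F
  · have e1 : K ^ (j + 1) ≤ K ^ (g - Dm (F.erase i') c i') := by
      refine pow_le_pow_right₀ H.hK1 ?_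
      have := H.Dm_le hF i'
      omega
    have e2 := mul_le_mul_of_nonneg_right e1 hβ₁0
    exact ⟨by linarith, by linarith⟩
  · have e1 : K ^ (g - Dm F c i') ≤ K ^ (g - Dm (F.erase i) c i') := by
      refine pow_le_pow_right₀ H.hK1 ?_
      have := Dm_mono (c := c) (erase_subset i F) (le_refl i')
      omega
    have e2 := mul_le_mul_of_nonneg_right e1 hβ₁0
    obtain ⟨e3, e4⟩ := hI i' hi'T hi'F
    exact ⟨by linarith, by linarith⟩

/-- **Theorem B.** -/
theorem thmB (H : SysB T N K β x b c W g l₀) :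
    ∃ l : ℕ → ℕ, (∀ t < T, ∀ k, 0 ≤ pos x b c (fun t => (l t : ℚ)) (t + 1) k) ∧
      ∑ t ∈ range T, (l t : ℚ) ≤ 3 * (T + Fintype.card κ + 1) *
        (K * (1 + T * (1 + Fintype.card κ * N))) ^ g * (β + T * N + 1) := by
  have key : ∀ (n : ℕ) (F : Finset ℕ), F.card = n → F ⊆ range T →
      Inv T K (β + T * N + 1) c g l₀ F →
      ∃ l : ℕ → ℕ, (∀ t < T, ∀ k, 0 ≤ pos x b c (fun t => (l t : ℚ)) (t + 1) k) ∧
        ∑ t ∈ range T, (l t : ℚ) ≤ 3 * (T + Fintype.card κ + 1) *
          (K * (1 + T * (1 + Fintype.card κ * N))) ^ g * (β + T * N + 1) := by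
    intro n
    induction n with
    | zero =>
      intro F hF0 hF hI
      rw [card_eq_zero] at hF0
      subst hF0
      refine H.case1 rfl hI (l := fun _ => 0) (fun _ => le_rfl) fun t _ k hU => ?_
      obtain ⟨i, hi, -⟩ := hU
      exact absurd hi (notMem_empty i)
    | succ n ih =>
      intro F hFn hF hI
      by_cases h : ∃ l : ℕ → ℚ, (∀ t, 0 ≤ l t) ∧ ∀ t < T, ∀ k, Uns F c t k →
          T * N ≤ pos x (bF F b c l₀) (cF F c) l (t + 1) k
      · obtain ⟨l, h1, h2⟩ := h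
        exact H.case1 rfl hI h1 h2
      · obtain ⟨i, hi, hI'⟩ := H.case2 rfl hF hI h
        refine ih (F.erase i) ?_ ((erase_subset i F).trans hF) hI'
        rw [card_erase_of_mem hi, hFn]
        rfl
  refine key _ (range T) rfl (Subset.refl _) fun i hi hiF => ?_
  exact absurd (mem_range.2 hi) hiF

end SysB

end Pool.Agent.EEF
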