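import Pool.Agent.EEF.Flat

/-!
# EEF / Uncon: walks of integer-weighted graphs have one-loop normal forms

`wt` is an additive integer weight. Every walk `w` from `r` to `r'` can be replaced by
`α β^a γ` of the same weight, with `|α|+|β|+|γ|` polynomial in the number of states and the
weights, visiting only states visited by `w`.
-/

set_option autoImplicit false
set_option linter.unusedSectionVars false

namespace Pool.Agent.EEF

open Finset

variable {Q : Type} {d : ℕ} {T : VASS Q d}

theorem WalkIn.append {S : Finset Q} {p q r : Q} {u w : List (Vec d)} (h : WalkIn T S p u q)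
    (h' : WalkIn T S q w r) : WalkIn T S p (u ++ w) r := by
  induction h with
  | nil _ => exact h'
  | cons h0 h1 _ ih => exact .cons h0 h1 (ih h')

theorem WalkIn.mono {S S' : Finset Q} (hS : S ⊆ S') {p q : Q} {u : List (Vec d)}
    (h : WalkIn T S p u q) : WalkIn T S' p u q := by
  induction h with
  | nil h0 => exact .nil (hS h0)
  | cons h0 h1 _ ih => exact .cons (hS h0) h1 ih

theorem WalkIn.stop {S : Finset Q} {p q : Q} {w : List (Vec d)} (h : WalkIn T S p w q) :
    q ∈ S := by
  induction h with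
  | nil h0 => exact h0
  | cons _ _ _ ih => exact ih

theorem WalkIn.rep {S : Finset Q} {p : Q} {w : List (Vec d)} (h : WalkIn T S p w p) (n : ℕ) :
    WalkIn T S p (rep n w) p := by
  induction n with
  | zero => exact .nil h.start
  | succ n ih => rw [rep_succ]; exact h.append ih

theorem WalkIn.states {S : Finset Q} {p q : Q} {w : List (Vec d)} (h : WalkIn T S p w q) :
    ∃ f : ℕ → Q, f 0 = p ∧ f w.length = q ∧ ∀ i j, i ≤ j → j ≤ w.length →
      WalkIn T S (f i) ((w.drop i).take (j - i)) (f j) := by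
  induction h with
  | @nil p h0 =>
    refine ⟨fun _ => p, rfl, rfl, fun i j hij hj => ?_⟩
    simpa using WalkIn.nil (T := T) h0
  | @cons p p' q v w h0 h1 h2 ih =>
    obtain ⟨f, f0, f1, hf⟩ := ih
    refine ⟨fun i => Nat.casesOn i p f, rfl, ?_, ?_⟩
    · rw [List.length_cons]; exact f1
    · intro i j hij hj
      rw [List.length_cons] at hj
      rcases i with _ | i
      · rcases j with _ | j
        · simpa using WalkIn.nil (T := T) h0
        · have h3 := hf 0 j (Nat.zero_le _) (by omega)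
          rw [f0] at h3
          simp only [List.drop_zero, Nat.sub_zero, List.take_succ_cons] at h3 ⊢
          exact .cons h0 h1 h3
      · rcases j with _ | j
        · omega
        · have h3 := hf i j (by omega) (by omega)
          simp only [List.drop_succ_cons, Nat.add_sub_add_right]
          exact h3

/-- the states visited by a walk -/
theorem Walk.visited {p q : Q} {w : List (Vec d)} (h : Walk T p w q) :
    ∃ (S : Finset Q) (f : ℕ → Q), f 0 = p ∧ f w.length = q ∧
      (∀ s ∈ S, ∃ i ≤ w.length, f i = s) ∧ ∀ i j, i ≤ j → j ≤ w.length →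
      WalkIn T S (f i) ((w.drop i).take (j - i)) (f j) := by
  classical
  induction h with
  | nil p =>
    refine ⟨{p}, fun _ => p, rfl, rfl, fun s hs => ⟨0, le_rfl, (mem_singleton.1 hs).symm⟩,
      fun i j hij hj => ?_⟩
    simpa using WalkIn.nil (T := T) (mem_singleton_self p)
  | @cons p p' q v w h1 h2 ih =>
    obtain ⟨S, f, f0, f1, hS, hf⟩ := ih
    have hsub : S ⊆ insert p S := subset_insert _ _
    refine ⟨insert p S, fun i => Nat.casesOn i p f, rfl, ?_, ?_, ?_⟩
    · rw [List.length_cons]; exact f1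
    · intro s hs
      rw [mem_insert] at hs
      rcases hs with rfl | hs
      · exact ⟨0, Nat.zero_le _, rfl⟩
      · obtain ⟨i, hi, hfi⟩ := hS s hs
        exact ⟨i + 1, by rw [List.length_cons]; omega, hfi⟩
    · intro i j hij hj
      rw [List.length_cons] at hj
      have h0 : p ∈ insert p S := mem_insert_self _ _
      rcases i with _ | i
      · rcases j with _ | j
        · simpa using WalkIn.nil (T := T) h0
        · have h3 := (hf 0 j (Nat.zero_le _) (by omega)).mono hsub
          rw [f0] at h3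
          simp only [List.drop_zero, Nat.sub_zero, List.take_succ_cons] at h3 ⊢
          exact .cons h0 h1 h3
      · rcases j with _ | j
        · omega
        · have h3 := (hf i j (by omega) (by omega)).mono hsub
          simp only [List.drop_succ_cons, Nat.add_sub_add_right]
          exact h3

theorem seg_split {α : Type} (w : List α) {i j : ℕ} (hij : i ≤ j) :
    w.take i ++ (w.drop i).take (j - i) ++ w.drop j = w := by
  have h1 : w.take i ++ (w.drop i).take (j - i) = w.take j := by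
    rw [← List.take_add]
    congr 1
    omega
  rw [h1, List.take_append_drop]

theorem seg_split' {α : Type} (w : List α) {i j : ℕ} (hij : i ≤ j) :
    w.take i ++ (w.drop i).take (j - i) = w.take j := by
  rw [← List.take_add]
  congr 1
  omega

/-- pigeonhole -/
theorem pig [Fintype Q] (wt : Vec d →+ ℤ) {b : ℕ} (hb : 0 < b) {S : Finset Q} {p q : Q}
    {w : List (Vec d)} (h : WalkIn T S p w q) (hl : Fintype.card Q * b ≤ w.length) :
    ∃ u₁ u₂ u₃ r, w = u₁ ++ u₂ ++ u₃ ∧ u₂ ≠ [] ∧ (u₁ ++ u₂).length ≤ Fintype.card Q * b ∧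
      WalkIn T S p u₁ r ∧ WalkIn T S r u₂ r ∧ WalkIn T S r u₃ q ∧ (b : ℤ) ∣ wt u₂.sum := by
  haveI : NeZero b := ⟨hb.ne'⟩
  obtain ⟨f, f0, f1, hf⟩ := h.states
  have main : ∀ i j, i < j → j ≤ Fintype.card Q * b → f i = f j →
      ((wt (w.take i).sum : ℤ) : ZMod b) = ((wt (w.take j).sum : ℤ) : ZMod b) →
      ∃ u₁ u₂ u₃ r, w = u₁ ++ u₂ ++ u₃ ∧ u₂ ≠ [] ∧ (u₁ ++ u₂).length ≤ Fintype.card Q * b ∧
      WalkIn T S p u₁ r ∧ WalkIn T S r u₂ r ∧ WalkIn T S r u₃ q ∧ (b : ℤ) ∣ wt u₂.sum := by
    intro i j hij hj hfij hwt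
    refine ⟨w.take i, (w.drop i).take (j - i), w.drop j, f i, (seg_split w hij.le).symm, ?_, ?_,
      ?_, ?_, ?_, ?_⟩
    · intro h0
      have h1 := congrArg List.length h0
      rw [List.length_take, List.length_drop, List.length_nil] at h1
      omega
    · rw [seg_split' w hij.le, List.length_take]
      omega
    · have h1 := hf 0 i (Nat.zero_le _) (by omega)
      rw [f0, List.drop_zero, Nat.sub_zero] at h1
      exact h1
    · have h1 := hf i j hij.le (by omega)
      rw [← hfij] at h1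
      exact h1
    · have h1 := hf j w.length (by omega) le_rfl
      rw [f1, ← hfij, List.take_of_length_le (by rw [List.length_drop])] at h1
      exact h1
    · rw [← ZMod.intCast_zmod_eq_zero_iff_dvd]
      have h1 : wt (w.take j).sum = wt (w.take i).sum + wt ((w.drop i).take (j - i)).sum := by
        rw [← map_add, ← List.sum_append, seg_split' w hij.le]
      rw [h1] at hwt
      push_cast at hwt
      have h2 := hwt.symm
      rwa [add_eq_left] at h2
  set g : Fin (Fintype.card Q * b + 1) → Q × ZMod b :=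
    fun i => (f i, ((wt (w.take i).sum : ℤ) : ZMod b)) with hg
  have hcard : Fintype.card (Q × ZMod b) < Fintype.card (Fin (Fintype.card Q * b + 1)) := by
    rw [Fintype.card_prod, ZMod.card, Fintype.card_fin]
    omega
  obtain ⟨i, j, hij, he⟩ := Fintype.exists_ne_map_eq_of_card_lt g hcard
  have he1 : f i = f j := congrArg Prod.fst he
  have he2 : ((wt (w.take i).sum : ℤ) : ZMod b) = ((wt (w.take j).sum : ℤ) : ZMod b) :=
    congrArg Prod.snd he
  have hi := i.2
  have hj := j.2
  rcases lt_or_gt_of_ne (fun h => hij (Fin.ext h) : (i : ℕ) ≠ j) with h1 | h1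
  · exact main i j h1 (by omega) he1 he2
  · exact main j i h1 (by omega) he1.symm he2.symm

theorem erase_mod [Fintype Q] (wt : Vec d →+ ℤ) {b : ℕ} (hb : 0 < b) {S : Finset Q} :
    ∀ (N : ℕ) {p q : Q} {w : List (Vec d)}, w.length ≤ N → WalkIn T S p w q →
    ∃ w', WalkIn T S p w' q ∧ w'.length ≤ Fintype.card Q * b ∧ (b : ℤ) ∣ wt w.sum - wt w'.sum ∧
      ((∀ r u, WalkIn T S r u r → 0 ≤ wt u.sum) → wt w'.sum ≤ wt w.sum) ∧
      ((∀ r u, WalkIn T S r u r → wt u.sum ≤ 0) → wt w.sum ≤ wt w'.sum) := by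
  intro N
  induction N with
  | zero =>
    intro p q w hN h
    exact ⟨w, h, hN.trans (Nat.zero_le _), by simp, fun _ => le_rfl, fun _ => le_rfl⟩
  | succ N ih =>
    intro p q w hN h
    rcases le_total w.length (Fintype.card Q * b) with hl | hl
    · exact ⟨w, h, hl, by simp, fun _ => le_rfl, fun _ => le_rfl⟩
    · obtain ⟨u₁, u₂, u₃, r, e, hne, -, h1, h2, h3, h4⟩ := pig wt hb h hl
      have hpos : 0 < u₂.length := List.length_pos_iff.2 hne
      have hlen : w.length = u₁.length + u₂.length + u₃.length := by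
        rw [e, List.length_append, List.length_append]
      obtain ⟨w', a1, a2, a3, a4, a5⟩ := ih (w := u₁ ++ u₃)
        (by rw [List.length_append]; omega) (h1.append h3)
      have hw : wt w.sum = wt (u₁ ++ u₃).sum + wt u₂.sum := by
        rw [e, List.sum_append, List.sum_append, List.sum_append, map_add, map_add, map_add]
        ring
      refine ⟨w', a1, a2, ?_, fun hc => ?_, fun hc => ?_⟩
      · rw [hw]
        have : wt (u₁ ++ u₃).sum + wt u₂.sum - wt w'.sum =
            (wt (u₁ ++ u₃).sum - wt w'.sum) + wt u₂.sum := by ring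
        rw [this]
        exact dvd_add a3 h4
      · have := hc r u₂ h2
        have := a4 hc
        linarith
      · have := hc r u₂ h2
        have := a5 hc
        linarith

theorem short_pos [Fintype Q] (wt : Vec d →+ ℤ) {S : Finset Q} :
    ∀ (N : ℕ) {r : Q} {u : List (Vec d)}, u.length ≤ N → WalkIn T S r u r → 0 < wt u.sum →
    ∃ r' u', WalkIn T S r' u' r' ∧ u'.length ≤ Fintype.card Q ∧ 0 < wt u'.sum := by
  intro N
  induction N with
  | zero =>
    intro r u hN h h0
    exact ⟨r, u, h, hN.trans (Nat.zero_le _), h0⟩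
  | succ N ih =>
    intro r u hN h h0
    rcases le_total u.length (Fintype.card Q) with hl | hl
    · exact ⟨r, u, h, hl, h0⟩
    · obtain ⟨u₁, u₂, u₃, s, e, hne, h5, h1, h2, h3, -⟩ := pig wt one_pos h (by omega)
      have hpos : 0 < u₂.length := List.length_pos_iff.2 hne
      rw [List.length_append] at h5
      have hw : wt u.sum = wt (u₁ ++ u₃).sum + wt u₂.sum := by
        rw [e, List.sum_append, List.sum_append, List.sum_append, map_add, map_add, map_add]
        ring
      by_cases hp : 0 < wt u₂.sum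
      · exact ⟨s, u₂, h2, by omega, hp⟩
      · have hlen : u.length = u₁.length + u₂.length + u₃.length := by
          rw [e, List.length_append, List.length_append]
        exact ih (u := u₁ ++ u₃) (by rw [List.length_append]; omega) (h1.append h3)
          (by linarith)

theorem wt_le (wt : Vec d →+ ℤ) {M : ℕ} (hM : ∀ p v q, (p, v, q) ∈ T → |wt v| ≤ M)
    {S : Finset Q} {p q : Q} {w : List (Vec d)} (h : WalkIn T S p w q) :
    |wt w.sum| ≤ w.length * M := by
  induction h with
  | nil _ => simp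
  | @cons p p' q v w _ h1 _ ih =>
    rw [List.sum_cons, map_add, List.length_cons]
    have h2 := hM _ _ _ h1
    have h3 := abs_add_le (wt v) (wt w.sum)
    push_cast
    linarith

/-- one-loop normal form -/
def Out (T : VASS Q d) (S : Finset Q) (wt : Vec d →+ ℤ) (r r' : Q) (A : ℕ) (H : ℤ) : Prop :=
  ∃ (α β γ : List (Vec d)) (a : ℕ) (s : Q), WalkIn T S r α s ∧ WalkIn T S s β s ∧
    WalkIn T S s γ r' ∧ α.length + β.length + γ.length ≤ A ∧
    wt α.sum + a * wt β.sum + wt γ.sum = H

theorem Out.neg {S : Finset Q} {wt : Vec d →+ ℤ} {r r' : Q} {A : ℕ} {H : ℤ}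
    (h : Out T S (-wt) r r' A H) : Out T S wt r r' A (-H) := by
  obtain ⟨α, β, γ, a, s, h1, h2, h3, h4, h5⟩ := h
  refine ⟨α, β, γ, a, s, h1, h2, h3, h4, ?_⟩
  simp only [AddMonoidHom.neg_apply] at h5
  linarith

theorem exists_mul {b : ℤ} (hb : 0 < b) {x : ℤ} (hx : 0 ≤ x) (h : b ∣ x) :
    ∃ a : ℕ, (a : ℤ) * b = x := by
  obtain ⟨c, rfl⟩ := h
  have hc : 0 ≤ c := by
    by_contra hc
    push Not at hc
    have := mul_neg_of_pos_of_neg hb hc
    omega
  refine ⟨c.toNat, ?_⟩
  rw [Int.toNat_of_nonneg hc, mul_comm]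

/-- only non-negative closed walks -/
theorem out_pos [Fintype Q] (wt : Vec d →+ ℤ) {M : ℕ}
    (hM : ∀ p v q, (p, v, q) ∈ T → |wt v| ≤ M) {S : Finset Q}
    (hc : ∀ r u, WalkIn T S r u r → 0 ≤ wt u.sum) {r s r' : Q} {w₁ w₂ β : List (Vec d)}
    (h1 : WalkIn T S r w₁ s) (h2 : WalkIn T S s w₂ r') (hβ : WalkIn T S s β s)
    (hβl : β.length ≤ Fintype.card Q) (hβ0 : 0 < wt β.sum) :
    Out T S wt r r' (2 * (Fintype.card Q * (Fintype.card Q * M)) + Fintype.card Q)
      (wt w₁.sum + wt w₂.sum) := by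
  obtain ⟨b, hb⟩ : ∃ b : ℕ, (b : ℤ) = wt β.sum := ⟨(wt β.sum).toNat, Int.toNat_of_nonneg hβ0.le⟩
  have hb0 : 0 < b := by
    have : (0 : ℤ) < b := by rw [hb]; exact hβ0
    exact_mod_cast this
  have hbM : b ≤ Fintype.card Q * M := by
    have h3 := wt_le wt hM hβ
    rw [abs_of_pos hβ0, ← hb] at h3
    have h4 : (b : ℤ) ≤ Fintype.card Q * M := by
      refine h3.trans ?_
      exact_mod_cast Nat.mul_le_mul_right M hβl
    exact_mod_cast h4
  obtain ⟨α, a1, a2, a3, a4, -⟩ := erase_mod wt hb0 _ le_rfl h1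
  obtain ⟨γ, c1, c2, c3, c4, -⟩ := erase_mod wt hb0 _ le_rfl h2
  have hd := dvd_add a3 c3
  rw [hb] at hd
  have h5 := a4 hc
  have h6 := c4 hc
  obtain ⟨a, ha⟩ := exists_mul hβ0 (by linarith) hd
  refine ⟨α, β, γ, a, s, a1, hβ, c1, ?_, by linarith⟩
  have h7 : Fintype.card Q * b ≤ Fintype.card Q * (Fintype.card Q * M) := Nat.mul_le_mul_left _ hbM
  omega

/-- closed walks of both signs -/
theorem out_both [Fintype Q] (wt : Vec d →+ ℤ) {M : ℕ}
    (hM : ∀ p v q, (p, v, q) ∈ T → |wt v| ≤ M) {S : Finset Q}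
    {r s₁ s₂ r' : Q} {w₁ w₂ w₃ β₁ β₂ : List (Vec d)}
    (h1 : WalkIn T S r w₁ s₁) (h2 : WalkIn T S s₁ w₂ s₂) (h3 : WalkIn T S s₂ w₃ r')
    (hβ₁ : WalkIn T S s₁ β₁ s₁) (hl₁ : β₁.length ≤ Fintype.card Q) (hp₁ : 0 < wt β₁.sum)
    (hβ₂ : WalkIn T S s₂ β₂ s₂) (hl₂ : β₂.length ≤ Fintype.card Q) (hp₂ : wt β₂.sum < 0) :
    Out T S wt r r' (3 * (Fintype.card Q * ((Fintype.card Q * M) * (Fintype.card Q * M))) +
      Fintype.card Q) (wt w₁.sum + wt w₂.sum + wt w₃.sum) := by
  obtain ⟨b₁, hb₁⟩ : ∃ b : ℕ, (b : ℤ) = wt β₁.sum :=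
    ⟨(wt β₁.sum).toNat, Int.toNat_of_nonneg hp₁.le⟩
  obtain ⟨b₂, hb₂⟩ : ∃ b : ℕ, (b : ℤ) = -wt β₂.sum :=
    ⟨(-wt β₂.sum).toNat, Int.toNat_of_nonneg (by linarith)⟩
  have hb10 : 0 < b₁ := by
    have : (0 : ℤ) < b₁ := by rw [hb₁]; exact hp₁
    exact_mod_cast this
  have hb20 : 0 < b₂ := by
    have : (0 : ℤ) < b₂ := by rw [hb₂]; linarith
    exact_mod_cast this
  have hb1M : b₁ ≤ Fintype.card Q * M := by
    have h3 := wt_le wt hM hβ₁
    rw [abs_of_pos hp₁, ← hb₁] at h3
    have h4 : (b₁ : ℤ) ≤ Fintype.card Q * M := by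
      refine h3.trans ?_
      exact_mod_cast Nat.mul_le_mul_right M hl₁
    exact_mod_cast h4
  have hb2M : b₂ ≤ Fintype.card Q * M := by
    have h3 := wt_le wt hM hβ₂
    rw [abs_of_neg hp₂, ← hb₂] at h3
    have h4 : (b₂ : ℤ) ≤ Fintype.card Q * M := by
      refine h3.trans ?_
      exact_mod_cast Nat.mul_le_mul_right M hl₂
    exact_mod_cast h4
  have hb0 : 0 < b₁ * b₂ := Nat.mul_pos hb10 hb20
  have hbM : Fintype.card Q * (b₁ * b₂) ≤ Fintype.card Q * ((Fintype.card Q * M) * (Fintype.card Q * M)) :=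
    Nat.mul_le_mul_left _ (Nat.mul_le_mul hb1M hb2M)
  obtain ⟨α, a1, a2, a3, -, -⟩ := erase_mod wt hb0 _ le_rfl h1
  obtain ⟨δ, e1, e2, e3, -, -⟩ := erase_mod wt hb0 _ le_rfl h2
  obtain ⟨γ, c1, c2, c3, -, -⟩ := erase_mod wt hb0 _ le_rfl h3
  have hd := dvd_add (dvd_add a3 e3) c3
  push_cast at hd
  rcases le_total 0 (wt w₁.sum - wt α.sum + (wt w₂.sum - wt δ.sum) +
    (wt w₃.sum - wt γ.sum)) with h0 | h0
  · have hd1 : wt β₁.sum ∣ wt w₁.sum - wt α.sum + (wt w₂.sum - wt δ.sum) +
        (wt w₃.sum - wt γ.sum) := by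
      rw [← hb₁]
      exact (Dvd.intro _ rfl).trans hd
    obtain ⟨a, ha⟩ := exists_mul hp₁ h0 hd1
    refine ⟨α, β₁, δ ++ γ, a, s₁, a1, hβ₁, e1.append c1, ?_, ?_⟩
    · rw [List.length_append]
      omega
    · rw [List.sum_append, map_add]
      linarith
  · have hd2 : (-wt β₂.sum) ∣ -(wt w₁.sum - wt α.sum + (wt w₂.sum - wt δ.sum) +
        (wt w₃.sum - wt γ.sum)) := by
      rw [← hb₂, dvd_neg]
      exact (Dvd.intro_left _ rfl).trans hd
    obtain ⟨a, ha⟩ := exists_mul (b := -wt β₂.sum) (by linarith) (by linarith) hd2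
    refine ⟨α ++ δ, β₂, γ, a, s₂, a1.append e1, hβ₂, c1, ?_, ?_⟩
    · rw [List.length_append]
      omega
    · rw [List.sum_append, map_add]
      linarith

/-- **one-loop normal form of walks** -/
theorem uncon [Fintype Q] (wt : Vec d →+ ℤ) {M : ℕ}
    (hM : ∀ p v q, (p, v, q) ∈ T → |wt v| ≤ M) {r r' : Q} {w : List (Vec d)}
    {S : Finset Q} {f : ℕ → Q} (f0 : f 0 = r) (f1 : f w.length = r')
    (hS : ∀ s ∈ S, ∃ i ≤ w.length, f i = s)
    (hf : ∀ i j, i ≤ j → j ≤ w.length → WalkIn T S (f i) ((w.drop i).take (j - i)) (f j)) :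
    Out T S wt r r' (3 * (Fintype.card Q * ((Fintype.card Q * M) * (Fintype.card Q * M))) +
      Fintype.card Q) (wt w.sum) := by
  have hM' : ∀ p v q, (p, v, q) ∈ T → |(-wt) v| ≤ M := by
    intro p v q h
    rw [AddMonoidHom.neg_apply, abs_neg]
    exact hM p v q h
  have hw0 : WalkIn T S r w r' := by
    have := hf 0 w.length (Nat.zero_le _) le_rfl
    rw [f0, f1, List.drop_zero, Nat.sub_zero, List.take_length] at this
    exact this
  have hpre : ∀ i ≤ w.length, WalkIn T S r (w.take i) (f i) := by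
    intro i hi
    have := hf 0 i (Nat.zero_le _) hi
    rw [f0, List.drop_zero, Nat.sub_zero] at this
    exact this
  have hsuf : ∀ i ≤ w.length, WalkIn T S (f i) (w.drop i) r' := by
    intro i hi
    have := hf i w.length hi le_rfl
    rw [f1, List.take_of_length_le (by rw [List.length_drop])] at this
    exact this
  have hsum2 : ∀ i, wt (w.take i).sum + wt (w.drop i).sum = wt w.sum := by
    intro i
    rw [← map_add, ← List.sum_append, List.take_append_drop]
  have hsum3 : ∀ i j, i ≤ j → wt (w.take i).sum + wt ((w.drop i).take (j - i)).sum +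
      wt (w.drop j).sum = wt w.sum := by
    intro i j hij
    rw [← map_add, ← map_add, ← List.sum_append, ← List.sum_append, seg_split w hij]
  by_cases hpos : ∃ s u, WalkIn T S s u s ∧ 0 < wt u.sum
  · obtain ⟨s₀, u₀, hu₀, hu₀'⟩ := hpos
    obtain ⟨s₁, β₁, hβ₁, hl₁, hp₁⟩ := short_pos wt _ le_rfl hu₀ hu₀'
    obtain ⟨i, hi, rfl⟩ := hS s₁ hβ₁.start
    by_cases hneg : ∃ s u, WalkIn T S s u s ∧ wt u.sum < 0
    · obtain ⟨s₂, u₂, hu₂, hu₂'⟩ := hneg
      obtain ⟨s₂, β₂, hβ₂, hl₂, hp₂⟩ := short_pos (-wt) _ le_rfl hu₂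
        (by rw [AddMonoidHom.neg_apply]; linarith)
      rw [AddMonoidHom.neg_apply] at hp₂
      obtain ⟨j, hj, rfl⟩ := hS s₂ hβ₂.start
      rcases le_total i j with hij | hij
      · have := out_both wt hM (hpre i hi) (hf i j hij hj) (hsuf j hj) hβ₁ hl₁ hp₁ hβ₂ hl₂
          (by linarith)
        rw [hsum3 i j hij] at this
        exact this
      · have := (out_both (-wt) hM' (hpre j hj) (hf j i hij hi) (hsuf i hi) hβ₂ hl₂
          (by rw [AddMonoidHom.neg_apply]; linarith) hβ₁ hl₁
          (by rw [AddMonoidHom.neg_apply]; linarith)).neg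
        have e : -((-wt) (w.take j).sum + (-wt) ((w.drop j).take (i - j)).sum +
            (-wt) (w.drop i).sum) = wt w.sum := by
          rw [← hsum3 j i hij]
          simp only [AddMonoidHom.neg_apply]
          ring
        rw [e] at this
        exact this
    · push Not at hneg
      obtain ⟨α, β, γ, a, s, g1, g2, g3, g4, g5⟩ := out_pos wt hM hneg (hpre i hi) (hsuf i hi)
        hβ₁ hl₁ hp₁
      refine ⟨α, β, γ, a, s, g1, g2, g3, ?_, by rw [g5]; exact hsum2 i⟩
      have hnM : 1 ≤ Fintype.card Q * M := by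
        have h3 := wt_le wt hM hβ₁
        rw [abs_of_pos hp₁] at h3
        have h4 : (β₁.length : ℤ) * M ≤ Fintype.card Q * M := by exact_mod_cast Nat.mul_le_mul_right M hl₁
        have h5 : (1 : ℤ) ≤ Fintype.card Q * M := by linarith
        exact_mod_cast h5
      have h6 : Fintype.card Q * (Fintype.card Q * M) ≤ Fintype.card Q * ((Fintype.card Q * M) * (Fintype.card Q * M)) := by
        refine Nat.mul_le_mul_left _ ?_
        nlinarith
      omega
  · push Not at hpos
    by_cases hneg : ∃ s u, WalkIn T S s u s ∧ wt u.sum < 0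
    · obtain ⟨s₂, u₂, hu₂, hu₂'⟩ := hneg
      obtain ⟨s₂, β₂, hβ₂, hl₂, hp₂⟩ := short_pos (-wt) _ le_rfl hu₂
        (by rw [AddMonoidHom.neg_apply]; linarith)
      obtain ⟨j, hj, rfl⟩ := hS s₂ hβ₂.start
      obtain ⟨α, β, γ, a, s, g1, g2, g3, g4, g5⟩ := (out_pos (-wt) hM' (fun r u h => by
        rw [AddMonoidHom.neg_apply]; linarith [hpos r u h]) (hpre j hj) (hsuf j hj)
        hβ₂ hl₂ hp₂).neg
      refine ⟨α, β, γ, a, s, g1, g2, g3, ?_, ?_⟩
      · have hnM : 1 ≤ Fintype.card Q * M := by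
          have h3 := wt_le (-wt) hM' hβ₂
          rw [abs_of_pos hp₂] at h3
          have h4 : (β₂.length : ℤ) * M ≤ Fintype.card Q * M := by exact_mod_cast Nat.mul_le_mul_right M hl₂
          have h5 : (1 : ℤ) ≤ Fintype.card Q * M := by linarith
          exact_mod_cast h5
        have h6 : Fintype.card Q * (Fintype.card Q * M) ≤ Fintype.card Q * ((Fintype.card Q * M) * (Fintype.card Q * M)) := by
          refine Nat.mul_le_mul_left _ ?_
          nlinarith
        omega
      · rw [g5, ← hsum2 j]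
        simp only [AddMonoidHom.neg_apply]
        ring
    · push Not at hneg
      obtain ⟨w', a1, a2, -, a4, a5⟩ := erase_mod wt one_pos _ le_rfl hw0
      refine ⟨w', [], [], 0, r', a1, .nil hw0.stop, .nil hw0.stop, ?_, ?_⟩
      · simp only [List.length_nil]
        omega
      · have h1 := a4 hneg
        have h2 := a5 hpos
        simp only [List.sum_nil, map_zero, mul_zero, add_zero]
        linarith

end Pool.Agent.EEF
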